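import Pool.Agent.W120.WM.Fin3

/-! Project WM3: the Abelian upper bound with the exact constant. -/

set_option autoImplicit false

open MeasureTheory Filter Topology Set

namespace Pool.Agent.W120.WM

open Pool.Agent.H295R2 (JW JW_mono JW_nonneg JW_integrable IW_exp)

/-- `M(e^v)² e^{-v}` -/
noncomputable def ff (v : ℝ) : ℝ := Mx (Real.exp v) ^ 2 * Real.exp (-v)

theorem ff_nonneg (v : ℝ) : 0 ≤ ff v := by unfold ff; positivity

theorem ff_meas : Measurable ff := by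
  have hMm : Measurable Mx := by
    have : Mx = (fun n : ℕ => ∑ k ∈ Finset.Icc 1 n, ((ArithmeticFunction.moebius k : ℤ) : ℝ)) ∘
        (fun u : ℝ => ⌊u⌋₊) := rfl
    rw [this]
    exact (measurable_from_nat).comp Nat.measurable_floor
  exact ((hMm.comp Real.measurable_exp).pow_const 2).mul (by fun_prop)

theorem ff_int (V : ℝ) : IntegrableOn ff (Ioc 0 V) := JW_integrable le_rfl

theorem JW_ff (V : ℝ) : JW 0 V = ∫ v in Ioc 0 V, ff v := rfl

/-- crude bound for the Laplace integral -/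
theorem crude {A : ℝ} (hA : 0 ≤ A) (h : ∀ V : ℝ, 1 ≤ V → JW 0 V ≤ A * V) {W : ℝ} (hW : 1 ≤ W) :
    ∫⁻ v in Ioi 0, ENNReal.ofReal (ff v * Real.exp (-(v / W))) ≤
      ENNReal.ofReal ((A * ∑' j : ℕ, ((j : ℝ) + 1) * Real.exp (-(j : ℝ))) * W) := by
  have hW0 : 0 < W := by linarith
  have hsum : Summable (fun j : ℕ => ((j : ℝ) + 1) * Real.exp (-(j : ℝ))) := by
    have h1 := Real.summable_pow_mul_exp_neg_nat_mul 1 one_pos
    have h2 := Real.summable_pow_mul_exp_neg_nat_mul 0 one_pos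
    refine (h1.add h2).congr fun j => ?_
    simp
    ring
  have hcov : Ioi (0 : ℝ) ⊆ ⋃ j : ℕ, Ioc ((j : ℝ) * W) (((j : ℝ) + 1) * W) := by
    intro v hv
    have hv0 : 0 < v := hv
    have hpos : 0 < v / W := by positivity
    obtain ⟨n, hn⟩ : ∃ n : ℕ, n = ⌈v / W⌉₊ - 1 := ⟨_, rfl⟩
    have hc : 0 < ⌈v / W⌉₊ := Nat.ceil_pos.2 hpos
    have hn1 : ((n : ℝ) + 1) = ⌈v / W⌉₊ := by
      have : n + 1 = ⌈v / W⌉₊ := by omega
      exact_mod_cast this
    refine mem_iUnion.2 ⟨n, ?_, ?_⟩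
    · have h1 := Nat.ceil_lt_add_one hpos.le
      have h2 : (n : ℝ) < v / W := by linarith
      rwa [lt_div_iff₀ hW0] at h2
    · have h1 := Nat.le_ceil (v / W)
      rw [← hn1, div_le_iff₀ hW0] at h1
      exact h1
  calc ∫⁻ v in Ioi 0, ENNReal.ofReal (ff v * Real.exp (-(v / W)))
      ≤ ∫⁻ v in ⋃ j : ℕ, Ioc ((j : ℝ) * W) (((j : ℝ) + 1) * W),
          ENNReal.ofReal (ff v * Real.exp (-(v / W))) := lintegral_mono_set hcov
    _ ≤ ∑' j : ℕ, ∫⁻ v in Ioc ((j : ℝ) * W) (((j : ℝ) + 1) * W),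
          ENNReal.ofReal (ff v * Real.exp (-(v / W))) := lintegral_iUnion_le _ _
    _ ≤ ∑' j : ℕ, ENNReal.ofReal (A * W * (((j : ℝ) + 1) * Real.exp (-(j : ℝ)))) := by
        refine ENNReal.tsum_le_tsum fun j => ?_
        have hj : (0 : ℝ) ≤ j := j.cast_nonneg
        calc ∫⁻ v in Ioc ((j : ℝ) * W) (((j : ℝ) + 1) * W),
              ENNReal.ofReal (ff v * Real.exp (-(v / W)))
            ≤ ∫⁻ v in Ioc ((j : ℝ) * W) (((j : ℝ) + 1) * W),
              ENNReal.ofReal (Real.exp (-(j : ℝ))) * ENNReal.ofReal (ff v) := by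
              refine setLIntegral_mono' measurableSet_Ioc fun v hv => ?_
              rw [← ENNReal.ofReal_mul (Real.exp_pos _).le]
              refine ENNReal.ofReal_le_ofReal ?_
              rw [mul_comm]
              refine mul_le_mul_of_nonneg_right ?_ (ff_nonneg v)
              refine Real.exp_le_exp.2 ?_
              have : (j : ℝ) ≤ v / W := by
                rw [le_div_iff₀ hW0]
                exact hv.1.le
              linarith
          _ = ENNReal.ofReal (Real.exp (-(j : ℝ))) *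
              ∫⁻ v in Ioc ((j : ℝ) * W) (((j : ℝ) + 1) * W), ENNReal.ofReal (ff v) :=
              lintegral_const_mul' _ _ ENNReal.ofReal_ne_top
          _ ≤ ENNReal.ofReal (Real.exp (-(j : ℝ))) *
              ∫⁻ v in Ioc 0 (((j : ℝ) + 1) * W), ENNReal.ofReal (ff v) := by
              gcongr
              positivity
          _ = ENNReal.ofReal (Real.exp (-(j : ℝ))) *
              ENNReal.ofReal (JW 0 (((j : ℝ) + 1) * W)) := by
              rw [JW_ff, ofReal_integral_eq_lintegral_ofReal (ff_int _)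
                (Eventually.of_forall ff_nonneg)]
          _ ≤ ENNReal.ofReal (Real.exp (-(j : ℝ))) *
              ENNReal.ofReal (A * (((j : ℝ) + 1) * W)) := by
              gcongr
              exact h _ (by nlinarith)
          _ = ENNReal.ofReal (A * W * (((j : ℝ) + 1) * Real.exp (-(j : ℝ)))) := by
              rw [← ENNReal.ofReal_mul (Real.exp_pos _).le]
              congr 1
              ring
    _ = ENNReal.ofReal (∑' j : ℕ, A * W * (((j : ℝ) + 1) * Real.exp (-(j : ℝ)))) := by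
        rw [ENNReal.ofReal_tsum_of_nonneg (fun j => by positivity) (hsum.mul_left _)]
    _ = _ := by
        rw [tsum_mul_left]
        congr 1
        ring

theorem wt3 {B V : ℝ} (hB : 0 ≤ B) (hV : 1 ≤ V) (t : ℝ) :
    (3 + |t|) ^ (2 * (1 / (2 * V))) * Real.exp (-(Real.exp (-(B * V)) ^ 2 * t ^ 2)) ≤
      2 * Real.exp (B + 2) := by
  have hV0 : 0 < V := by linarith
  obtain ⟨x, hx⟩ : ∃ x : ℝ, x = Real.exp (-(B * V)) * |t| := ⟨_, rfl⟩
  have hx0 : 0 ≤ x := by rw [hx]; positivity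
  have e1 : 3 + |t| ≤ Real.exp (B * V + 2) * (1 + x) := by
    have h1 : |t| = Real.exp (B * V) * x := by
      rw [hx, ← mul_assoc, ← Real.exp_add]; simp
    have h2 : Real.exp (B * V + 2) = Real.exp (B * V) * Real.exp 2 := Real.exp_add _ _
    have h3 : (1 : ℝ) ≤ Real.exp (B * V) := Real.one_le_exp (by positivity)
    have h4 : (3 : ℝ) ≤ Real.exp 2 := by
      have := Real.add_one_le_exp (2 : ℝ)
      linarith
    rw [h1, h2]
    have h5 : 3 ≤ Real.exp (B * V) * Real.exp 2 := by nlinarith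
    have h6 : Real.exp (B * V) * x ≤ Real.exp (B * V) * Real.exp 2 * x := by
      have : Real.exp (B * V) * 1 ≤ Real.exp (B * V) * Real.exp 2 :=
        mul_le_mul_of_nonneg_left (by linarith) (by positivity)
      nlinarith
    nlinarith
  have hexe : 2 * (1 / (2 * V)) = 1 / V := by field_simp
  rw [hexe]
  have hex : 0 ≤ 1 / V := by positivity
  have hex1 : 1 / V ≤ 1 := by
    rw [div_le_one hV0]
    exact hV
  have e2 : (3 + |t|) ^ (1 / V) ≤ Real.exp (B + 2) * (1 + x) := by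
    calc (3 + |t|) ^ (1 / V) ≤ (Real.exp (B * V + 2) * (1 + x)) ^ (1 / V) :=
          Real.rpow_le_rpow (by positivity) e1 hex
      _ = Real.exp (B * V + 2) ^ (1 / V) * (1 + x) ^ (1 / V) :=
          Real.mul_rpow (Real.exp_pos _).le (by positivity)
      _ ≤ Real.exp (B + 2) * (1 + x) := by
          have h1 : Real.exp (B * V + 2) ^ (1 / V) ≤ Real.exp (B + 2) := by
            rw [← Real.exp_mul]
            refine Real.exp_le_exp.2 ?_
            have : (B * V + 2) * (1 / V) = B + 2 * (1 / V) := by field_simp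
            rw [this]
            linarith
          have h2 : (1 + x) ^ (1 / V) ≤ 1 + x := by
            calc (1 + x) ^ (1 / V) ≤ (1 + x) ^ (1 : ℝ) :=
                  Real.rpow_le_rpow_of_exponent_le (by linarith) hex1
              _ = 1 + x := Real.rpow_one _
          gcongr
  have e3 : Real.exp (-(B * V)) ^ 2 * t ^ 2 = x ^ 2 := by
    rw [hx, mul_pow, sq_abs]
  rw [e3]
  have e4 : (1 + x) * Real.exp (-x ^ 2) ≤ 2 := by
    rw [Real.exp_neg, mul_inv_le_iff₀ (Real.exp_pos _)]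
    have h1 := Real.add_one_le_exp (x ^ 2)
    nlinarith [sq_nonneg (x - 1)]
  calc (3 + |t|) ^ (1 / V) * Real.exp (-x ^ 2)
      ≤ Real.exp (B + 2) * (1 + x) * Real.exp (-x ^ 2) := by gcongr
    _ = Real.exp (B + 2) * ((1 + x) * Real.exp (-x ^ 2)) := by ring
    _ ≤ Real.exp (B + 2) * 2 := by gcongr
    _ = _ := by ring

/-- the mean square on the line with the exact constant -/
def X_TAN : Prop := (∀ ρ ∈ NT, ρ.re = 1 / 2 ∧ deriv riemannZeta ρ ≠ 0) → ∀ S : ℝ,
  (∀ Z : Finset ℂ, (∀ ρ ∈ Z, ρ ∈ NT) → ∑ ρ ∈ Z, 1 / ‖ρ * deriv riemannZeta ρ‖ ^ 2 ≤ S) →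
  ∀ M ε : ℝ, 0 < ε → ∃ δ0 : ℝ, 0 < δ0 ∧ ∀ δ h : ℝ, 0 < δ → δ < δ0 → 0 < h → h < δ0 →
      (∀ t : ℝ, (3 + |t|) ^ (2 * δ) * Real.exp (-(h ^ 2 * t ^ 2)) ≤ M) →
      ∫⁻ t : ℝ, ‖GG h 0 (⟨1 / 2 + δ, t⟩ : ℂ)‖ₑ ^ 2 ≤ ENNReal.ofReal ((Real.pi * S + ε) / δ)

/-- Plancherel with the exact constant -/
def X_PL : Prop := ∀ δ h : ℝ, 0 < δ → 0 < h →
  (∀ v : ℝ, Integrable (fun t : ℝ => GG h v (⟨1 / 2 + δ, t⟩ : ℂ)) ∧
    ((Sm h v : ℝ) : ℂ) = ((2 * Real.pi : ℝ) : ℂ)⁻¹ * ∫ t : ℝ, GG h v (⟨1 / 2 + δ, t⟩ : ℂ)) →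
  ∫⁻ t : ℝ, ‖GG h 0 (⟨1 / 2 + δ, t⟩ : ℂ)‖ₑ ^ 2 ≠ ⊤ →
  ∫⁻ v : ℝ, ENNReal.ofReal (Sm h v ^ 2 * Real.exp (-((1 + 2 * δ) * v))) ≤
    ENNReal.ofReal (1 / (2 * Real.pi)) * ∫⁻ t : ℝ, ‖GG h 0 (⟨1 / 2 + δ, t⟩ : ℂ)‖ₑ ^ 2

theorem abel (hs : T_SHARP) (hTAN : X_TAN) (hPL : X_PL) (hINV : U_INV) (hUNS : T_UNS)
    (h1 : ∀ ρ ∈ NT, ρ.re = 1 / 2 ∧ deriv riemannZeta ρ ≠ 0) (S : ℝ)
    (hS : ∀ Z : Finset ℂ, (∀ ρ ∈ Z, ρ ∈ NT) → ∑ ρ ∈ Z, 1 / ‖ρ * deriv riemannZeta ρ‖ ^ 2 ≤ S)
    (ε : ℝ) (hε : 0 < ε) : ∀ᶠ V : ℝ in atTop,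
    ∫⁻ v in Ioi 0, ENNReal.ofReal (ff v * Real.exp (-(v / V))) ≤ ENNReal.ofReal ((S + ε) * V) := by
  have hS0 : 0 ≤ S := by simpa using hS ∅ (by simp)
  obtain ⟨K, hK, hK2⟩ := hs h1
  obtain ⟨C, hC, hUNS⟩ := hUNS
  have hcr0 : ∀ V : ℝ, 1 ≤ V → JW 0 V ≤ K * (1 + S) * V := fun V hV =>
    (hK2 S hS V hV).trans (by
      rw [mul_assoc]
      refine mul_le_mul_of_nonneg_left ?_ hK.le
      nlinarith)
  have hcr : ∀ W : ℝ, 1 ≤ W → ∫⁻ v in Ioi 0, ENNReal.ofReal (ff v * Real.exp (-(v / W))) ≤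
      ENNReal.ofReal ((K * (1 + S) * ∑' j : ℕ, ((j : ℝ) + 1) * Real.exp (-(j : ℝ))) * W) :=
    fun W hW => crude (by positivity) hcr0 hW
  obtain ⟨A', hA'⟩ : ∃ A' : ℝ, A' = K * (1 + S) * ∑' j : ℕ, ((j : ℝ) + 1) * Real.exp (-(j : ℝ)) :=
    ⟨_, rfl⟩
  rw [← hA'] at hcr
  have hA0 : 0 ≤ A' := by
    rw [hA']
    exact mul_nonneg (by positivity) (tsum_nonneg fun j => by positivity)
  -- choice of B
  obtain ⟨B, hB1, hB2⟩ : ∃ B : ℝ, 1 ≤ B ∧ Real.exp (-(B / 2)) * (A' * 2) ≤ ε / 4 := by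
    have ht : Tendsto (fun B : ℝ => Real.exp (-(B / 2)) * (A' * 2)) atTop (𝓝 (0 * (A' * 2))) := by
      refine Tendsto.mul_const _ ?_
      refine Real.tendsto_exp_neg_atTop_nhds_zero.comp ?_
      exact tendsto_id.atTop_div_const (by norm_num)
    rw [zero_mul] at ht
    have h2 := (ht.eventually (gt_mem_nhds (show (0 : ℝ) < ε / 4 by positivity))).and
      (eventually_ge_atTop (1 : ℝ))
    obtain ⟨B, hB, hB1⟩ := h2.exists
    exact ⟨B, hB1, hB.le⟩
  obtain ⟨δ0, hδ0, hTAN⟩ := hTAN h1 S hS (2 * Real.exp (B + 2)) (ε / 16) (by positivity)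
  obtain ⟨η, hη⟩ : ∃ η : ℝ, η = min 1 (ε / (16 * (S + 1))) := ⟨_, rfl⟩
  have hη0 : 0 < η := by rw [hη]; positivity
  have hη1 : η ≤ 1 := by rw [hη]; exact min_le_left _ _
  have hη2 : η * S ≤ ε / 16 := by
    have : η ≤ ε / (16 * (S + 1)) := by rw [hη]; exact min_le_right _ _
    calc η * S ≤ ε / (16 * (S + 1)) * (S + 1) := by
          refine mul_le_mul this (by linarith) hS0 (by positivity)
      _ = ε / 16 := by field_simp
  have hev1 : ∀ᶠ V : ℝ in atTop, Real.exp (-(B * V)) < δ0 := by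
    have ht : Tendsto (fun V : ℝ => Real.exp (-(B * V))) atTop (𝓝 0) :=
      Real.tendsto_exp_neg_atTop_nhds_zero.comp (tendsto_id.const_mul_atTop (by linarith))
    exact ht.eventually (gt_mem_nhds hδ0)
  filter_upwards [hev1, eventually_gt_atTop (1 / δ0), eventually_gt_atTop (2 : ℝ),
    eventually_ge_atTop (4 * ((1 + 1 / η) * C ^ 2) / ε)] with V hVh hVδ hV2 hVC
  have hV0 : 0 < V := by linarith
  obtain ⟨δ, hδ⟩ : ∃ δ : ℝ, δ = 1 / (2 * V) := ⟨_, rfl⟩
  obtain ⟨h, hh⟩ : ∃ h : ℝ, h = Real.exp (-(B * V)) := ⟨_, rfl⟩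
  have hδp : 0 < δ := by rw [hδ]; positivity
  have hδ1 : δ < 1 / 2 := by
    rw [hδ, div_lt_div_iff₀ (by positivity) (by norm_num)]
    linarith
  have hδδ : δ < δ0 := by
    rw [hδ, div_lt_iff₀ (by positivity)]
    rw [div_lt_iff₀ hδ0] at hVδ
    nlinarith
  have hpos : 0 < h := hh ▸ Real.exp_pos _
  have hle1 : h ≤ 1 := hh ▸ Real.exp_le_one_iff.2 (by nlinarith)
  have hhδ : h < δ0 := hh ▸ hVh
  have hRH : RHp := fun ρ hρ => (h1 ρ hρ).1
  have b1 := hTAN δ h hδp hδδ hpos hhδ (fun t => by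
    rw [hδ, hh]
    exact wt3 (by linarith) (by linarith) t)
  have b2 := hPL δ h hδp hpos (fun v => hINV hRH δ h v hδp hδ1 hpos hle1)
    (ne_top_of_le_ne_top ENNReal.ofReal_ne_top b1)
  have b3 : ∫⁻ v : ℝ, ENNReal.ofReal (Sm h v ^ 2 * Real.exp (-((1 + 2 * δ) * v))) ≤
      ENNReal.ofReal ((S + ε / 16) * V) := by
    refine b2.trans ((mul_le_mul_right b1 _).trans ?_)
    rw [← ENNReal.ofReal_mul (by positivity)]
    refine ENNReal.ofReal_le_ofReal ?_
    rw [hδ]
    have e : 1 / (2 * Real.pi) * ((Real.pi * S + ε / 16) / (1 / (2 * V))) =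
        (S + ε / 16 / Real.pi) * V := by
      field_simp
    rw [e]
    have hpi : ε / 16 / Real.pi ≤ ε / 16 := div_le_self (by positivity) (by linarith [Real.pi_gt_three])
    gcongr
  -- the main part
  have hmainp : ∫⁻ v in Ioc 0 (B * V), ENNReal.ofReal (ff v * Real.exp (-(v / V))) ≤
      ENNReal.ofReal ((1 + η) * ((S + ε / 16) * V) + (1 + 1 / η) * C ^ 2) := by
    have hpt : ∀ v ∈ Ioc 0 (B * V), ff v * Real.exp (-(v / V)) ≤
        (1 + η) * (Sm h v ^ 2 * Real.exp (-((1 + 2 * δ) * v))) +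
          (1 + 1 / η) * C ^ 2 * Real.exp (-v) := by
      intro v hv
      have a1 : |Mx (Real.exp v) - Sm h v| ≤ C :=
        hUNS v h hv.1.le hpos (hh ▸ Real.exp_le_exp.2 (by linarith [hv.2]))
      have a2 : Mx (Real.exp v) ^ 2 ≤ (1 + η) * Sm h v ^ 2 + (1 + 1 / η) * C ^ 2 := by
        have h3 : (Mx (Real.exp v) - Sm h v) ^ 2 ≤ C ^ 2 := by
          rw [← sq_abs]
          gcongr
        obtain ⟨y, hy⟩ : ∃ y : ℝ, y = Mx (Real.exp v) - Sm h v := ⟨_, rfl⟩
        have h4 : Mx (Real.exp v) = Sm h v + y := by rw [hy]; ring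
        rw [← hy] at h3
        rw [h4]
        have h5 : 2 * (Sm h v * y) ≤ η * Sm h v ^ 2 + 1 / η * y ^ 2 := by
          have h6 : 0 ≤ 1 / η * (η * Sm h v - y) ^ 2 := by positivity
          have h7 : 1 / η * (η * Sm h v - y) ^ 2 =
              η * Sm h v ^ 2 - 2 * (Sm h v * y) + 1 / η * y ^ 2 := by
            field_simp
            ring
          linarith
        have h8 : (1 + 1 / η) * y ^ 2 ≤ (1 + 1 / η) * C ^ 2 := by gcongr
        nlinarith
      have a3 : Real.exp (-v) * Real.exp (-(v / V)) = Real.exp (-((1 + 2 * δ) * v)) := by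
        rw [← Real.exp_add]
        congr 1
        rw [hδ]
        field_simp
        ring
      have a4 : Real.exp (-(v / V)) ≤ 1 := Real.exp_le_one_iff.2 (by
        have : 0 ≤ v / V := div_nonneg hv.1.le hV0.le
        linarith)
      have a5 : 0 < Real.exp (-v) := Real.exp_pos _
      have a6 : 0 < Real.exp (-(v / V)) := Real.exp_pos _
      unfold ff
      calc Mx (Real.exp v) ^ 2 * Real.exp (-v) * Real.exp (-(v / V))
          ≤ ((1 + η) * Sm h v ^ 2 + (1 + 1 / η) * C ^ 2) * Real.exp (-v) *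
            Real.exp (-(v / V)) := by gcongr
        _ = (1 + η) * (Sm h v ^ 2 * (Real.exp (-v) * Real.exp (-(v / V)))) +
            (1 + 1 / η) * C ^ 2 * Real.exp (-v) * Real.exp (-(v / V)) := by ring
        _ ≤ (1 + η) * (Sm h v ^ 2 * Real.exp (-((1 + 2 * δ) * v))) +
            (1 + 1 / η) * C ^ 2 * Real.exp (-v) * 1 := by
            rw [a3]
            gcongr
        _ = _ := by ring
    have hexp : ∫⁻ v in Ioc 0 (B * V), ENNReal.ofReal ((1 + 1 / η) * C ^ 2 * Real.exp (-v)) ≤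
        ENNReal.ofReal ((1 + 1 / η) * C ^ 2) := by
      calc ∫⁻ v in Ioc 0 (B * V), ENNReal.ofReal ((1 + 1 / η) * C ^ 2 * Real.exp (-v))
          ≤ ∫⁻ v in Ioi 0, ENNReal.ofReal ((1 + 1 / η) * C ^ 2 * Real.exp (-v)) :=
            lintegral_mono_set Ioc_subset_Ioi_self
        _ = ENNReal.ofReal (∫ v in Ioi (0 : ℝ), (1 + 1 / η) * C ^ 2 * Real.exp (-v)) := by
            rw [ofReal_integral_eq_lintegral_ofReal]
            · exact ((exp_neg_integrableOn_Ioi 0 one_pos).congr_fun (fun v _ => by simp)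
                measurableSet_Ioi).const_mul _
            · exact Eventually.of_forall fun v => by positivity
        _ = ENNReal.ofReal ((1 + 1 / η) * C ^ 2) := by
            rw [integral_const_mul, integral_exp_neg_Ioi_zero, mul_one]
    calc ∫⁻ v in Ioc 0 (B * V), ENNReal.ofReal (ff v * Real.exp (-(v / V)))
        ≤ ∫⁻ v in Ioc 0 (B * V), (ENNReal.ofReal (1 + η) *
            ENNReal.ofReal (Sm h v ^ 2 * Real.exp (-((1 + 2 * δ) * v))) +
            ENNReal.ofReal ((1 + 1 / η) * C ^ 2 * Real.exp (-v))) := by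
          refine setLIntegral_mono' measurableSet_Ioc fun v hv => ?_
          refine (ENNReal.ofReal_le_ofReal (hpt v hv)).trans ?_
          rw [ENNReal.ofReal_add (by positivity) (by positivity),
            ENNReal.ofReal_mul (by positivity : (0 : ℝ) ≤ 1 + η)]
      _ = ENNReal.ofReal (1 + η) * (∫⁻ v in Ioc 0 (B * V),
            ENNReal.ofReal (Sm h v ^ 2 * Real.exp (-((1 + 2 * δ) * v)))) +
            ∫⁻ v in Ioc 0 (B * V), ENNReal.ofReal ((1 + 1 / η) * C ^ 2 * Real.exp (-v)) := by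
          rw [lintegral_add_right _ (by fun_prop), lintegral_const_mul' _ _ (by simp)]
      _ ≤ ENNReal.ofReal (1 + η) * ENNReal.ofReal ((S + ε / 16) * V) +
            ENNReal.ofReal ((1 + 1 / η) * C ^ 2) := by
          gcongr
          exact (setLIntegral_le_lintegral _ _).trans b3
      _ = _ := by
          rw [← ENNReal.ofReal_mul (by positivity : (0 : ℝ) ≤ 1 + η),
            ← ENNReal.ofReal_add (by positivity) (by positivity)]
  -- the tail
  have htail : ∫⁻ v in Ioi (B * V), ENNReal.ofReal (ff v * Real.exp (-(v / V))) ≤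
      ENNReal.ofReal (ε / 4 * V) := by
    calc ∫⁻ v in Ioi (B * V), ENNReal.ofReal (ff v * Real.exp (-(v / V)))
        ≤ ∫⁻ v in Ioi (B * V), ENNReal.ofReal (Real.exp (-(B / 2))) *
            ENNReal.ofReal (ff v * Real.exp (-(v / (2 * V)))) := by
          refine setLIntegral_mono' measurableSet_Ioi fun v hv => ?_
          rw [← ENNReal.ofReal_mul (Real.exp_pos _).le]
          refine ENNReal.ofReal_le_ofReal ?_
          have hv' : B * V < v := hv
          have e1 : Real.exp (-(v / V)) ≤ Real.exp (-(B / 2)) * Real.exp (-(v / (2 * V))) := by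
            rw [← Real.exp_add]
            refine Real.exp_le_exp.2 ?_
            have e2 : v / V = v / (2 * V) + v / (2 * V) := by field_simp; ring
            have e3 : B / 2 ≤ v / (2 * V) := by
              rw [div_le_div_iff₀ (by norm_num) (by positivity)]
              linarith
            rw [e2]
            linarith
          calc ff v * Real.exp (-(v / V))
              ≤ ff v * (Real.exp (-(B / 2)) * Real.exp (-(v / (2 * V)))) :=
                mul_le_mul_of_nonneg_left e1 (ff_nonneg v)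
            _ = _ := by ring
      _ = ENNReal.ofReal (Real.exp (-(B / 2))) * ∫⁻ v in Ioi (B * V),
            ENNReal.ofReal (ff v * Real.exp (-(v / (2 * V)))) :=
          lintegral_const_mul' _ _ ENNReal.ofReal_ne_top
      _ ≤ ENNReal.ofReal (Real.exp (-(B / 2))) * ENNReal.ofReal (A' * (2 * V)) := by
          gcongr
          refine (lintegral_mono_set (Ioi_subset_Ioi (by positivity))).trans ?_
          exact hcr _ (by linarith)
      _ = ENNReal.ofReal (Real.exp (-(B / 2)) * (A' * 2) * V) := by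
          rw [← ENNReal.ofReal_mul (Real.exp_pos _).le]
          congr 1
          ring
      _ ≤ ENNReal.ofReal (ε / 4 * V) := by
          refine ENNReal.ofReal_le_ofReal ?_
          gcongr
  have hsplit : Ioi (0 : ℝ) = Ioc 0 (B * V) ∪ Ioi (B * V) :=
    (Ioc_union_Ioi_eq_Ioi (by positivity)).symm
  rw [hsplit]
  refine (lintegral_union_le _ _ _).trans ((add_le_add hmainp htail).trans ?_)
  rw [← ENNReal.ofReal_add (by positivity) (by positivity)]
  refine ENNReal.ofReal_le_ofReal ?_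
  have c1 : (1 + 1 / η) * C ^ 2 ≤ ε / 4 * V := by
    rw [div_le_iff₀ hε] at hVC
    linarith
  have c2 : (1 + η) * (S + ε / 16) ≤ S + ε / 4 := by
    have : (1 + η) * (S + ε / 16) = S + ε / 16 + η * S + η * (ε / 16) := by ring
    rw [this]
    have : η * (ε / 16) ≤ 1 * (ε / 16) := by gcongr
    linarith
  have c3 : (1 + η) * ((S + ε / 16) * V) ≤ (S + ε / 4) * V := by
    rw [← mul_assoc]
    gcongr
  nlinarith

end Pool.Agent.W120.WM
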