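import Pool.Agent.W120.WM.Fin
import Pool.Agent.W150.WM.Inv
import Pool.Agent.W565.WM.Res
import Pool.Agent.W191.WM.Left
import Pool.Agent.W563.WM.Cnt
import Pool.Agent.W499.WM.MS
import Pool.Agent.W143.WM.Uns
import Pool.Agent.W280.WM.EF
import Pool.Agent.W915.WM.Hor

/-! Project WM: all pieces of the first theorem. -/

set_option autoImplicit false

namespace Pool.Agent.W120.WM

theorem ef : T_EF := Pool.Agent.W280.WM.ef Pool.Agent.W150.WM.inv Pool.Agent.W565.WM.t_res
  Pool.Agent.W915.WM.hor Pool.Agent.W191.WM.lb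

theorem mainT : T_MAIN2 := main2 ef Pool.Agent.W191.WM.lb
  (Pool.Agent.W499.WM.ms Pool.Agent.W563.WM.t_cnt) Pool.Agent.W143.WM.main

end Pool.Agent.W120.WM
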