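import Pool.Agent.W733.WM.Key0
import Pool.Agent.W237.WM.Link
import Pool.Agent.H24R2.JP.Grow
import Pool.Agent.H24R2.JP.Had
import Pool.Agent.H24R2.JP.B1
import Pool.Agent.H437R2.A1

/-! Project WM2: the interpolation inequality. -/

set_option autoImplicit false

namespace Pool.Agent.W120.WM

open Pool.Agent.H24R2.JP (FF XX)

theorem FF_zero : FF 0 ≠ 0 := by
  intro h
  have h1 := Pool.Agent.H24R2.JP.b1.2.1 0
  have h2 : (0 : ℂ) ^ 2 = 0 := by norm_num
  rw [h2, h] at h1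
  have h3 : XX (⟨0, 0⟩ : ℂ) = 0 := h1.symm
  have h4 := (Pool.Agent.W237.WM.link.1 0).1 h3
  have h5 : riemannZeta₁ (⟨1 / 2, 0⟩ : ℂ) = 0 := by
    rw [Pool.Agent.H437R2.z1_of_ne, h4, mul_zero]
    intro h6
    have := congrArg Complex.re h6
    norm_num at this
  exact Pool.Agent.H437R2.z1_zero_im (by norm_num) h5 rfl

theorem key : U_KEY := Pool.Agent.W733.WM.key_core Pool.Agent.H24R2.JP.b1
  (Pool.Agent.H24R2.JP.grow Pool.Agent.H24R2.JP.b1) Pool.Agent.H24R2.JP.had FF_zero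
  Pool.Agent.W237.WM.link

end Pool.Agent.W120.WM
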