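import Pool.Agent.W120.WM.Fin3
import Pool.Agent.W120.WM.All1
import Pool.Agent.W120.WM.Key
import Pool.Agent.W653.WM.Stir
import Pool.Agent.W18.WM.Shift
import Pool.Agent.W752.WM.Dbl
import Pool.Agent.W431.WM.Interp
import Pool.Agent.W305.WM.PT
import Pool.Agent.W93.WM.L2
import Pool.Agent.W897.WM.Inv2
import Pool.Agent.W898.WM.PL

/-! Project WM2: all pieces. -/

set_option autoImplicit false

namespace Pool.Agent.W120.WM

theorem uPT : U_PT := Pool.Agent.W305.WM.PT Pool.Agent.W237.WM.link key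
  Pool.Agent.W653.WM.t_STIR Pool.Agent.W18.WM.Shift.main Pool.Agent.W752.WM.u_DBL
  Pool.Agent.W431.WM.interp

theorem sharpT : T_SHARP := sharp (Pool.Agent.W93.WM.main uPT Pool.Agent.W752.WM.u_DBL)
  (Pool.Agent.W897.WM.inv2 Pool.Agent.W150.WM.inv Pool.Agent.W565.WM.t_res)
  Pool.Agent.W898.WM.pl Pool.Agent.W143.WM.main

end Pool.Agent.W120.WM
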