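import Pool.Agent.W120.WM.Lim

/-! Besicovitch almost periodicity of `M(e^v) e^{-v/2}` under the weak Mertens hypothesis. -/

set_option autoImplicit false

open MeasureTheory Filter Topology Set

namespace Pool.Agent.W120.B2

open Pool.Agent.H295R2

noncomputable section

/-- the finite Bessel identity/inequality -/
theorem bessel_eq (Z : Finset ℂ) (hZ : ∀ ρ ∈ Z, ρ.re = 1 / 2) (w : ℂ → ℂ) (L : ℝ) :
    (∫ s in Ioc 0 L, Complex.normSq (m0 s - ∑ ρ ∈ Z, w ρ * ee ρ s)) = JJ L - 2 * (∑ ρ ∈ Z, (starRingEnd ℂ) (w ρ) * PP ρ L).re +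
      (∑ ρ ∈ Z, ∑ ρ' ∈ Z, w ρ * (starRingEnd ℂ) (w ρ') * GR (ρ - ρ') L).re := by
  set S : ℝ → ℂ := fun s => ∑ ρ ∈ Z, w ρ * ee ρ s with hS
  have hpt : ∀ s, Complex.normSq (m0 s - S s) = Mx (Real.exp s) ^ 2 * Real.exp (-s) -
      2 * (∑ ρ ∈ Z, (starRingEnd ℂ) (w ρ) * mf ρ s).re +
      (∑ ρ ∈ Z, ∑ ρ' ∈ Z, w ρ * (starRingEnd ℂ) (w ρ') * Complex.exp ((ρ - ρ') * s)).re := by
    intro s
    rw [Complex.normSq_sub]
    have e1 : Complex.normSq (m0 s) = Mx (Real.exp s) ^ 2 * Real.exp (-s) := by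
      unfold m0
      rw [Complex.normSq_ofReal]
      have : Real.exp (-s) = Real.exp (-(s / 2)) * Real.exp (-(s / 2)) := by
        rw [← Real.exp_add]; ring_nf
      rw [this]; ring
    have e2 : (m0 s * (starRingEnd ℂ) (S s)) = ∑ ρ ∈ Z, (starRingEnd ℂ) (w ρ) * mf ρ s := by
      rw [hS]
      simp only
      rw [map_sum, Finset.mul_sum]
      refine Finset.sum_congr rfl fun ρ hρ => ?_
      rw [map_mul, ← m0_mul (hZ ρ hρ) s]; ring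
    have e3 : Complex.normSq (S s) =
        (∑ ρ ∈ Z, ∑ ρ' ∈ Z, w ρ * (starRingEnd ℂ) (w ρ') * Complex.exp ((ρ - ρ') * s)).re := by
      have h1 : ((Complex.normSq (S s) : ℝ) : ℂ) = ∑ ρ ∈ Z, ∑ ρ' ∈ Z, w ρ * (starRingEnd ℂ) (w ρ') * Complex.exp ((ρ - ρ') * s) := by
        rw [Complex.normSq_eq_conj_mul_self, mul_comm, hS]
        simp only
        rw [map_sum, Finset.sum_mul_sum]
        refine Finset.sum_congr rfl fun ρ _ => Finset.sum_congr rfl fun ρ' hρ' => ?_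
        rw [map_mul, ← ee_mul (ρ := ρ) (hZ ρ' hρ') s]; ring
      rw [← h1, Complex.ofReal_re]
    rw [e1, e2, e3]; ring
  have h0 : (∫ s in Ioc 0 L, Complex.normSq (m0 s - S s)) = ∫ s in Ioc 0 L, Complex.normSq (m0 s - S s) := rfl
  have i1 : IntegrableOn (fun s => ∑ ρ ∈ Z, (starRingEnd ℂ) (w ρ) * mf ρ s) (Ioc 0 L) :=
    integrable_finsetSum _ fun ρ hρ => (mf_iOn (by rw [hZ ρ hρ]; norm_num) L).const_mul _
  have i2 : IntegrableOn (fun s : ℝ => ∑ ρ ∈ Z, ∑ ρ' ∈ Z, w ρ * (starRingEnd ℂ) (w ρ') * Complex.exp ((ρ - ρ') * s)) (Ioc 0 L) :=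
    cont_iOn (by fun_prop) L
  have i3 := i1.re
  have i4 := i2.re
  conv_rhs at h0 => simp only [hpt]
  have i5 : IntegrableOn (fun s => 2 * (∑ ρ ∈ Z, (starRingEnd ℂ) (w ρ) * mf ρ s).re) (Ioc 0 L) := i3.const_mul 2
  have i6 : IntegrableOn (fun s => Mx (Real.exp s) ^ 2 * Real.exp (-s) - 2 * (∑ ρ ∈ Z, (starRingEnd ℂ) (w ρ) * mf ρ s).re) (Ioc 0 L) :=
    (JJ_integrable L).sub i5
  have i7 : IntegrableOn (fun s : ℝ => (∑ ρ ∈ Z, ∑ ρ' ∈ Z, w ρ * (starRingEnd ℂ) (w ρ') * Complex.exp ((ρ - ρ') * s)).re) (Ioc 0 L) := i4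
  have e4 := integral_add i6 i7
  have e5 := integral_sub (JJ_integrable L) i5
  rw [e4, e5, integral_const_mul] at h0
  have e6 : ∫ s in Ioc 0 L, (∑ ρ ∈ Z, (starRingEnd ℂ) (w ρ) * mf ρ s).re = (∑ ρ ∈ Z, (starRingEnd ℂ) (w ρ) * PP ρ L).re := by
    have := integral_re i1
    simp only [RCLike.re_eq_complex_re] at this
    rw [this, integral_finsetSum]
    · congr 1
      refine Finset.sum_congr rfl fun ρ _ => ?_
      rw [integral_const_mul]; rfl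
    · exact fun ρ hρ => (mf_iOn (by rw [hZ ρ hρ]; norm_num) L).const_mul _
  have e7 : ∫ s in Ioc 0 L, (∑ ρ ∈ Z, ∑ ρ' ∈ Z, w ρ * (starRingEnd ℂ) (w ρ') * Complex.exp ((ρ - ρ') * s)).re =
      (∑ ρ ∈ Z, ∑ ρ' ∈ Z, w ρ * (starRingEnd ℂ) (w ρ') * GR (ρ - ρ') L).re := by
    have := integral_re i2
    simp only [RCLike.re_eq_complex_re] at this
    rw [this, integral_finsetSum]
    · congr 1
      refine Finset.sum_congr rfl fun ρ _ => ?_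
      rw [integral_finsetSum]
      · refine Finset.sum_congr rfl fun ρ' _ => ?_
        rw [integral_const_mul]; rfl
      · exact fun ρ' _ => cont_iOn (by fun_prop) L
    · exact fun ρ _ => cont_iOn (by fun_prop) L
  rw [e6, e7] at h0
  exact h0

/-- finite Bessel inequality with error terms -/
theorem bessel_fin2 (Z : Finset ℂ) (hZ : ∀ ρ ∈ Z, ρ.re = 1 / 2 ∧ riemannZeta ρ = 0 ∧ deriv riemannZeta ρ ≠ 0) :
    ∃ C : ℝ, 0 < C ∧ ∀ L : ℝ, 0 ≤ L → (∫ s in Ioc 0 L, Complex.normSq (m0 s - ∑ ρ ∈ Z, ww ρ * ee ρ s)) ≤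
      JJ L - (∑ ρ ∈ Z, ‖ww ρ‖ ^ 2) * L + C * (1 + Real.sqrt (JJ L)) := by
  classical
  choose! Cf hCf hCb using fun ρ (h : ρ.re = 1 / 2 ∧ riemannZeta ρ = 0 ∧ deriv riemannZeta ρ ≠ 0) =>
    PP_bound' h.1 h.2.1 h.2.2
  set C1 : ℝ := ∑ ρ ∈ Z, ‖ww ρ‖ * |Cf ρ| with hC1
  set C2 : ℝ := ∑ ρ ∈ Z, ∑ ρ' ∈ Z, ‖ww ρ‖ * ‖ww ρ'‖ * (2 / ‖ρ - ρ'‖) with hC2
  have hC1' : 0 ≤ C1 := Finset.sum_nonneg fun _ _ => by positivity
  have hC2' : 0 ≤ C2 := Finset.sum_nonneg fun _ _ => Finset.sum_nonneg fun _ _ => by positivity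
  refine ⟨2 * C1 + C2 + 1, by positivity, fun L hL => ?_⟩
  have h0 := bessel_eq Z (fun ρ hρ => (hZ ρ hρ).1) ww L
  have hsq : ∀ ρ : ℂ, (starRingEnd ℂ) (ww ρ) * (ww ρ * L) = ((‖ww ρ‖ ^ 2 * L : ℝ) : ℂ) := by
    intro ρ
    rw [← mul_assoc, ← Complex.normSq_eq_conj_mul_self, Complex.normSq_eq_norm_sq]
    push_cast; ring
  have h1 : (∑ ρ ∈ Z, ‖ww ρ‖ ^ 2) * L - C1 * (1 + Real.sqrt (JJ L)) ≤ (∑ ρ ∈ Z, (starRingEnd ℂ) (ww ρ) * PP ρ L).re := by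
    have e1 : ∑ ρ ∈ Z, (starRingEnd ℂ) (ww ρ) * PP ρ L =
        (((∑ ρ ∈ Z, ‖ww ρ‖ ^ 2) * L : ℝ) : ℂ) + ∑ ρ ∈ Z, (starRingEnd ℂ) (ww ρ) * (PP ρ L - ww ρ * L) := by
      rw [Finset.sum_mul]
      push_cast
      rw [← Finset.sum_add_distrib]
      refine Finset.sum_congr rfl fun ρ _ => ?_
      have := hsq ρ
      push_cast at this
      rw [← this]; ring
    rw [e1, Complex.add_re, Complex.ofReal_re]
    have h2 : ‖∑ ρ ∈ Z, (starRingEnd ℂ) (ww ρ) * (PP ρ L - ww ρ * L)‖ ≤ C1 * (1 + Real.sqrt (JJ L)) := by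
      rw [hC1, Finset.sum_mul]
      refine norm_sum_le_of_le _ fun ρ hρ => ?_
      rw [norm_mul, RCLike.norm_conj, mul_assoc]
      refine mul_le_mul_of_nonneg_left ?_ (norm_nonneg _)
      refine (hCb ρ (hZ ρ hρ) L hL).trans ?_
      gcongr
      exact le_abs_self _
    have h3 := (abs_le.1 ((Complex.abs_re_le_norm _).trans h2)).1
    linarith
  have h2 : (∑ ρ ∈ Z, ∑ ρ' ∈ Z, ww ρ * (starRingEnd ℂ) (ww ρ') * GR (ρ - ρ') L).re ≤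
      (∑ ρ ∈ Z, ‖ww ρ‖ ^ 2) * L + C2 := by
    rw [Complex.re_sum, Finset.sum_mul, hC2, ← Finset.sum_add_distrib]
    refine Finset.sum_le_sum fun ρ hρ => ?_
    rw [Complex.re_sum]
    have h3 : ∀ ρ' ∈ Z, (ww ρ * (starRingEnd ℂ) (ww ρ') * GR (ρ - ρ') L).re ≤
        (if ρ' = ρ then ‖ww ρ‖ ^ 2 * L else 0) + ‖ww ρ‖ * ‖ww ρ'‖ * (2 / ‖ρ - ρ'‖) := by
      intro ρ' hρ'
      by_cases he : ρ' = ρ
      · subst he
        rw [if_pos rfl, sub_self, GR_zero hL]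
        have e2 : ww ρ' * (starRingEnd ℂ) (ww ρ') * (L : ℂ) = ((‖ww ρ'‖ ^ 2 * L : ℝ) : ℂ) := by
          rw [← hsq ρ']; ring
        rw [e2, Complex.ofReal_re]
        have : 0 ≤ ‖ww ρ'‖ * ‖ww ρ'‖ * (2 / ‖(0:ℂ)‖) := by positivity
        linarith
      · rw [if_neg he, zero_add]
        refine (Complex.re_le_norm _).trans ?_
        rw [norm_mul, norm_mul, RCLike.norm_conj]
        gcongr
        apply GR_bound (sub_ne_zero.2 (Ne.symm he)) _ hL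
        rw [Complex.sub_re, (hZ ρ hρ).1, (hZ ρ' hρ').1, sub_self]
    refine (Finset.sum_le_sum h3).trans ?_
    rw [Finset.sum_add_distrib, Finset.sum_ite_eq' Z ρ, if_pos hρ]
  have h3 := Real.sqrt_nonneg (JJ L)
  nlinarith


theorem freq_ZC {C : ℝ} (h : ∃ᶠ V : ℝ in atTop, JJ V ≤ C * V) : WM.ZC := by
  have h1 : ∃ᶠ V : ℝ in atTop, WM.msq (Real.exp V ^ ((1 : ℝ) - 1)) (Real.exp V) ≤
      C * Real.log (Real.exp V) := by
    refine (h.and_eventually (eventually_ge_atTop (0 : ℝ))).mono fun V hV => ?_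
    obtain ⟨h2, h3⟩ := hV
    rw [sub_self, Real.rpow_zero, Real.log_exp, WM.msq_eq one_pos (Real.one_le_exp h3),
      Real.log_one, Real.log_exp]
    exact h2
  have h2 := Real.tendsto_exp_atTop.frequently
    (p := fun x : ℝ => WM.msq (x ^ ((1 : ℝ) - 1)) x ≤ C * Real.log x) h1
  exact (WM.sparse_ZC one_pos le_rfl h2).1

theorem upper (hZ : WM.ZC) {ε : ℝ} (hε : 0 < ε) : ∃ Z : Finset ℂ, (∀ ρ ∈ Z, ρ ∈ WM.NT) ∧
    ∀ᶠ V : ℝ in atTop, (∫ s in Ioc 0 V, Complex.normSq (m0 s - ∑ ρ ∈ Z, ww ρ * ee ρ s)) ≤ ε * V := by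
  classical
  have hl := WM.limit hZ
  obtain ⟨S, hS⟩ : ∃ S : ℝ, S = ∑' ρ : WM.NT, 1 / ‖(ρ : ℂ) * deriv riemannZeta ρ‖ ^ 2 := ⟨_, rfl⟩
  have hs : HasSum (fun ρ : WM.NT => 1 / ‖(ρ : ℂ) * deriv riemannZeta ρ‖ ^ 2) S := hS ▸ hZ.2.hasSum
  rw [← hS] at hl
  obtain ⟨Z0, hZ0⟩ := (hs.eventually (lt_mem_nhds (show S - ε / 2 < S by linarith))).exists
  refine ⟨Z0.map ⟨Subtype.val, Subtype.val_injective⟩, ?_, ?_⟩
  · intro ρ hρ
    obtain ⟨a, -, rfl⟩ := Finset.mem_map.1 hρ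
    exact a.2
  set Z : Finset ℂ := Z0.map ⟨Subtype.val, Subtype.val_injective⟩ with hZdef
  have hmem : ∀ ρ ∈ Z, ρ.re = 1 / 2 ∧ riemannZeta ρ = 0 ∧ deriv riemannZeta ρ ≠ 0 := by
    intro ρ hρ
    obtain ⟨a, -, rfl⟩ := Finset.mem_map.1 hρ
    exact ⟨(hZ.1 a a.2).1, a.2.1, (hZ.1 a a.2).2⟩
  have hsum : ∑ ρ ∈ Z, ‖ww ρ‖ ^ 2 = ∑ ρ ∈ Z0, 1 / ‖(ρ : ℂ) * deriv riemannZeta ρ‖ ^ 2 := by
    rw [hZdef, Finset.sum_map]
    refine Finset.sum_congr rfl fun ρ _ => ?_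
    simp only [Function.Embedding.coeFn_mk, ww]
    rw [norm_div, norm_one, div_pow, one_pow]
  obtain ⟨C, hC, hb⟩ := bessel_fin2 Z hmem
  have hJ : Tendsto (fun V : ℝ => JJ V / V) atTop (𝓝 S) := hl
  have h1 : Tendsto (fun V : ℝ => JJ V / V - (∑ ρ ∈ Z, ‖ww ρ‖ ^ 2) +
      C * (V⁻¹ + Real.sqrt (JJ V / V) * (Real.sqrt V)⁻¹)) atTop
      (𝓝 (S - (∑ ρ ∈ Z, ‖ww ρ‖ ^ 2) + C * (0 + Real.sqrt S * 0))) := by
    refine (hJ.sub_const _).add (Tendsto.const_mul _ (tendsto_inv_atTop_zero.add ?_))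
    exact ((Real.continuous_sqrt.tendsto S).comp hJ).mul
      (tendsto_inv_atTop_zero.comp Real.tendsto_sqrt_atTop)
  have h2 : S - (∑ ρ ∈ Z, ‖ww ρ‖ ^ 2) + C * (0 + Real.sqrt S * 0) < ε := by
    rw [hsum]; linarith
  filter_upwards [h1.eventually (gt_mem_nhds h2), eventually_gt_atTop (0 : ℝ)] with V h3 h4
  refine (hb V h4.le).trans ?_
  have h5 : Real.sqrt (JJ V) = V * (Real.sqrt (JJ V / V) * (Real.sqrt V)⁻¹) := by
    rw [Real.sqrt_div' _ h4.le]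
    have h6 : Real.sqrt V * Real.sqrt V = V := Real.mul_self_sqrt h4.le
    have h7 : 0 < Real.sqrt V := Real.sqrt_pos.2 h4
    have h9 : Real.sqrt V ^ 2 = V := Real.sq_sqrt h4.le
    field_simp
    rw [h9]
  have h8 : JJ V - (∑ ρ ∈ Z, ‖ww ρ‖ ^ 2) * V + C * (1 + Real.sqrt (JJ V)) =
      (JJ V / V - (∑ ρ ∈ Z, ‖ww ρ‖ ^ 2) +
      C * (V⁻¹ + Real.sqrt (JJ V / V) * (Real.sqrt V)⁻¹)) * V := by
    rw [h5]
    field_simp
  rw [h8]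
  exact mul_le_mul_of_nonneg_right h3.le h4.le

theorem to_freq (Z : Finset ℂ) (hZ : ∀ ρ ∈ Z, ρ.re = 1 / 2) (s : ℝ) :
    ∑ γ ∈ Z.image Complex.im, ww (⟨1 / 2, γ⟩ : ℂ) * Complex.exp (γ * s * Complex.I) =
      ∑ ρ ∈ Z, ww ρ * ee ρ s := by
  classical
  have hinj : Set.InjOn Complex.im (Z : Set ℂ) := by
    intro a ha b hb h
    exact Complex.ext ((hZ a ha).trans (hZ b hb).symm) h
  rw [Finset.sum_image hinj]
  refine Finset.sum_congr rfl fun ρ hρ => ?_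
  have h1 : (⟨1 / 2, ρ.im⟩ : ℂ) = ρ := Complex.ext (hZ ρ hρ).symm rfl
  have h2 : ((ρ.im : ℝ) : ℂ) * (s : ℂ) * Complex.I = (ρ - 1 / 2) * s := by
    apply Complex.ext
    · simp [hZ ρ hρ]
    · simp
  rw [h1, h2]
  rfl

theorem m0_meas : Measurable m0 := by
  unfold m0
  exact Complex.measurable_ofReal.comp
    ((Mx_meas.comp Real.measurable_exp).mul (by fun_prop : Measurable fun s : ℝ => Real.exp (-(s / 2))))

theorem m0_sq (s : ℝ) : ‖m0 s‖ ^ 2 = Mx (Real.exp s) ^ 2 * Real.exp (-s) := by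
  unfold m0
  rw [Complex.norm_real, Real.norm_eq_abs, sq_abs, mul_pow, ← Real.exp_nat_mul]
  congr 2
  push_cast
  ring

theorem lower {Γ : Finset ℝ} {a : ℝ → ℂ} (h : ∀ᶠ V : ℝ in atTop,
    ∫ v in (0 : ℝ)..V, ‖m0 v - ∑ γ ∈ Γ, a γ * Complex.exp (γ * v * Complex.I)‖ ^ 2 ≤ 1 * V) :
    WM.ZC := by
  obtain ⟨A, hA⟩ : ∃ A : ℝ, A = ∑ γ ∈ Γ, ‖a γ‖ := ⟨_, rfl⟩
  have hA0 : 0 ≤ A := hA ▸ Finset.sum_nonneg fun _ _ => norm_nonneg _
  set P : ℝ → ℂ := fun v => ∑ γ ∈ Γ, a γ * Complex.exp (γ * v * Complex.I) with hP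
  have hPb : ∀ v, ‖P v‖ ≤ A := by
    intro v
    rw [hA]
    refine norm_sum_le_of_le _ fun γ _ => ?_
    rw [norm_mul]
    have : ‖Complex.exp (γ * v * Complex.I)‖ = 1 := by
      rw [← Complex.ofReal_mul]
      exact Complex.norm_exp_ofReal_mul_I _
    rw [this, mul_one]
  have hPc : Continuous P := by rw [hP]; fun_prop
  have key : ∀ x y : ℂ, ‖x‖ ^ 2 ≤ 2 * ‖x - y‖ ^ 2 + 2 * ‖y‖ ^ 2 := by
    intro x y
    have h1 : ‖x‖ ≤ ‖x - y‖ + ‖y‖ := by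
      calc ‖x‖ = ‖(x - y) + y‖ := by rw [sub_add_cancel]
        _ ≤ _ := norm_add_le _ _
    have h2 : ‖x‖ ^ 2 ≤ (‖x - y‖ + ‖y‖) ^ 2 := pow_le_pow_left₀ (norm_nonneg _) h1 2
    nlinarith [sq_nonneg (‖x - y‖ - ‖y‖)]
  have key2 : ∀ x y : ℂ, ‖x - y‖ ^ 2 ≤ 2 * ‖x‖ ^ 2 + 2 * ‖y‖ ^ 2 := by
    intro x y
    have h2 : ‖x - y‖ ^ 2 ≤ (‖x‖ + ‖y‖) ^ 2 := pow_le_pow_left₀ (norm_nonneg _) (norm_sub_le _ _) 2
    nlinarith [sq_nonneg (‖x‖ - ‖y‖)]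
  refine freq_ZC (C := 2 + 2 * A ^ 2) (Eventually.frequently ?_)
  filter_upwards [h, eventually_gt_atTop (0 : ℝ)] with V h1 h2
  rw [intervalIntegral.integral_of_le h2.le] at h1
  have i1 : IntegrableOn (fun v => ‖m0 v - P v‖ ^ 2) (Ioc 0 V) := by
    refine integrableOn_of_le (B := 2 * Real.exp V + 2 * A ^ 2)
      (((m0_meas.sub hPc.measurable).norm).pow_const 2) fun s hs => ?_
    rw [abs_of_nonneg (by positivity)]
    refine (key2 _ _).trans ?_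
    have h3 := JJ_integrand_le s
    rw [← m0_sq] at h3
    have h4 : Real.exp s ≤ Real.exp V := Real.exp_le_exp.2 hs.2
    have h5 : ‖P s‖ ^ 2 ≤ A ^ 2 := pow_le_pow_left₀ (norm_nonneg _) (hPb s) 2
    linarith
  have i2 : IntegrableOn (fun _ : ℝ => 2 * A ^ 2) (Ioc 0 V) := integrableOn_const (by simp)
  have h3 : JJ V ≤ ∫ v in Ioc 0 V, (2 * ‖m0 v - P v‖ ^ 2 + 2 * A ^ 2) := by
    refine integral_mono (JJ_integrable V) ((i1.const_mul 2).add i2) fun s => ?_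
    simp only
    rw [← m0_sq]
    have h5 : ‖P s‖ ^ 2 ≤ A ^ 2 := pow_le_pow_left₀ (norm_nonneg _) (hPb s) 2
    have := key (m0 s) (P s)
    linarith
  rw [integral_add (i1.const_mul 2) i2, integral_const_mul] at h3
  have h4 : ∫ _ in Ioc 0 V, 2 * A ^ 2 = V * (2 * A ^ 2) := by
    simp [h2.le]
  rw [h4] at h3
  linarith

theorem main : WM.ZC ↔ ∀ ε : ℝ, 0 < ε → ∃ (Γ : Finset ℝ) (a : ℝ → ℂ), ∀ᶠ V : ℝ in atTop,
    ∫ v in (0 : ℝ)..V, ‖m0 v - ∑ γ ∈ Γ, a γ * Complex.exp (γ * v * Complex.I)‖ ^ 2 ≤ ε * V := by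
  constructor
  · intro hZ ε hε
    obtain ⟨Z, hZ1, hZ2⟩ := upper hZ hε
    refine ⟨Z.image Complex.im, fun γ => ww (⟨1 / 2, γ⟩ : ℂ), ?_⟩
    filter_upwards [hZ2, eventually_gt_atTop (0 : ℝ)] with V h1 h2
    rw [intervalIntegral.integral_of_le h2.le]
    refine le_trans (le_of_eq ?_) h1
    refine integral_congr_ae (Eventually.of_forall fun s => ?_)
    simp only
    rw [to_freq Z (fun ρ hρ => (hZ.1 ρ (hZ1 ρ hρ)).1) s, Complex.normSq_eq_norm_sq]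
  · intro h
    obtain ⟨Γ, a, h1⟩ := h 1 one_pos
    exact lower h1

end

end Pool.Agent.W120.B2
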