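import Mathlib

/-! Project WM (helper120), MP_323ce2_nt: definitions and statements of the pieces. -/

set_option autoImplicit false

open MeasureTheory Filter Topology Set

namespace Pool.Agent.W120.WM

/-- the Mertens function `M(u)` -/
noncomputable def Mx (u : ℝ) : ℝ :=
  ∑ n ∈ Finset.Icc 1 ⌊u⌋₊, ((ArithmeticFunction.moebius n : ℤ) : ℝ)

/-- the Gaussian density of width `h` -/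
noncomputable def gk (h w : ℝ) : ℝ :=
  (h * Real.sqrt (2 * Real.pi))⁻¹ * Real.exp (-(w ^ 2 / (2 * h ^ 2)))

/-- the smoothed Mertens function -/
noncomputable def Sm (h v : ℝ) : ℝ := ∫ w : ℝ, Mx (Real.exp (v - w)) * gk h w

/-- `exp (h² s² / 2 + s v)` -/
noncomputable def EE (h v : ℝ) (s : ℂ) : ℂ := Complex.exp ((h : ℂ) ^ 2 / 2 * s ^ 2 + v * s)

/-- the integrand `exp (h² s² / 2 + s v) / (s ζ(s))` -/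
noncomputable def GG (h v : ℝ) (s : ℂ) : ℂ := EE h v s / (s * riemannZeta s)

/-- the nontrivial zeros -/
def NT : Set ℂ := {s | riemannZeta s = 0 ∧ 0 < s.re ∧ s.re < 1}

/-- Mellin inversion on the line `Re s = 3/2` -/
def T_INV : Prop := ∀ h v : ℝ, 0 < h →
  Integrable (fun t : ℝ => GG h v (⟨3 / 2, t⟩ : ℂ)) ∧
  ((Sm h v : ℝ) : ℂ) = ((2 * Real.pi : ℝ) : ℂ)⁻¹ * ∫ t : ℝ, GG h v (⟨3 / 2, t⟩ : ℂ)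

/-- residue theorem on a rectangle for `g / F`, `F` entire with simple zeros -/
def T_RES : Prop := ∀ (F g : ℂ → ℂ) (Z : Finset ℂ) (a b c d : ℝ), a < b → c < d →
  Differentiable ℂ F → Differentiable ℂ g →
  (∀ s ∈ Icc a b ×ℂ Icc c d, F s = 0 ↔ s ∈ Z) →
  (∀ ρ ∈ Z, ρ ∈ Ioo a b ×ℂ Ioo c d ∧ deriv F ρ ≠ 0) →
  (∫ x in a..b, g (⟨x, c⟩ : ℂ) / F ⟨x, c⟩) - (∫ x in a..b, g (⟨x, d⟩ : ℂ) / F ⟨x, d⟩)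
    + Complex.I * (∫ y in c..d, g (⟨b, y⟩ : ℂ) / F ⟨b, y⟩)
    - Complex.I * (∫ y in c..d, g (⟨a, y⟩ : ℂ) / F ⟨a, y⟩)
    = 2 * Real.pi * Complex.I * ∑ ρ ∈ Z, g ρ / deriv F ρ

/-- good heights -/
def T_HOR : Prop := ∃ C : ℝ, 0 < C ∧ ∀ T : ℝ, 3 ≤ T → ∃ U ∈ Icc T (T + 1),
  ∀ σ ∈ Icc (-1 / 2 : ℝ) (3 / 2), ∀ t : ℝ, |t| = U →
    riemannZeta (⟨σ, t⟩ : ℂ) ≠ 0 ∧ ‖(riemannZeta (⟨σ, t⟩ : ℂ))⁻¹‖ ≤ Real.exp (C * Real.log T ^ 2)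

/-- the line `Re s = -1/2` -/
def T_LEFT : Prop := ∃ B : ℝ, 0 < B ∧ ∀ t : ℝ, riemannZeta (⟨-1 / 2, t⟩ : ℂ) ≠ 0 ∧
  ‖((⟨-1 / 2, t⟩ : ℂ) * riemannZeta (⟨-1 / 2, t⟩ : ℂ))⁻¹‖ ≤ B / (1 / 4 + t ^ 2)

/-- the integral over the line `Re s = -1/2` -/
def T_LB : Prop := ∃ B : ℝ, 0 < B ∧ ∀ h v : ℝ, 0 < h → h ≤ 1 →
  Integrable (fun t : ℝ => GG h v (⟨-1 / 2, t⟩ : ℂ)) ∧
  ‖∫ t : ℝ, GG h v (⟨-1 / 2, t⟩ : ℂ)‖ ≤ B * Real.exp (-v / 2)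

/-- the explicit formula for the smoothed Mertens function -/
def T_EF : Prop := (∀ ρ ∈ NT, deriv riemannZeta ρ ≠ 0) →
  ∃ Z : ℕ → Finset ℂ, (∀ k, ∀ ρ ∈ Z k, ρ ∈ NT) ∧ ∀ h v : ℝ, 0 < h → h ≤ 1 →
    Tendsto (fun k => ∑ ρ ∈ Z k, EE h v ρ / (ρ * deriv riemannZeta ρ)) atTop
      (𝓝 (((Sm h v : ℝ) : ℂ) + 2 -
        ((2 * Real.pi : ℝ) : ℂ)⁻¹ * ∫ t : ℝ, GG h v (⟨-1 / 2, t⟩ : ℂ)))

/-- the number of zeros in a window of length 2 -/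
def T_CNT : Prop := ∃ C : ℝ, 0 < C ∧ ∀ (Z : Finset ℂ), (∀ ρ ∈ Z, ρ ∈ NT) → ∀ t : ℝ,
  ((Z.filter (fun ρ => |ρ.im - t| ≤ 1)).card : ℝ) ≤ C * Real.log (3 + |t|)

/-- mean square of a sum over zeros on a window of length 1 -/
def T_MS : Prop := ∃ K : ℝ, 0 < K ∧ ∀ (Z : Finset ℂ) (b : ℂ → ℂ) (V : ℝ),
  (∀ ρ ∈ Z, ρ ∈ NT ∧ ρ.re = 1 / 2) →
  ∫ v in V..(V + 1), ‖∑ ρ ∈ Z, b ρ * Complex.exp (Complex.I * ρ.im * v)‖ ^ 2 ≤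
    K * ∑ ρ ∈ Z, ‖b ρ‖ ^ 2 * Real.log (3 + |ρ.im|)

/-- unsmoothing -/
def T_UNS : Prop := ∃ C : ℝ, 0 < C ∧ ∀ v h : ℝ, 0 ≤ v → 0 < h → h ≤ Real.exp (-v) →
  |Mx (Real.exp v) - Sm h v| ≤ C

/-- the final bound: if all nontrivial zeros are simple and on the critical line and
`∑ 1 / |ρ ζ'(ρ)|² ≤ S` then `∫_V^{V+1} M(e^v)² e^{-v} dv ≤ K (1 + S) (1 + V)` -/
def T_MAIN : Prop := ∃ K : ℝ, 0 < K ∧ ∀ S : ℝ,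
  (∀ ρ ∈ NT, ρ.re = 1 / 2 ∧ deriv riemannZeta ρ ≠ 0) →
  (∀ Z : Finset ℂ, (∀ ρ ∈ Z, ρ ∈ NT) → ∑ ρ ∈ Z, 1 / ‖ρ * deriv riemannZeta ρ‖ ^ 2 ≤ S) →
  ∀ V : ℝ, 0 ≤ V →
    ∫ v in V..(V + 1), Mx (Real.exp v) ^ 2 * Real.exp (-v) ≤ K * (1 + S) * (1 + V)

end Pool.Agent.W120.WM
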