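import Pool.Agent.W120.WM.Defs
import Pool.Agent.H24R2.JP.Spec

/-! Project WM (helper120), MP_323ce2_nt: statements of the pieces for the sharp bound
`I(x) ≤ C (1 + S log x)`, `S = ∑ 1 / |ρ ζ'(ρ)|²`. -/

set_option autoImplicit false

open MeasureTheory Filter Topology Set

namespace Pool.Agent.W120.WM

open Pool.Agent.H24R2.JP (XX)

/-- `a < b` are consecutive ordinates of zeros on the critical line -/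
def Cons (a b : ℝ) : Prop := a < b ∧ riemannZeta (⟨1 / 2, a⟩ : ℂ) = 0 ∧
  riemannZeta (⟨1 / 2, b⟩ : ℂ) = 0 ∧ ∀ y ∈ Ioo a b, riemannZeta (⟨1 / 2, y⟩ : ℂ) ≠ 0

/-- `1 / |ρ ζ'(ρ)|` at `ρ = 1/2 + i y` -/
noncomputable def Ac (y : ℝ) : ℝ := 1 / ‖(⟨1 / 2, y⟩ : ℂ) * deriv riemannZeta (⟨1 / 2, y⟩ : ℂ)‖

/-- `|s - 1| |Γ_ℝ(s)|` at `s = 1/2 + δ + i t` -/
noncomputable def Wg (δ t : ℝ) : ℝ :=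
  ‖(⟨δ - 1 / 2, t⟩ : ℂ)‖ * ‖Complex.Gammaℝ (⟨1 / 2 + δ, t⟩ : ℂ)‖

/-- the logarithm of `Wg 0 y` up to a bounded error -/
noncomputable def ph (y : ℝ) : ℝ := -(Real.pi / 4) * |y| + 3 / 4 * Real.log (1 + |y|)

def RHp : Prop := ∀ ρ ∈ NT, ρ.re = 1 / 2

/-- the function `XX` and zeta -/
def U_LINK : Prop :=
  (∀ y : ℝ, XX (⟨0, y⟩ : ℂ) = 0 ↔ riemannZeta (⟨1 / 2, y⟩ : ℂ) = 0) ∧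
  (∀ δ t : ℝ, 0 ≤ δ → δ < 1 / 2 → ‖XX (⟨δ, t⟩ : ℂ)‖ =
    4 * ‖(⟨1 / 2 + δ, t⟩ : ℂ)‖ * Wg δ t * ‖riemannZeta (⟨1 / 2 + δ, t⟩ : ℂ)‖) ∧
  (∀ y : ℝ, riemannZeta (⟨1 / 2, y⟩ : ℂ) = 0 → ‖deriv XX (⟨0, y⟩ : ℂ)‖ =
    4 * ‖(⟨1 / 2, y⟩ : ℂ)‖ * Wg 0 y * ‖deriv riemannZeta (⟨1 / 2, y⟩ : ℂ)‖)

/-- the interpolation inequality between two consecutive zeros -/
def U_KEY : Prop := RHp → ∀ a b t δ θ : ℝ, Cons a b → a < t → t < b → 0 ≤ δ →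
  θ * (b - a) = b - t →
  ‖(⟨δ, t - a⟩ : ℂ)‖ * ‖(⟨δ, t - b⟩ : ℂ)‖ *
    (‖deriv XX (⟨0, a⟩ : ℂ)‖ ^ θ * ‖deriv XX (⟨0, b⟩ : ℂ)‖ ^ (1 - θ)) ≤
    (b - a) * ‖XX (⟨δ, t⟩ : ℂ)‖

/-- Stirling's formula up to a bounded factor on the critical line -/
def U_STIR : Prop := ∃ C : ℝ, 0 < C ∧ ∀ y : ℝ, 0 < Wg 0 y ∧ |Real.log (Wg 0 y) - ph y| ≤ C

/-- moving to the right of the critical line -/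
def U_SHIFT : Prop := ∃ C : ℝ, 0 < C ∧ ∀ δ t : ℝ, 0 ≤ δ → δ ≤ 1 / 2 →
  Wg δ t ≤ C * (3 + |t|) ^ δ * Wg 0 t

/-- consecutive zeros exist around every point, and their distance is controlled -/
def U_DBL : Prop := RHp →
  (∀ t : ℝ, riemannZeta (⟨1 / 2, t⟩ : ℂ) ≠ 0 → ∃ a b : ℝ, Cons a b ∧ a < t ∧ t < b) ∧
  ∃ C0 : ℝ, 0 < C0 ∧ ∀ a b : ℝ, Cons a b → (0 ≤ a → b ≤ 2 * a + C0) ∧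
    (b ≤ 0 → -a ≤ -2 * b + C0) ∧ (a ≤ 0 → 0 ≤ b → |a| ≤ C0 ∧ |b| ≤ C0)

/-- almost convexity of `ph` -/
def U_INTERP : Prop := ∀ C0 : ℝ, 0 < C0 → ∃ C : ℝ, 0 < C ∧ ∀ a b t θ : ℝ, a < t → t < b →
  θ * (b - a) = b - t → (0 ≤ a → b ≤ 2 * a + C0) → (b ≤ 0 → -a ≤ -2 * b + C0) →
  (a ≤ 0 → 0 ≤ b → |a| ≤ C0 ∧ |b| ≤ C0) → ph t ≤ θ * ph a + (1 - θ) * ph b + C

/-- the pointwise bound for `1 / (s ζ(s))` between two consecutive zeros -/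
def U_PT : Prop := RHp → ∃ C : ℝ, 0 < C ∧ ∀ a b t δ : ℝ, Cons a b → a < t → t < b →
  0 < δ → δ < 1 / 2 → deriv riemannZeta (⟨1 / 2, a⟩ : ℂ) ≠ 0 →
  deriv riemannZeta (⟨1 / 2, b⟩ : ℂ) ≠ 0 →
  ‖((⟨1 / 2 + δ, t⟩ : ℂ) * riemannZeta (⟨1 / 2 + δ, t⟩ : ℂ))⁻¹‖ ≤
    C * (3 + |t|) ^ δ * ((b - a) / (‖(⟨δ, t - a⟩ : ℂ)‖ * ‖(⟨δ, t - b⟩ : ℂ)‖)) * (Ac a + Ac b)

/-- the mean square on the line `Re s = 1/2 + δ` -/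
def U_L2 : Prop := (∀ ρ ∈ NT, ρ.re = 1 / 2 ∧ deriv riemannZeta ρ ≠ 0) →
  ∃ C : ℝ, 0 < C ∧ ∀ S : ℝ, (∀ Z : Finset ℂ, (∀ ρ ∈ Z, ρ ∈ NT) →
    ∑ ρ ∈ Z, 1 / ‖ρ * deriv riemannZeta ρ‖ ^ 2 ≤ S) →
  ∀ δ h M : ℝ, 0 < δ → δ < 1 / 2 → 0 < h → h ≤ 1 →
  (∀ t : ℝ, (3 + |t|) ^ (2 * δ) * Real.exp (-(h ^ 2 * t ^ 2)) ≤ M) →
  ∫⁻ t : ℝ, ‖GG h 0 (⟨1 / 2 + δ, t⟩ : ℂ)‖ₑ ^ 2 ≤ ENNReal.ofReal (C * M * S / δ)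

/-- Mellin inversion on the line `Re s = 1/2 + δ` -/
def U_INV : Prop := RHp → ∀ δ h v : ℝ, 0 < δ → δ < 1 / 2 → 0 < h → h ≤ 1 →
  Integrable (fun t : ℝ => GG h v (⟨1 / 2 + δ, t⟩ : ℂ)) ∧
  ((Sm h v : ℝ) : ℂ) = ((2 * Real.pi : ℝ) : ℂ)⁻¹ * ∫ t : ℝ, GG h v (⟨1 / 2 + δ, t⟩ : ℂ)

/-- Plancherel -/
def U_PL : Prop := ∀ δ h : ℝ, 0 < δ → 0 < h →
  (∀ v : ℝ, Integrable (fun t : ℝ => GG h v (⟨1 / 2 + δ, t⟩ : ℂ)) ∧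
    ((Sm h v : ℝ) : ℂ) = ((2 * Real.pi : ℝ) : ℂ)⁻¹ * ∫ t : ℝ, GG h v (⟨1 / 2 + δ, t⟩ : ℂ)) →
  ∫⁻ t : ℝ, ‖GG h 0 (⟨1 / 2 + δ, t⟩ : ℂ)‖ₑ ^ 2 ≠ ⊤ →
  ∫⁻ v : ℝ, ENNReal.ofReal (Sm h v ^ 2 * Real.exp (-((1 + 2 * δ) * v))) ≤
    ∫⁻ t : ℝ, ‖GG h 0 (⟨1 / 2 + δ, t⟩ : ℂ)‖ₑ ^ 2

end Pool.Agent.W120.WM
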