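import Pool.Agent.W120.WM.All1

/-!
# The weak Mertens bound makes every dyadic window small

Let `M(u) = ∑_{n ≤ u} μ(n)` and `0 < δ ≤ 1`.  If `∫_{x^{1-δ}}^{x} (M(u)/u)² du ≤ C log x` holds for an unbounded
set of real `x` (in particular if the weak Mertens hypothesis holds), then for EVERY `x`

`∫_x^{2x} (M(u)/u)² du = o(log x)` as `x → ∞`.
-/

set_option autoImplicit false

open Filter Topology

namespace Pool.Agent.Results.MP_323ce2_nt.DyadicFromSparse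

/-- `∫_a^b (M(u)/u)² du` -/
noncomputable def msq (a b : ℝ) : ℝ :=
  ∫ u in a..b, ((∑ n ∈ Finset.Icc 1 ⌊u⌋₊, ((ArithmeticFunction.moebius n : ℤ) : ℝ)) / u) ^ 2

theorem result (δ C : ℝ) (hδ : 0 < δ) (hδ1 : δ ≤ 1)
    (h : ∃ᶠ x : ℝ in atTop, msq (x ^ (1 - δ)) x ≤ C * Real.log x) :
    Tendsto (fun x : ℝ => msq x (2 * x) / Real.log x) atTop (𝓝 0) := by
  obtain ⟨K, hK⟩ := W120.WM.final W120.WM.mainT
  exact (hK δ C hδ hδ1 h).2.1

end Pool.Agent.Results.MP_323ce2_nt.DyadicFromSparse
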