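import Pool.Agent.W120.WM.Main
import Pool.Agent.H295R2.WM8

/-! Project WM: from the bound on unit windows to the final theorem. -/

set_option autoImplicit false

open MeasureTheory Filter Topology Set

namespace Pool.Agent.W120.WM

open Pool.Agent.H295R2 (JW JW_mono JW_nonneg JW_integrable IW_exp)

/-- `∫_a^b (M(u)/u)² du` -/
noncomputable def msq (a b : ℝ) : ℝ :=
  ∫ u in a..b, ((∑ n ∈ Finset.Icc 1 ⌊u⌋₊, ((ArithmeticFunction.moebius n : ℤ) : ℝ)) / u) ^ 2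

theorem msq_eq {a b : ℝ} (ha : 0 < a) (hab : a ≤ b) : msq a b = JW (Real.log a) (Real.log b) := by
  have h := IW_exp (A := Real.log a) (L := Real.log b) (Real.log_le_log ha hab)
  rwa [Real.exp_log ha, Real.exp_log (ha.trans_le hab)] at h

theorem JW_eq (V : ℝ) : JW V (V + 1) =
    ∫ v in V..(V + 1), Mx (Real.exp v) ^ 2 * Real.exp (-v) := by
  rw [intervalIntegral.integral_of_le (by linarith)]
  rfl

theorem JW_add {A B C : ℝ} (hA : 0 ≤ A) (h1 : A ≤ B) (h2 : B ≤ C) :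
    JW A C = JW A B + JW B C := by
  unfold JW
  rw [← Ioc_union_Ioc_eq_Ioc h1 h2]
  exact setIntegral_union (Set.disjoint_left.2 fun x hx hx' => by
    exact absurd hx.2 (not_le.2 hx'.1)) measurableSet_Ioc (JW_integrable hA)
    (JW_integrable (hA.trans h1))

theorem JW_nat {η c : ℝ} (h : ∀ V : ℝ, 0 ≤ V → JW V (V + 1) ≤ η * (1 + V) + c) (hη : 0 ≤ η)
    (N : ℕ) : JW 0 N ≤ N * (η * (1 + N) + c) := by
  induction N with
  | zero => simp [JW]
  | succ n ih =>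
    have hn : (0 : ℝ) ≤ n := n.cast_nonneg
    push_cast
    rw [JW_add le_rfl hn (by linarith : (n : ℝ) ≤ n + 1)]
    have := h n hn
    nlinarith [mul_nonneg hη hn]

theorem tendsto_I (hb : ∀ η : ℝ, 0 < η → ∃ c : ℝ, 0 ≤ c ∧ ∀ V : ℝ, 0 ≤ V →
    JW V (V + 1) ≤ η * (1 + V) + c) :
    Tendsto (fun L : ℝ => JW 0 L / L ^ 2) atTop (𝓝 0) := by
  rw [Metric.tendsto_atTop]
  intro ε hε
  obtain ⟨c, hc, h⟩ := hb (ε / 16) (by positivity)
  refine ⟨max 1 (8 * c / ε + 1), fun L hL => ?_⟩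
  have hL1 : 1 ≤ L := (le_max_left _ _).trans hL
  have hL2 : 8 * c / ε + 1 ≤ L := (le_max_right _ _).trans hL
  have hL0 : 0 < L := by linarith
  rw [Real.dist_eq, sub_zero, abs_of_nonneg (div_nonneg (JW_nonneg _ _) (by positivity)),
    div_lt_iff₀ (by positivity)]
  have h1 : JW 0 L ≤ JW 0 (⌈L⌉₊ : ℝ) := JW_mono le_rfl le_rfl (Nat.le_ceil L)
  have h2 := JW_nat h (by positivity) ⌈L⌉₊
  have h3 : (⌈L⌉₊ : ℝ) ≤ 2 * L := by
    have := Nat.ceil_lt_add_one hL0.le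
    linarith
  have h4 : (0 : ℝ) ≤ ⌈L⌉₊ := Nat.cast_nonneg _
  have h5 : (⌈L⌉₊ : ℝ) * (ε / 16 * (1 + ⌈L⌉₊) + c) ≤ (2 * L) * (ε / 16 * (1 + 2 * L) + c) := by
    gcongr
  have h6 : 8 * c < ε * L := by
    have : 8 * c / ε < L := by linarith
    rwa [div_lt_iff₀ hε, mul_comm L ε] at this
  have h7 : (2 * L) * (ε / 16 * (1 + 2 * L) + c) < ε * L ^ 2 := by
    have : (2 * L) * (ε / 16 * (1 + 2 * L) + c) = ε * L / 8 + ε * L ^ 2 / 4 + 2 * c * L := by ring
    rw [this]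
    have h8 : 2 * c * L < ε * L ^ 2 / 4 := by nlinarith
    have h9 : ε * L / 8 ≤ ε * L ^ 2 / 8 := by
      have : L ≤ L ^ 2 := by nlinarith
      gcongr
    have h10 : 0 < ε * L ^ 2 := by positivity
    linarith
  linarith

theorem tendsto_W (hb : ∀ η : ℝ, 0 < η → ∃ c : ℝ, 0 ≤ c ∧ ∀ V : ℝ, 0 ≤ V →
    JW V (V + 1) ≤ η * (1 + V) + c) :
    Tendsto (fun V : ℝ => JW V (V + 1) / V) atTop (𝓝 0) := by
  rw [Metric.tendsto_atTop]
  intro ε hε
  obtain ⟨c, hc, h⟩ := hb (ε / 4) (by positivity)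
  refine ⟨max 1 (4 * c / ε + 1), fun L hL => ?_⟩
  have hL1 : 1 ≤ L := (le_max_left _ _).trans hL
  have hL2 : 4 * c / ε + 1 ≤ L := (le_max_right _ _).trans hL
  have hL0 : 0 < L := by linarith
  rw [Real.dist_eq, sub_zero, abs_of_nonneg (div_nonneg (JW_nonneg _ _) (by positivity)),
    div_lt_iff₀ (by positivity)]
  have h2 := h L hL0.le
  have h6 : 4 * c < ε * L := by
    have : 4 * c / ε < L := by linarith
    rwa [div_lt_iff₀ hε, mul_comm L ε] at this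
  nlinarith

/-- the final theorem -/
theorem final (hM : T_MAIN2) : ∃ K : ℝ, ∀ δ C : ℝ, 0 < δ → δ ≤ 1 →
    (∃ᶠ x : ℝ in atTop, msq (x ^ (1 - δ)) x ≤ C * Real.log x) →
    (∀ x : ℝ, 2 ≤ x → msq x (2 * x) ≤ K * (1 + C / δ) * Real.log x) ∧
    Tendsto (fun x : ℝ => msq x (2 * x) / Real.log x) atTop (𝓝 0) ∧
    Tendsto (fun x : ℝ => msq 1 x / Real.log x ^ 2) atTop (𝓝 0) := by
  classical
  have hM1 := main hM
  obtain ⟨K, hK, hmain⟩ := hM1
  obtain ⟨K2, hK2, hmain2⟩ := hM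
  refine ⟨3 * K, ?_⟩
  intro δ C hδ hδ1 hfr
  obtain ⟨h1, h2⟩ := Pool.Agent.H295R2.weak_mertens_windows hδ hδ1 (C := C) hfr
  have h1' : ∀ ρ ∈ NT, ρ.re = 1 / 2 ∧ deriv riemannZeta ρ ≠ 0 := fun ρ hρ => h1 ρ hρ
  have h2' : ∀ Z : Finset ℂ, (∀ ρ ∈ Z, ρ ∈ NT) →
      ∑ ρ ∈ Z, 1 / ‖ρ * deriv riemannZeta ρ‖ ^ 2 ≤ C / δ := fun Z hZ => h2 Z hZ
  have hunif : ∀ V : ℝ, 0 ≤ V → JW V (V + 1) ≤ K * (1 + C / δ) * (1 + V) := fun V hV => by
    rw [JW_eq]
    exact hmain (C / δ) h1' h2' V hV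
  have hS0 : 0 ≤ C / δ := by simpa using h2' ∅ (by simp)
  have hsum : Summable (fun ρ : NT => 1 / ‖(ρ : ℂ) * deriv riemannZeta ρ‖ ^ 2) := by
    refine summable_of_sum_le (c := C / δ) (fun ρ => by positivity) fun u => ?_
    have h3 := h2' (u.map (Function.Embedding.subtype _)) (fun ρ hρ => by
      rw [Finset.mem_map] at hρ
      obtain ⟨ρ', -, rfl⟩ := hρ
      exact ρ'.2)
    rwa [Finset.sum_map] at h3
  have hb : ∀ η : ℝ, 0 < η → ∃ c : ℝ, 0 ≤ c ∧ ∀ V : ℝ, 0 ≤ V →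
      JW V (V + 1) ≤ η * (1 + V) + c := by
    intro η hη
    obtain ⟨s, hs⟩ := (summable_iff_vanishing_norm.1 hsum) (η / K2) (by positivity)
    set Z0 : Finset ℂ := s.map (Function.Embedding.subtype _) with hZ0
    have hZ0m : ∀ ρ ∈ Z0, ρ ∈ NT := by
      intro ρ hρ
      rw [hZ0, Finset.mem_map] at hρ
      obtain ⟨ρ', -, rfl⟩ := hρ
      exact ρ'.2
    have hlg : ∀ ρ : ℂ, 0 ≤ Real.log (3 + |ρ.im|) := fun ρ =>
      Real.log_nonneg (by linarith [abs_nonneg ρ.im])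
    refine ⟨K2 * (1 + ∑ ρ ∈ Z0, 1 / ‖ρ * deriv riemannZeta ρ‖ ^ 2 * Real.log (3 + |ρ.im|)),
      mul_nonneg hK2.le (add_nonneg zero_le_one
        (Finset.sum_nonneg fun ρ _ => mul_nonneg (by positivity) (hlg ρ))), fun V hV => ?_⟩
    rw [JW_eq]
    refine (hmain2 Z0 (η / K2) h1' hZ0m ?_ V hV).trans (le_of_eq ?_)
    · intro Z hZ
      set t : Finset NT := Z.subtype (fun ρ => ρ ∈ NT) with ht
      have hdisj : Disjoint t s := by
        rw [Finset.disjoint_left]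
        intro ρ hρ hρs
        have e1 : (ρ : ℂ) ∈ Z := by
          rw [ht, Finset.mem_subtype] at hρ
          exact hρ
        refine (hZ ρ e1).2 ?_
        rw [hZ0, Finset.mem_map]
        exact ⟨ρ, hρs, rfl⟩
      have h5 := hs t hdisj
      have h6 : ∑ ρ ∈ t, 1 / ‖(ρ : ℂ) * deriv riemannZeta ρ‖ ^ 2 =
          ∑ ρ ∈ Z, 1 / ‖ρ * deriv riemannZeta ρ‖ ^ 2 := by
        rw [ht]
        exact Finset.sum_subtype_of_mem (fun ρ : ℂ => 1 / ‖ρ * deriv riemannZeta ρ‖ ^ 2)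
          (fun ρ hρ => (hZ ρ hρ).1)
      rw [← h6]
      exact (le_abs_self _).trans h5.le
    · field_simp
      ring
  have hlog : Tendsto Real.log atTop atTop := Real.tendsto_log_atTop
  have hdy : ∀ x : ℝ, 1 ≤ x → msq x (2 * x) ≤ JW (Real.log x) (Real.log x + 1) := by
    intro x hx
    rw [msq_eq (by linarith) (by linarith)]
    refine JW_mono (Real.log_nonneg hx) le_rfl ?_
    rw [Real.log_mul (by norm_num) (by linarith)]
    have : Real.log 2 ≤ 1 := by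
      have := Real.log_two_lt_d9
      linarith
    linarith
  have hnn : ∀ x : ℝ, 1 ≤ x → 0 ≤ msq x (2 * x) := by
    intro x hx
    rw [msq_eq (by linarith) (by linarith)]
    exact JW_nonneg _ _
  refine ⟨?_, ?_, ?_⟩
  · intro x hx
    have hx1 : 1 ≤ x := by linarith
    refine (hdy x hx1).trans ((hunif _ (Real.log_nonneg hx1)).trans ?_)
    have h3 : Real.log 2 ≤ Real.log x := Real.log_le_log (by norm_num) hx
    have h4 := Real.log_two_gt_d9
    have h5 : 0 ≤ K * (1 + C / δ) := by positivity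
    nlinarith
  · refine tendsto_of_tendsto_of_tendsto_of_le_of_le' tendsto_const_nhds
      ((tendsto_W hb).comp hlog) ?_ ?_
    · filter_upwards [eventually_ge_atTop 1] with x hx
      exact div_nonneg (hnn x hx) (Real.log_nonneg hx)
    · filter_upwards [eventually_ge_atTop 1] with x hx
      simp only [Function.comp]
      exact div_le_div_of_nonneg_right (hdy x hx) (Real.log_nonneg hx)
  · have h3 := (tendsto_I hb).comp hlog
    refine h3.congr' ?_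
    filter_upwards [eventually_ge_atTop 1] with x hx
    simp only [Function.comp]
    rw [msq_eq one_pos hx, Real.log_one]

end Pool.Agent.W120.WM
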