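import Pool.Agent.W120.WM.Defs2
import Pool.Agent.W120.WM.Fin

/-! Project WM2: assembly of the sharp bound. -/

set_option autoImplicit false

open MeasureTheory Filter Topology Set

namespace Pool.Agent.W120.WM

open Pool.Agent.H295R2 (JW JW_mono JW_nonneg JW_integrable IW_exp)

/-- the sharp bound -/
def T_SHARP : Prop := (∀ ρ ∈ NT, ρ.re = 1 / 2 ∧ deriv riemannZeta ρ ≠ 0) →
  ∃ K : ℝ, 0 < K ∧ ∀ S : ℝ, (∀ Z : Finset ℂ, (∀ ρ ∈ Z, ρ ∈ NT) →
    ∑ ρ ∈ Z, 1 / ‖ρ * deriv riemannZeta ρ‖ ^ 2 ≤ S) →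
  ∀ V : ℝ, 1 ≤ V → JW 0 V ≤ K * (1 + S * V)

theorem wt2 {V : ℝ} (hV : 1 ≤ V) (t : ℝ) :
    (3 + |t|) ^ (2 * (1 / (4 * V))) * Real.exp (-(Real.exp (-V) ^ 2 * t ^ 2)) ≤ 10 := by
  have hV0 : 0 < V := by linarith
  obtain ⟨x, hx⟩ : ∃ x : ℝ, x = Real.exp (-V) * |t| := ⟨_, rfl⟩
  have hx0 : 0 ≤ x := by rw [hx]; positivity
  have e1 : 3 + |t| ≤ Real.exp (V + 2) * (1 + x) := by
    have h1 : |t| = Real.exp V * x := by
      rw [hx, ← mul_assoc, ← Real.exp_add]; simp
    have h2 : Real.exp (V + 2) = Real.exp V * Real.exp 2 := Real.exp_add _ _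
    have h3 : (1 : ℝ) ≤ Real.exp V := Real.one_le_exp hV0.le
    have h4 : (3 : ℝ) ≤ Real.exp 2 := by
      have := Real.add_one_le_exp (2 : ℝ)
      linarith
    rw [h1, h2]
    have h5 : 3 ≤ Real.exp V * Real.exp 2 := by nlinarith
    have h6 : Real.exp V * x ≤ Real.exp V * Real.exp 2 * x := by
      have : Real.exp V * 1 ≤ Real.exp V * Real.exp 2 :=
        mul_le_mul_of_nonneg_left (by linarith) (by positivity)
      nlinarith
    nlinarith
  have hex : 0 ≤ 2 * (1 / (4 * V)) := by positivity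
  have hex1 : 2 * (1 / (4 * V)) ≤ 1 := by
    rw [mul_one_div, div_le_one (by positivity)]
    linarith
  have e2 : (3 + |t|) ^ (2 * (1 / (4 * V))) ≤ 5 * (1 + x) := by
    calc (3 + |t|) ^ (2 * (1 / (4 * V))) ≤ (Real.exp (V + 2) * (1 + x)) ^ (2 * (1 / (4 * V))) :=
          Real.rpow_le_rpow (by positivity) e1 hex
      _ = Real.exp (V + 2) ^ (2 * (1 / (4 * V))) * (1 + x) ^ (2 * (1 / (4 * V))) :=
          Real.mul_rpow (Real.exp_pos _).le (by positivity)
      _ ≤ 5 * (1 + x) := by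
          have h1 : Real.exp (V + 2) ^ (2 * (1 / (4 * V))) ≤ 5 := by
            rw [← Real.exp_mul]
            have h2 : (V + 2) * (2 * (1 / (4 * V))) ≤ 3 / 2 := by
              rw [mul_one_div, mul_div_assoc', div_le_div_iff₀ (by positivity) (by norm_num)]
              nlinarith
            have h3 : Real.exp ((V + 2) * (2 * (1 / (4 * V)))) ≤ Real.exp (3 / 2) :=
              Real.exp_le_exp.2 h2
            have h4 : Real.exp (3 / 2 : ℝ) ^ 2 ≤ 25 := by
              rw [← Real.exp_nat_mul]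
              have h5 : ((2 : ℕ) : ℝ) * (3 / 2) = 1 + 1 + 1 := by norm_num
              rw [h5, Real.exp_add, Real.exp_add]
              have h6 := Real.exp_one_lt_d9
              have h7 := Real.exp_pos 1
              have h8 : Real.exp 1 * Real.exp 1 ≤ 2.72 * 2.72 := by nlinarith
              nlinarith
            have h9 : Real.exp (3 / 2 : ℝ) ≤ 5 := by
              have := Real.exp_pos (3 / 2 : ℝ)
              nlinarith
            linarith
          have h2 : (1 + x) ^ (2 * (1 / (4 * V))) ≤ 1 + x := by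
            calc (1 + x) ^ (2 * (1 / (4 * V))) ≤ (1 + x) ^ (1 : ℝ) :=
                  Real.rpow_le_rpow_of_exponent_le (by linarith) hex1
              _ = 1 + x := Real.rpow_one _
          gcongr
  have e3 : Real.exp (-V) ^ 2 * t ^ 2 = x ^ 2 := by
    rw [hx, mul_pow, sq_abs]
  rw [e3]
  have e4 : (1 + x) * Real.exp (-x ^ 2) ≤ 2 := by
    rw [Real.exp_neg, mul_inv_le_iff₀ (Real.exp_pos _)]
    have h1 := Real.add_one_le_exp (x ^ 2)
    nlinarith [sq_nonneg (x - 1)]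
  calc (3 + |t|) ^ (2 * (1 / (4 * V))) * Real.exp (-x ^ 2)
      ≤ 5 * (1 + x) * Real.exp (-x ^ 2) := by gcongr
    _ = 5 * ((1 + x) * Real.exp (-x ^ 2)) := by ring
    _ ≤ 5 * 2 := by gcongr
    _ = 10 := by norm_num

theorem sharp (hL2 : U_L2) (hINV : U_INV) (hPL : U_PL) (hUNS : T_UNS) : T_SHARP := by
  intro h1
  obtain ⟨C, hC, hL2⟩ := hL2 h1
  obtain ⟨Cu, hCu, hUNS⟩ := hUNS
  refine ⟨160 * C + 2 * Cu ^ 2, by positivity, ?_⟩
  intro S hS V hV
  have hS0 : 0 ≤ S := by simpa using hS ∅ (by simp)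
  have hV0 : 0 < V := by linarith
  have hRH : RHp := fun ρ hρ => (h1 ρ hρ).1
  obtain ⟨δ, hδ⟩ : ∃ δ : ℝ, δ = 1 / (4 * V) := ⟨_, rfl⟩
  obtain ⟨h, hh⟩ : ∃ h : ℝ, h = Real.exp (-V) := ⟨_, rfl⟩
  have hδ0 : 0 < δ := by rw [hδ]; positivity
  have hδ1 : δ < 1 / 2 := by
    rw [hδ, div_lt_div_iff₀ (by positivity) (by norm_num)]
    linarith
  have hpos : 0 < h := hh ▸ Real.exp_pos _
  have hle1 : h ≤ 1 := hh ▸ Real.exp_le_one_iff.2 (by linarith)
  have b1 := hL2 S hS δ h 10 hδ0 hδ1 hpos hle1 (fun t => by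
    rw [hδ, hh]
    exact wt2 hV t)
  have b2 := hPL δ h hδ0 hpos (fun v => hINV hRH δ h v hδ0 hδ1 hpos hle1)
    (ne_top_of_le_ne_top ENNReal.ofReal_ne_top b1)
  have b3 : ∫⁻ v : ℝ, ENNReal.ofReal (Sm h v ^ 2 * Real.exp (-((1 + 2 * δ) * v))) ≤
      ENNReal.ofReal (40 * C * (S * V)) := by
    refine (b2.trans b1).trans (ENNReal.ofReal_le_ofReal (le_of_eq ?_))
    rw [hδ]
    field_simp
    ring
  have hpt : ∀ v ∈ Ioc 0 V, Mx (Real.exp v) ^ 2 * Real.exp (-v) ≤
      4 * (Sm h v ^ 2 * Real.exp (-((1 + 2 * δ) * v))) + 2 * Cu ^ 2 * Real.exp (-v) := by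
    intro v hv
    have a1 : |Mx (Real.exp v) - Sm h v| ≤ Cu :=
      hUNS v h hv.1.le hpos (hh ▸ Real.exp_le_exp.2 (by linarith [hv.2]))
    have a2 : Mx (Real.exp v) ^ 2 ≤ 2 * Sm h v ^ 2 + 2 * Cu ^ 2 := by
      have h3 : (Mx (Real.exp v) - Sm h v) ^ 2 ≤ Cu ^ 2 := by
        rw [← sq_abs]
        gcongr
      nlinarith [sq_nonneg (Mx (Real.exp v) - 2 * Sm h v)]
    have a3 : Real.exp (-v) ≤ 2 * Real.exp (-((1 + 2 * δ) * v)) := by
      have e1 : Real.exp (-v) = Real.exp (2 * δ * v) * Real.exp (-((1 + 2 * δ) * v)) := by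
        rw [← Real.exp_add]
        congr 1
        ring
      have e2 : Real.exp (2 * δ * v) ≤ 2 := by
        have h3 : 2 * δ * v ≤ 1 / 2 := by
          rw [hδ]
          have : v / V ≤ 1 := (div_le_one hV0).2 hv.2
          have e : 2 * (1 / (4 * V)) * v = v / V / 2 := by
            field_simp
            norm_num
          rw [e]
          linarith
        have h4 : Real.exp (2 * δ * v) ≤ Real.exp (1 / 2) := Real.exp_le_exp.2 h3
        have h5 : Real.exp (1 / 2 : ℝ) ^ 2 ≤ 4 := by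
          rw [← Real.exp_nat_mul]
          have h6 := Real.exp_one_lt_d9
          norm_num
          linarith
        have h7 : Real.exp (1 / 2 : ℝ) ≤ 2 := by
          have := Real.exp_pos (1 / 2 : ℝ)
          nlinarith
        linarith
      rw [e1]
      gcongr
    have a4 : 0 < Real.exp (-v) := Real.exp_pos _
    calc Mx (Real.exp v) ^ 2 * Real.exp (-v)
        ≤ (2 * Sm h v ^ 2 + 2 * Cu ^ 2) * Real.exp (-v) := by gcongr
      _ = 2 * Sm h v ^ 2 * Real.exp (-v) + 2 * Cu ^ 2 * Real.exp (-v) := by ring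
      _ ≤ 2 * Sm h v ^ 2 * (2 * Real.exp (-((1 + 2 * δ) * v))) + 2 * Cu ^ 2 * Real.exp (-v) := by
          gcongr
      _ = _ := by ring
  have hMm : Measurable Mx := by
    have : Mx = (fun n : ℕ => ∑ k ∈ Finset.Icc 1 n, ((ArithmeticFunction.moebius k : ℤ) : ℝ)) ∘
        (fun u : ℝ => ⌊u⌋₊) := rfl
    rw [this]
    exact (measurable_from_nat).comp Nat.measurable_floor
  have hfm : Measurable (fun v : ℝ => Mx (Real.exp v) ^ 2 * Real.exp (-v)) :=
    ((hMm.comp Real.measurable_exp).pow_const 2).mul (by fun_prop)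
  have hexp : ∫⁻ v in Ioc 0 V, ENNReal.ofReal (2 * Cu ^ 2 * Real.exp (-v)) ≤
      ENNReal.ofReal (2 * Cu ^ 2) := by
    calc ∫⁻ v in Ioc 0 V, ENNReal.ofReal (2 * Cu ^ 2 * Real.exp (-v))
        ≤ ∫⁻ v in Ioi 0, ENNReal.ofReal (2 * Cu ^ 2 * Real.exp (-v)) :=
          lintegral_mono_set Ioc_subset_Ioi_self
      _ = ENNReal.ofReal (∫ v in Ioi (0 : ℝ), 2 * Cu ^ 2 * Real.exp (-v)) := by
          rw [ofReal_integral_eq_lintegral_ofReal]
          · exact ((exp_neg_integrableOn_Ioi 0 one_pos).congr_fun (fun v _ => by simp)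
              measurableSet_Ioi).const_mul _
          · exact Eventually.of_forall fun v => by positivity
      _ = ENNReal.ofReal (2 * Cu ^ 2) := by
          rw [integral_const_mul, integral_exp_neg_Ioi_zero, mul_one]
  have hlin : ∫⁻ v in Ioc 0 V, ENNReal.ofReal (Mx (Real.exp v) ^ 2 * Real.exp (-v)) ≤
      ENNReal.ofReal (4 * (40 * C * (S * V)) + 2 * Cu ^ 2) := by
    calc ∫⁻ v in Ioc 0 V, ENNReal.ofReal (Mx (Real.exp v) ^ 2 * Real.exp (-v))
        ≤ ∫⁻ v in Ioc 0 V, (4 * ENNReal.ofReal (Sm h v ^ 2 * Real.exp (-((1 + 2 * δ) * v))) +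
            ENNReal.ofReal (2 * Cu ^ 2 * Real.exp (-v))) := by
          refine setLIntegral_mono' measurableSet_Ioc fun v hv => ?_
          refine (ENNReal.ofReal_le_ofReal (hpt v hv)).trans ?_
          rw [ENNReal.ofReal_add (by positivity) (by positivity),
            ENNReal.ofReal_mul (by norm_num : (0 : ℝ) ≤ 4)]
          simp
      _ = 4 * (∫⁻ v in Ioc 0 V, ENNReal.ofReal (Sm h v ^ 2 * Real.exp (-((1 + 2 * δ) * v)))) +
            ∫⁻ v in Ioc 0 V, ENNReal.ofReal (2 * Cu ^ 2 * Real.exp (-v)) := by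
          rw [lintegral_add_right _ (by fun_prop), lintegral_const_mul' _ _ (by simp)]
      _ ≤ 4 * ENNReal.ofReal (40 * C * (S * V)) + ENNReal.ofReal (2 * Cu ^ 2) := by
          gcongr
          exact (setLIntegral_le_lintegral _ _).trans b3
      _ = _ := by
          rw [ENNReal.ofReal_add (by positivity) (by positivity),
            ENNReal.ofReal_mul (by norm_num : (0 : ℝ) ≤ 4)]
          simp
  have hJ : JW 0 V = ∫ v in Ioc 0 V, Mx (Real.exp v) ^ 2 * Real.exp (-v) := rfl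
  rw [hJ, integral_eq_lintegral_of_nonneg_ae (Eventually.of_forall fun v => by positivity)
      hfm.aestronglyMeasurable]
  refine (ENNReal.toReal_le_of_le_ofReal (by positivity) hlin).trans ?_
  have c1 : 0 ≤ Cu ^ 2 := sq_nonneg _
  have c2 : 0 ≤ S * V := by positivity
  nlinarith [mul_nonneg c1 c2, hC]

end Pool.Agent.W120.WM
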