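import Pool.Agent.W120.WM.Fin2

/-! Project WM2: the final theorem from the sharp bound. -/

set_option autoImplicit false

open MeasureTheory Filter Topology Set

namespace Pool.Agent.W120.WM

open Pool.Agent.H295R2 (JW JW_mono JW_nonneg JW_integrable IW_exp)

/-- the condition on the zeros -/
def ZC : Prop := (∀ ρ ∈ NT, ρ.re = 1 / 2 ∧ deriv riemannZeta ρ ≠ 0) ∧
  Summable (fun ρ : NT => 1 / ‖(ρ : ℂ) * deriv riemannZeta ρ‖ ^ 2)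

theorem sparse_ZC {δ C : ℝ} (hδ : 0 < δ) (hδ1 : δ ≤ 1)
    (h : ∃ᶠ x : ℝ in atTop, msq (x ^ (1 - δ)) x ≤ C * Real.log x) :
    ZC ∧ ∑' ρ : NT, 1 / ‖(ρ : ℂ) * deriv riemannZeta ρ‖ ^ 2 ≤ C / δ := by
  obtain ⟨h1, h2⟩ := Pool.Agent.H295R2.weak_mertens_windows hδ hδ1 (C := C) h
  have h3 : ∀ u : Finset NT, ∑ ρ ∈ u, 1 / ‖(ρ : ℂ) * deriv riemannZeta ρ‖ ^ 2 ≤ C / δ := by
    intro u
    have h4 := h2 (u.map (Function.Embedding.subtype _)) (fun ρ hρ => by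
      rw [Finset.mem_map] at hρ
      obtain ⟨ρ', -, rfl⟩ := hρ
      exact ρ'.2)
    rwa [Finset.sum_map] at h4
  exact ⟨⟨fun ρ hρ => h1 ρ hρ, summable_of_sum_le (fun ρ => by positivity) h3⟩,
    Real.tsum_le_of_sum_le (fun ρ => by positivity) h3⟩

theorem ZC_sum (h : ZC) (Z : Finset ℂ) (hZ : ∀ ρ ∈ Z, ρ ∈ NT) :
    ∑ ρ ∈ Z, 1 / ‖ρ * deriv riemannZeta ρ‖ ^ 2 ≤
      ∑' ρ : NT, 1 / ‖(ρ : ℂ) * deriv riemannZeta ρ‖ ^ 2 := by
  classical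
  have h6 : ∑ ρ ∈ Z.subtype (fun ρ => ρ ∈ NT), 1 / ‖(ρ : ℂ) * deriv riemannZeta ρ‖ ^ 2 =
      ∑ ρ ∈ Z, 1 / ‖ρ * deriv riemannZeta ρ‖ ^ 2 :=
    Finset.sum_subtype_of_mem (fun ρ : ℂ => 1 / ‖ρ * deriv riemannZeta ρ‖ ^ 2) hZ
  rw [← h6]
  exact h.2.sum_le_tsum _ (fun ρ _ => by positivity)

/-- the final theorem -/
theorem final2 (hs : T_SHARP) : ∃ K : ℝ, 0 < K ∧
    (ZC → ∀ x : ℝ, 2 ≤ x → msq 1 x ≤
      K * (1 + (∑' ρ : NT, 1 / ‖(ρ : ℂ) * deriv riemannZeta ρ‖ ^ 2) * Real.log x)) ∧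
    [∃ C : ℝ, ∀ x : ℝ, 2 ≤ x → msq 1 x ≤ C * Real.log x,
      ∃ δ C : ℝ, 0 < δ ∧ δ ≤ 1 ∧ ∃ᶠ x : ℝ in atTop, msq (x ^ (1 - δ)) x ≤ C * Real.log x,
      ZC].TFAE := by
  obtain ⟨K, hK, hmain⟩ : ∃ K : ℝ, 0 < K ∧ (ZC → ∀ V : ℝ, 1 ≤ V →
      JW 0 V ≤ K * (1 + (∑' ρ : NT, 1 / ‖(ρ : ℂ) * deriv riemannZeta ρ‖ ^ 2) * V)) := by
    by_cases hz : ∀ ρ ∈ NT, ρ.re = 1 / 2 ∧ deriv riemannZeta ρ ≠ 0
    · obtain ⟨K, hK, h⟩ := hs hz
      exact ⟨K, hK, fun hZ => h _ (ZC_sum hZ)⟩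
    · exact ⟨1, one_pos, fun hZ => absurd hZ.1 hz⟩
  obtain ⟨S, hSdef⟩ : ∃ S : ℝ, S = ∑' ρ : NT, 1 / ‖(ρ : ℂ) * deriv riemannZeta ρ‖ ^ 2 := ⟨_, rfl⟩
  have hS0 : 0 ≤ S := by
    rw [hSdef]
    exact tsum_nonneg fun ρ => by positivity
  rw [← hSdef] at hmain ⊢
  have hb : ZC → ∀ x : ℝ, 2 ≤ x → msq 1 x ≤ 2 * K * (1 + S * Real.log x) := by
    intro hZ x hx
    have hx1 : (1 : ℝ) ≤ x := by linarith
    have hl2 : Real.log 2 ≤ Real.log x := Real.log_le_log (by norm_num) hx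
    have hl := Real.log_two_gt_d9
    rw [msq_eq one_pos hx1, Real.log_one]
    rcases le_total 1 (Real.log x) with h1 | h1
    · refine (hmain hZ _ h1).trans ?_
      have : 0 ≤ K * (1 + S * Real.log x) := by positivity
      linarith
    · refine (JW_mono le_rfl le_rfl h1).trans ((hmain hZ 1 le_rfl).trans ?_)
      have : K * (1 + S * 1) ≤ K * (2 * (1 + S * Real.log x)) := by
        refine mul_le_mul_of_nonneg_left ?_ hK.le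
        nlinarith
      linarith
  refine ⟨2 * K, by positivity, hb, ?_⟩
  tfae_have 1 → 2 := by
    rintro ⟨C, hC⟩
    refine ⟨1, C, one_pos, le_rfl, ?_⟩
    refine Eventually.frequently ?_
    filter_upwards [eventually_ge_atTop 2] with x hx
    have := hC x hx
    simpa using this
  tfae_have 2 → 3 := by
    rintro ⟨δ, C, hδ, hδ1, h⟩
    exact (sparse_ZC hδ hδ1 h).1
  tfae_have 3 → 1 := by
    intro hZ
    refine ⟨2 * K * (2 + S), fun x hx => (hb hZ x hx).trans ?_⟩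
    have hl2 : Real.log 2 ≤ Real.log x := Real.log_le_log (by norm_num) hx
    have hl := Real.log_two_gt_d9
    have h3 : 1 + S * Real.log x ≤ (2 + S) * Real.log x := by nlinarith
    calc 2 * K * (1 + S * Real.log x) ≤ 2 * K * ((2 + S) * Real.log x) := by gcongr
      _ = _ := by ring
  tfae_finish

end Pool.Agent.W120.WM
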