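import Pool.Agent.W120.WM.Defs2

/-! Project WM3 (helper120), MP_323ce2_nt: the limit on one gap. -/

set_option autoImplicit false

open MeasureTheory Filter Topology Set

namespace Pool.Agent.W98.WM

open Pool.Agent.W120.WM

lemma int_arctan (a b c δ : ℝ) (hδ : 0 < δ) :
    ∫ t in a..b, 1 / (δ ^ 2 + (t - c) ^ 2) =
      (1 / δ) * (Real.arctan ((b - c) / δ) - Real.arctan ((a - c) / δ)) := by
  have hd : ∀ t : ℝ, HasDerivAt (fun t => (1 / δ) * Real.arctan ((t - c) / δ))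
      (1 / (δ ^ 2 + (t - c) ^ 2)) t := by
    intro t
    have h1 : HasDerivAt (fun t : ℝ => (t - c) / δ) (1 / δ) t :=
      ((hasDerivAt_id t).sub_const c).div_const δ
    have h2 := (h1.arctan).const_mul (1 / δ)
    refine h2.congr_deriv ?_
    have h3 : δ ^ 2 + (t - c) ^ 2 ≠ 0 := by positivity
    have h4 : 1 + ((t - c) / δ) ^ 2 ≠ 0 := by positivity
    field_simp
  have hc : Continuous (fun t : ℝ => 1 / (δ ^ 2 + (t - c) ^ 2)) := by
    refine continuous_const.div (by fun_prop) fun t => ?_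
    positivity
  rw [intervalIntegral.integral_eq_sub_of_hasDerivAt (fun t _ => hd t)
    (hc.intervalIntegrable _ _)]
  ring

lemma near (y : ℝ) (hz : riemannZeta (⟨1 / 2, y⟩ : ℂ) = 0)
    (hd : deriv riemannZeta (⟨1 / 2, y⟩ : ℂ) ≠ 0) (e : ℝ) (he : 0 < e) :
    ∃ r : ℝ, 0 < r ∧ ∀ s : ℂ, s ≠ ⟨1 / 2, y⟩ → dist s ⟨1 / 2, y⟩ < r →
      (‖s * riemannZeta s‖⁻¹) ^ 2 ≤ (Ac y ^ 2 + e) * (1 / ‖s - ⟨1 / 2, y⟩‖ ^ 2) := by
  set ρ : ℂ := ⟨1 / 2, y⟩ with hρ
  have hρ1 : ρ ≠ 1 := by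
    intro h
    have := congrArg Complex.re h
    rw [hρ] at this
    norm_num at this
  have hρ0 : ρ ≠ 0 := by
    intro h
    have := congrArg Complex.re h
    rw [hρ] at this
    norm_num at this
  have hF : HasDerivAt (fun s => s * riemannZeta s) (ρ * deriv riemannZeta ρ) ρ := by
    have h1 := (hasDerivAt_id ρ).mul (differentiableAt_riemannZeta hρ1).hasDerivAt
    have h2 : (1 : ℂ) * riemannZeta ρ + id ρ * deriv riemannZeta ρ = ρ * deriv riemannZeta ρ := by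
      rw [hz]; simp
    rw [h2] at h1
    exact h1
  have ht := hasDerivAt_iff_tendsto_slope.1 hF
  have hne : ‖ρ * deriv riemannZeta ρ‖ ≠ 0 := norm_ne_zero_iff.2 (mul_ne_zero hρ0 hd)
  have h2 : Tendsto (fun s => ((‖slope (fun s => s * riemannZeta s) ρ s‖)⁻¹) ^ 2) (𝓝[≠] ρ)
      (𝓝 ((‖ρ * deriv riemannZeta ρ‖⁻¹) ^ 2)) := (ht.norm.inv₀ hne).pow 2
  have h3 : (‖ρ * deriv riemannZeta ρ‖⁻¹) ^ 2 < Ac y ^ 2 + e := by
    unfold Ac
    rw [one_div]
    linarith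
  have h4 := h2.eventually_lt_const h3
  rw [eventually_nhdsWithin_iff, Metric.eventually_nhds_iff] at h4
  obtain ⟨r, hr, h5⟩ := h4
  refine ⟨r, hr, fun s hs hds => ?_⟩
  have h6 := h5 hds hs
  rw [slope_def_field, hz, mul_zero, sub_zero, norm_div, inv_div, div_pow] at h6
  have h7 : 0 < ‖s - ρ‖ ^ 2 := by
    have : 0 < ‖s - ρ‖ := norm_pos_iff.2 (sub_ne_zero.2 hs)
    positivity
  rw [mul_one_div, le_div_iff₀ h7]
  have h8 : (‖s * riemannZeta s‖⁻¹) ^ 2 * ‖s - ρ‖ ^ 2 =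
      ‖s - ρ‖ ^ 2 / ‖s * riemannZeta s‖ ^ 2 := by
    rw [inv_pow, mul_comm, div_eq_mul_inv]
  rw [h8]
  exact h6.le

/-- the pointwise bound -/
lemma ptw (a b : ℝ) (h : Cons a b) (ha : deriv riemannZeta (⟨1 / 2, a⟩ : ℂ) ≠ 0)
    (hb : deriv riemannZeta (⟨1 / 2, b⟩ : ℂ) ≠ 0) (e : ℝ) (he : 0 < e) :
    ∃ δ1 K : ℝ, 0 < δ1 ∧ 0 ≤ K ∧ ∀ δ t : ℝ, 0 < δ → δ < δ1 → t ∈ Ioo a b →
      (‖(⟨1 / 2 + δ, t⟩ : ℂ) * riemannZeta (⟨1 / 2 + δ, t⟩ : ℂ)‖⁻¹) ^ 2 ≤
        (Ac a ^ 2 + e) * (1 / (δ ^ 2 + (t - a) ^ 2)) +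
        (Ac b ^ 2 + e) * (1 / (δ ^ 2 + (t - b) ^ 2)) + K := by
  obtain ⟨hab, hza, hzb, hnz⟩ := h
  obtain ⟨ra, hra, hna⟩ := near a hza ha e he
  obtain ⟨rb, hrb, hnb⟩ := near b hzb hb e he
  set η : ℝ := min ra rb / 2 with hη
  have hηpos : 0 < η := by rw [hη]; have := lt_min hra hrb; linarith
  have hηa : 2 * η ≤ ra := by rw [hη]; have := min_le_left ra rb; linarith
  have hηb : 2 * η ≤ rb := by rw [hη]; have := min_le_right ra rb; linarith
  -- the compact part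
  set U : Set ℂ := {s | s ≠ 1} ∩ (fun s => s * riemannZeta s) ⁻¹' {0}ᶜ with hU
  have hcont : ContinuousOn (fun s : ℂ => s * riemannZeta s) {s | s ≠ 1} := by
    intro s hs
    exact (continuousAt_id.mul (differentiableAt_riemannZeta hs).continuousAt).continuousWithinAt
  have hUo : IsOpen U := hcont.isOpen_inter_preimage isOpen_ne isOpen_compl_singleton
  set K0 : Set ℂ := (fun y : ℝ => (⟨1 / 2, y⟩ : ℂ)) '' Icc (a + η) (b - η) with hK0
  have hcy : Continuous (fun y : ℝ => (⟨1 / 2, y⟩ : ℂ)) := by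
    have : (fun y : ℝ => (⟨1 / 2, y⟩ : ℂ)) = fun y : ℝ => (1 / 2 : ℂ) + (y : ℂ) * Complex.I := by
      funext y
      apply Complex.ext <;> simp
    rw [this]
    fun_prop
  have hK0c : IsCompact K0 := isCompact_Icc.image hcy
  have hK0U : K0 ⊆ U := by
    rintro _ ⟨y, hy, rfl⟩
    refine ⟨?_, ?_⟩
    · intro hh
      have := congrArg Complex.re hh
      norm_num at this
    · have h1 : riemannZeta (⟨1 / 2, y⟩ : ℂ) ≠ 0 :=
        hnz y ⟨by linarith [hy.1], by linarith [hy.2]⟩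
      have h2 : (⟨1 / 2, y⟩ : ℂ) ≠ 0 := by
        intro hh
        have := congrArg Complex.re hh
        norm_num at this
      exact mul_ne_zero h2 h1
  obtain ⟨r0, hr0, hr0U⟩ := hK0c.exists_cthickening_subset_open hUo hK0U
  have hcomp : IsCompact (Metric.cthickening r0 K0) := hK0c.cthickening
  have hci : ContinuousOn (fun s : ℂ => (‖s * riemannZeta s‖⁻¹) ^ 2)
      (Metric.cthickening r0 K0) := by
    intro s hs
    have h1 := hr0U hs
    have h2 : ContinuousAt (fun s : ℂ => s * riemannZeta s) s :=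
      continuousAt_id.mul (differentiableAt_riemannZeta h1.1).continuousAt
    have h3 : ‖s * riemannZeta s‖ ≠ 0 := norm_ne_zero_iff.2 h1.2
    exact ((h2.norm.inv₀ h3).pow 2).continuousWithinAt
  obtain ⟨K, hK⟩ := hcomp.exists_bound_of_continuousOn hci
  refine ⟨min η r0, |K|, lt_min hηpos hr0, abs_nonneg K, fun δ t hδ hδ1 ht => ?_⟩
  have hδη : δ < η := lt_of_lt_of_le hδ1 (min_le_left _ _)
  have hδr : δ < r0 := lt_of_lt_of_le hδ1 (min_le_right _ _)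
  have hnorm : ∀ c : ℝ, ‖(⟨1 / 2 + δ, t⟩ : ℂ) - ⟨1 / 2, c⟩‖ ^ 2 = δ ^ 2 + (t - c) ^ 2 := by
    intro c
    rw [Complex.sq_norm, Complex.normSq_apply]
    simp only [Complex.sub_re, Complex.sub_im]
    ring
  have hne : ∀ c : ℝ, (⟨1 / 2 + δ, t⟩ : ℂ) ≠ ⟨1 / 2, c⟩ := by
    intro c hh
    have := congrArg Complex.re hh
    simp only at this
    linarith
  have hdist : ∀ c : ℝ, |t - c| < η → dist (⟨1 / 2 + δ, t⟩ : ℂ) ⟨1 / 2, c⟩ < 2 * η := by
    intro c hc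
    rw [dist_eq_norm]
    refine lt_of_pow_lt_pow_left₀ 2 (by linarith) ?_
    rw [hnorm c]
    have h1 : (t - c) ^ 2 < η ^ 2 := sq_lt_sq' (by linarith [(abs_lt.1 hc).1]) (abs_lt.1 hc).2
    have h2 : δ ^ 2 < η ^ 2 := by nlinarith
    nlinarith [sq_nonneg η]
  have p1 : 0 ≤ (Ac a ^ 2 + e) * (1 / (δ ^ 2 + (t - a) ^ 2)) := by positivity
  have p2 : 0 ≤ (Ac b ^ 2 + e) * (1 / (δ ^ 2 + (t - b) ^ 2)) := by positivity
  have p3 := abs_nonneg K
  rcases lt_or_ge (t - a) η with h1 | h1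
  · have h2 := hna _ (hne a) (lt_of_lt_of_le (hdist a (by
      rw [abs_of_pos (by linarith [ht.1])]; exact h1)) hηa)
    rw [hnorm a] at h2
    linarith
  · rcases lt_or_ge (b - t) η with h3 | h3
    · have h2 := hnb _ (hne b) (lt_of_lt_of_le (hdist b (by
        rw [abs_of_neg (by linarith [ht.2])]; linarith)) hηb)
      rw [hnorm b] at h2
      linarith
    · have hmem : (⟨1 / 2 + δ, t⟩ : ℂ) ∈ Metric.cthickening r0 K0 := by
        refine Metric.mem_cthickening_of_dist_le _ (⟨1 / 2, t⟩ : ℂ) r0 K0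
          ⟨t, ⟨by linarith, by linarith⟩, rfl⟩ ?_
        rw [dist_eq_norm]
        refine le_of_sq_le_sq ?_ hr0.le
        rw [hnorm t]
        nlinarith
      have h4 := hK _ hmem
      rw [Real.norm_eq_abs] at h4
      have h5 := le_abs_self ((‖(⟨1 / 2 + δ, t⟩ : ℂ) * riemannZeta (⟨1 / 2 + δ, t⟩ : ℂ)‖⁻¹) ^ 2)
      have h6 := le_abs_self K
      linarith

lemma normGG (h δ t : ℝ) (hδ : 0 < δ) (hδ2 : δ < 1 / 2) :
    ‖GG h 0 (⟨1 / 2 + δ, t⟩ : ℂ)‖ ^ 2 ≤ Real.exp (h ^ 2) *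
      (‖(⟨1 / 2 + δ, t⟩ : ℂ) * riemannZeta (⟨1 / 2 + δ, t⟩ : ℂ)‖⁻¹) ^ 2 := by
  unfold GG EE
  rw [norm_div, div_eq_mul_inv, mul_pow, Complex.norm_exp]
  gcongr
  have e1 : (((h : ℂ)) ^ 2 / 2 * (⟨1 / 2 + δ, t⟩ : ℂ) ^ 2 + ((0 : ℝ) : ℂ) *
      (⟨1 / 2 + δ, t⟩ : ℂ)).re = h ^ 2 / 2 * ((1 / 2 + δ) ^ 2 - t ^ 2) := by
    have e2 : ((h : ℂ)) ^ 2 / 2 = ((h ^ 2 / 2 : ℝ) : ℂ) := by push_cast; rfl
    rw [Complex.ofReal_zero, zero_mul, add_zero, e2, Complex.re_ofReal_mul, pow_two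
      (⟨1 / 2 + δ, t⟩ : ℂ), Complex.mul_re]
    ring
  rw [e1, ← Real.exp_nat_mul]
  apply Real.exp_le_exp.2
  push_cast
  nlinarith [sq_nonneg h, sq_nonneg t, mul_nonneg (sq_nonneg h) (sq_nonneg t),
    mul_nonneg (sq_nonneg h) (show (0 : ℝ) ≤ 1 - (1 / 2 + δ) ^ 2 by nlinarith)]

theorem gap (a b : ℝ) (h : Cons a b) (ha : deriv riemannZeta (⟨1 / 2, a⟩ : ℂ) ≠ 0)
    (hb : deriv riemannZeta (⟨1 / 2, b⟩ : ℂ) ≠ 0) (ε : ℝ) (hε : 0 < ε) :
    ∃ δ0 : ℝ, 0 < δ0 ∧ ∀ δ h : ℝ, 0 < δ → δ < δ0 → 0 < h → h < δ0 →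
      ∫⁻ t in Set.Ioo a b, ‖GG h 0 (⟨1 / 2 + δ, t⟩ : ℂ)‖ₑ ^ 2 ≤
        ENNReal.ofReal ((Real.pi / 2 * (Ac a ^ 2 + Ac b ^ 2) + ε) / δ) := by
  have hab := h.1
  have hpi := Real.pi_pos
  set e : ℝ := ε / (4 * Real.pi) with he
  have hepos : 0 < e := by positivity
  obtain ⟨δ1, K, hδ1, hK, hpt⟩ := ptw a b h ha hb e hepos
  set M : ℝ := Real.pi / 2 * (Ac a ^ 2 + Ac b ^ 2) with hM
  have hM0 : 0 ≤ M := by positivity
  have hR : (1 : ℝ) < (M + ε) / (M + ε / 2) := by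
    rw [lt_div_iff₀ (by positivity)]; linarith
  have hexp : ∀ᶠ x : ℝ in 𝓝 0, Real.exp (x ^ 2) < (M + ε) / (M + ε / 2) := by
    have hc : Continuous (fun x : ℝ => Real.exp (x ^ 2)) := by fun_prop
    have := hc.tendsto' 0 1 (by simp)
    exact this.eventually_lt_const hR
  obtain ⟨r, hr, hrr⟩ := Metric.eventually_nhds_iff.1 hexp
  have hδ3 : 0 < ε / (4 * (K * (b - a) + 1)) := by
    have : 0 ≤ K * (b - a) := mul_nonneg hK (by linarith)
    positivity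
  refine ⟨min (min δ1 (1 / 2)) (min r (ε / (4 * (K * (b - a) + 1)))),
    lt_min (lt_min hδ1 (by norm_num)) (lt_min hr hδ3), fun δ h' hδ hδ0 hh hh0 => ?_⟩
  have d1 : δ < δ1 := lt_of_lt_of_le hδ0 ((min_le_left _ _).trans (min_le_left _ _))
  have d2 : δ < 1 / 2 := lt_of_lt_of_le hδ0 ((min_le_left _ _).trans (min_le_right _ _))
  have d3 : δ < ε / (4 * (K * (b - a) + 1)) :=
    lt_of_lt_of_le hδ0 ((min_le_right _ _).trans (min_le_right _ _))
  have d4 : h' < r := lt_of_lt_of_le hh0 ((min_le_right _ _).trans (min_le_left _ _))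
  have hE : Real.exp (h' ^ 2) < (M + ε) / (M + ε / 2) := by
    apply hrr
    rw [Real.dist_eq, sub_zero, abs_of_pos hh]
    exact d4
  set f : ℝ → ℝ → ℝ := fun c t => 1 / (δ ^ 2 + (t - c) ^ 2) with hf
  have hfc : ∀ c, Continuous (f c) := by
    intro c
    refine continuous_const.div (by fun_prop) fun t => ?_
    positivity
  set G : ℝ → ℝ := fun t => Real.exp (h' ^ 2) *
    ((Ac a ^ 2 + e) * f a t + (Ac b ^ 2 + e) * f b t + K) with hG
  have hGc : Continuous G :=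
    continuous_const.mul (((continuous_const.mul (hfc a)).add
      (continuous_const.mul (hfc b))).add continuous_const)
  have hG0 : ∀ t, 0 ≤ G t := by
    intro t
    simp only [hG, hf]
    positivity
  have s1 : ∫⁻ t in Set.Ioo a b, ‖GG h' 0 (⟨1 / 2 + δ, t⟩ : ℂ)‖ₑ ^ 2 ≤
      ∫⁻ t in Set.Ioo a b, ENNReal.ofReal (G t) := by
    refine setLIntegral_mono' measurableSet_Ioo fun t ht => ?_
    rw [← ofReal_norm, ← ENNReal.ofReal_pow (norm_nonneg _)]
    apply ENNReal.ofReal_le_ofReal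
    refine (normGG h' δ t hδ d2).trans ?_
    simp only [hG, hf]
    exact mul_le_mul_of_nonneg_left (hpt δ t hδ d1 ht) (Real.exp_pos _).le
  have hGi : IntegrableOn G (Ioo a b) :=
    (hGc.integrableOn_Icc).mono_set Ioo_subset_Icc_self
  have s2 : ∫⁻ t in Set.Ioo a b, ENNReal.ofReal (G t) =
      ENNReal.ofReal (∫ t in Set.Ioo a b, G t) :=
    (ofReal_integral_eq_lintegral_ofReal hGi (Eventually.of_forall hG0)).symm
  have s3 : ∫ t in Set.Ioo a b, G t = ∫ t in a..b, G t := by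
    rw [intervalIntegral.integral_of_le hab.le, integral_Ioc_eq_integral_Ioo]
  have ii : ∀ c, IntervalIntegrable (f c) volume a b := fun c => (hfc c).intervalIntegrable _ _
  have s4 : ∫ t in a..b, G t = Real.exp (h' ^ 2) *
      ((Ac a ^ 2 + e) * (∫ t in a..b, f a t) + (Ac b ^ 2 + e) * (∫ t in a..b, f b t) +
        (b - a) * K) := by
    simp only [hG]
    rw [intervalIntegral.integral_const_mul, intervalIntegral.integral_add
      (((ii a).const_mul _).add ((ii b).const_mul _)) (intervalIntegrable_const),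
      intervalIntegral.integral_add ((ii a).const_mul _) ((ii b).const_mul _),
      intervalIntegral.integral_const_mul, intervalIntegral.integral_const_mul,
      intervalIntegral.integral_const, smul_eq_mul]
  have t1 : ∫ t in a..b, f a t ≤ Real.pi / 2 * (1 / δ) := by
    simp only [hf]
    rw [int_arctan a b a δ hδ, sub_self, zero_div, Real.arctan_zero, sub_zero, mul_comm]
    exact mul_le_mul_of_nonneg_right (Real.arctan_lt_pi_div_two _).le (by positivity)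
  have t2 : ∫ t in a..b, f b t ≤ Real.pi / 2 * (1 / δ) := by
    simp only [hf]
    rw [int_arctan a b b δ hδ, sub_self, zero_div, Real.arctan_zero, zero_sub, mul_comm]
    refine mul_le_mul_of_nonneg_right ?_ (by positivity)
    have := Real.neg_pi_div_two_lt_arctan ((a - b) / δ)
    linarith
  refine s1.trans ?_
  rw [s2, s3, s4]
  apply ENNReal.ofReal_le_ofReal
  have hKb : 0 ≤ K * (b - a) := mul_nonneg hK (by linarith)
  have u1 : (Ac a ^ 2 + e) * (∫ t in a..b, f a t) + (Ac b ^ 2 + e) * (∫ t in a..b, f b t) +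
      (b - a) * K ≤ (M + ε / 2) / δ := by
    have v1 : (Ac a ^ 2 + e) * (∫ t in a..b, f a t) ≤ (Ac a ^ 2 + e) * (Real.pi / 2 * (1 / δ)) :=
      mul_le_mul_of_nonneg_left t1 (by positivity)
    have v2 : (Ac b ^ 2 + e) * (∫ t in a..b, f b t) ≤ (Ac b ^ 2 + e) * (Real.pi / 2 * (1 / δ)) :=
      mul_le_mul_of_nonneg_left t2 (by positivity)
    have v3 : (b - a) * K ≤ (ε / 4) / δ := by
      rw [le_div_iff₀ hδ]
      have : δ * (4 * (K * (b - a) + 1)) < ε := by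
        rwa [lt_div_iff₀ (by positivity)] at d3
      nlinarith
    have v4 : (Ac a ^ 2 + e) * (Real.pi / 2 * (1 / δ)) + (Ac b ^ 2 + e) * (Real.pi / 2 * (1 / δ))
        = (M + ε / 4) / δ := by
      rw [hM, he]
      field_simp
      ring
    have v5 : (M + ε / 4) / δ + (ε / 4) / δ = (M + ε / 2) / δ := by ring
    linarith
  have u2 : 0 < (M + ε / 2) / δ := by positivity
  calc _ ≤ Real.exp (h' ^ 2) * ((M + ε / 2) / δ) :=
        mul_le_mul_of_nonneg_left u1 (Real.exp_pos _).le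
    _ ≤ (M + ε) / (M + ε / 2) * ((M + ε / 2) / δ) :=
        mul_le_mul_of_nonneg_right hE.le u2.le
    _ = (M + ε) / δ := by
        have : M + ε / 2 ≠ 0 := by positivity
        field_simp

end Pool.Agent.W98.WM
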