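import Pool.Agent.W93.WM.L2

set_option autoImplicit false

open MeasureTheory Filter Topology Set

namespace Pool.Agent.W899.WM

open Pool.Agent.W120.WM
open Pool.Agent.W93.WM (cauchy_aux cons_fst cons_snd q_aux ee_aux)

lemma piece {C1 : ℝ} (hC1 : 0 < C1) (a b : ℝ) (hp : Cons a b) (δ h M : ℝ)
    (hpt : ∀ t : ℝ, a < t → t < b → ‖((⟨1 / 2 + δ, t⟩ : ℂ) * riemannZeta (⟨1 / 2 + δ, t⟩ : ℂ))⁻¹‖ ≤
      C1 * (3 + |t|) ^ δ * ((b - a) / (‖(⟨δ, t - a⟩ : ℂ)‖ * ‖(⟨δ, t - b⟩ : ℂ)‖)) * (Ac a + Ac b))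
    (hδ : 0 < δ) (hδ2 : δ < 1 / 2) (hh : 0 < h) (hh1 : h ≤ 1) (hM0 : 0 < M)
    (hM : ∀ t : ℝ, (3 + |t|) ^ (2 * δ) * Real.exp (-(h ^ 2 * t ^ 2)) ≤ M) :
    ∫⁻ t in Ioo a b, ‖GG h 0 (⟨1 / 2 + δ, t⟩ : ℂ)‖ₑ ^ 2 ≤
      ENNReal.ofReal (8 * Real.pi * Real.exp 1 * C1 ^ 2 * M / δ * (Ac a ^ 2 + Ac b ^ 2)) := by
  set κ : ℝ := Real.exp 1 * C1 ^ 2 * M * (2 * (Ac a ^ 2 + Ac b ^ 2)) with hκ
  have hκ0 : 0 ≤ κ := by positivity
  have hbd : ∀ t ∈ Ioo a b, ‖GG h 0 (⟨1 / 2 + δ, t⟩ : ℂ)‖ₑ ^ 2 ≤ ENNReal.ofReal (κ * 2) *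
      (ENNReal.ofReal (1 / (δ ^ 2 + (t - a) ^ 2)) + ENNReal.ofReal (1 / (δ ^ 2 + (t - b) ^ 2))) := by
    intro t ht
    have h1 := hpt t ht.1 ht.2
    have h2 : ‖GG h 0 (⟨1 / 2 + δ, t⟩ : ℂ)‖ ^ 2 ≤ κ *
        (2 * (1 / (δ ^ 2 + (t - a) ^ 2)) + 2 * (1 / (δ ^ 2 + (t - b) ^ 2))) := by
      rw [GG, div_eq_mul_inv, norm_mul, mul_pow]
      have e1 := ee_aux (t := t) hδ hδ2 hh hh1
      have e2 : ‖((⟨1 / 2 + δ, t⟩ : ℂ) * riemannZeta (⟨1 / 2 + δ, t⟩ : ℂ))⁻¹‖ ^ 2 ≤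
          (C1 * (3 + |t|) ^ δ * ((b - a) / (‖(⟨δ, t - a⟩ : ℂ)‖ * ‖(⟨δ, t - b⟩ : ℂ)‖)) *
            (Ac a + Ac b)) ^ 2 := pow_le_pow_left₀ (norm_nonneg _) h1 2
      have e3 : (C1 * (3 + |t|) ^ δ * ((b - a) / (‖(⟨δ, t - a⟩ : ℂ)‖ * ‖(⟨δ, t - b⟩ : ℂ)‖)) *
            (Ac a + Ac b)) ^ 2 = C1 ^ 2 * (3 + |t|) ^ (2 * δ) *
            ((b - a) / (‖(⟨δ, t - a⟩ : ℂ)‖ * ‖(⟨δ, t - b⟩ : ℂ)‖)) ^ 2 * (Ac a + Ac b) ^ 2 := by
        have : (3 + |t|) ^ (2 * δ) = ((3 + |t|) ^ δ) ^ 2 := by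
          rw [mul_comm, Real.rpow_mul (by positivity)]
          norm_num
        rw [this]; ring
      have e4 := q_aux (t := t) hδ hp.1
      have e5 : (Ac a + Ac b) ^ 2 ≤ 2 * (Ac a ^ 2 + Ac b ^ 2) := by
        nlinarith [sq_nonneg (Ac a - Ac b)]
      have e6 := hM t
      set Q := ((b - a) / (‖(⟨δ, t - a⟩ : ℂ)‖ * ‖(⟨δ, t - b⟩ : ℂ)‖)) ^ 2 with hQ
      set R := (2 * (1 / (δ ^ 2 + (t - a) ^ 2)) + 2 * (1 / (δ ^ 2 + (t - b) ^ 2))) with hR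
      have hQ0 : 0 ≤ Q := sq_nonneg _
      calc ‖EE h 0 (⟨1 / 2 + δ, t⟩ : ℂ)‖ ^ 2 *
            ‖((⟨1 / 2 + δ, t⟩ : ℂ) * riemannZeta (⟨1 / 2 + δ, t⟩ : ℂ))⁻¹‖ ^ 2
          ≤ (Real.exp 1 * Real.exp (-(h ^ 2 * t ^ 2))) *
            (C1 ^ 2 * (3 + |t|) ^ (2 * δ) * Q * (Ac a + Ac b) ^ 2) := by
            rw [e3] at e2
            exact mul_le_mul e1 e2 (by positivity) (by positivity)
        _ = Real.exp 1 * C1 ^ 2 * ((3 + |t|) ^ (2 * δ) * Real.exp (-(h ^ 2 * t ^ 2))) *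
            (Q * (Ac a + Ac b) ^ 2) := by ring
        _ ≤ Real.exp 1 * C1 ^ 2 * M * (R * (2 * (Ac a ^ 2 + Ac b ^ 2))) := by
            apply mul_le_mul
            · exact mul_le_mul_of_nonneg_left e6 (by positivity)
            · exact mul_le_mul e4 e5 (by positivity) (le_trans hQ0 e4)
            · positivity
            · positivity
        _ = κ * R := by rw [hκ]; ring
    have h3 : ‖GG h 0 (⟨1 / 2 + δ, t⟩ : ℂ)‖ₑ ^ 2 =
        ENNReal.ofReal (‖GG h 0 (⟨1 / 2 + δ, t⟩ : ℂ)‖ ^ 2) := by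
      rw [← ofReal_norm, ENNReal.ofReal_pow (norm_nonneg _)]
    rw [h3, ← ENNReal.ofReal_add (by positivity) (by positivity),
      ← ENNReal.ofReal_mul (by positivity)]
    apply ENNReal.ofReal_le_ofReal
    refine h2.trans (le_of_eq ?_)
    ring
  calc ∫⁻ t in Ioo a b, ‖GG h 0 (⟨1 / 2 + δ, t⟩ : ℂ)‖ₑ ^ 2
      ≤ ∫⁻ t in Ioo a b, ENNReal.ofReal (κ * 2) *
      (ENNReal.ofReal (1 / (δ ^ 2 + (t - a) ^ 2)) + ENNReal.ofReal (1 / (δ ^ 2 + (t - b) ^ 2))) :=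
        setLIntegral_mono' measurableSet_Ioo hbd
    _ ≤ ∫⁻ t, ENNReal.ofReal (κ * 2) *
      (ENNReal.ofReal (1 / (δ ^ 2 + (t - a) ^ 2)) + ENNReal.ofReal (1 / (δ ^ 2 + (t - b) ^ 2))) :=
        setLIntegral_le_lintegral _ _
    _ = ENNReal.ofReal (κ * 2) * (ENNReal.ofReal (Real.pi / δ) + ENNReal.ofReal (Real.pi / δ)) := by
        rw [lintegral_const_mul _ (by fun_prop), lintegral_add_left (by fun_prop),
          cauchy_aux δ a hδ, cauchy_aux δ b hδ]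
    _ = _ := by
        rw [← ENNReal.ofReal_add (by positivity) (by positivity),
          ← ENNReal.ofReal_mul (by positivity)]
        congr 1
        rw [hκ]
        ring

lemma exists_min {α : Type} (Z : Finset α) (P : α → ℝ → Prop)
    (h : ∀ p ∈ Z, ∃ δ0 : ℝ, 0 < δ0 ∧ P p δ0) (hmono : ∀ p x y, 0 < x → x ≤ y → P p y → P p x) :
    ∃ δ0 : ℝ, 0 < δ0 ∧ ∀ p ∈ Z, P p δ0 := by
  classical
  induction Z using Finset.induction_on with
  | empty => exact ⟨1, one_pos, by simp⟩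
  | insert p Z hp ih =>
    obtain ⟨d1, hd1, h1⟩ := ih (fun q hq => h q (Finset.mem_insert_of_mem hq))
    obtain ⟨d2, hd2, h2⟩ := h p (Finset.mem_insert_self _ _)
    refine ⟨min d1 d2, lt_min hd1 hd2, ?_⟩
    intro q hq
    rcases Finset.mem_insert.1 hq with rfl | hq
    · exact hmono _ _ _ (lt_min hd1 hd2) (min_le_right _ _) h2
    · exact hmono _ _ _ (lt_min hd1 hd2) (min_le_left _ _) (h1 q hq)

theorem tan (hPT : U_PT) (hDBL : U_DBL)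
    (hGAP : ∀ (a b : ℝ), Cons a b → deriv riemannZeta (⟨1 / 2, a⟩ : ℂ) ≠ 0 →
      deriv riemannZeta (⟨1 / 2, b⟩ : ℂ) ≠ 0 → ∀ ε : ℝ, 0 < ε → ∃ δ0 : ℝ, 0 < δ0 ∧
      ∀ δ h : ℝ, 0 < δ → δ < δ0 → 0 < h → h < δ0 →
        ∫⁻ t in Set.Ioo a b, ‖GG h 0 (⟨1 / 2 + δ, t⟩ : ℂ)‖ₑ ^ 2 ≤
          ENNReal.ofReal ((Real.pi / 2 * (Ac a ^ 2 + Ac b ^ 2) + ε) / δ))
    (h1 : ∀ ρ ∈ NT, ρ.re = 1 / 2 ∧ deriv riemannZeta ρ ≠ 0) (S : ℝ)
    (hS : ∀ Z : Finset ℂ, (∀ ρ ∈ Z, ρ ∈ NT) → ∑ ρ ∈ Z, 1 / ‖ρ * deriv riemannZeta ρ‖ ^ 2 ≤ S)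
    (M ε : ℝ) (hε : 0 < ε) : ∃ δ0 : ℝ, 0 < δ0 ∧ ∀ δ h : ℝ, 0 < δ → δ < δ0 → 0 < h → h < δ0 →
      (∀ t : ℝ, (3 + |t|) ^ (2 * δ) * Real.exp (-(h ^ 2 * t ^ 2)) ≤ M) →
      ∫⁻ t : ℝ, ‖GG h 0 (⟨1 / 2 + δ, t⟩ : ℂ)‖ₑ ^ 2 ≤ ENNReal.ofReal ((Real.pi * S + ε) / δ) := by
  rcases le_or_gt M 0 with hM0 | hM0
  · refine ⟨1, one_pos, ?_⟩
    intro δ h hδ _ hh _ hM
    exfalso
    have h2 := hM 0
    have h3 : (0 : ℝ) < (3 + |(0 : ℝ)|) ^ (2 * δ) * Real.exp (-(h ^ 2 * 0 ^ 2)) := by positivity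
    linarith
  have hRH : RHp := fun ρ hρ => (h1 ρ hρ).1
  obtain ⟨C1, hC1, hpt⟩ := hPT hRH
  have hcov := (hDBL hRH).1
  have hNT : ∀ y : ℝ, riemannZeta (⟨1 / 2, y⟩ : ℂ) = 0 → (⟨1 / 2, y⟩ : ℂ) ∈ NT := by
    intro y hy
    refine ⟨hy, ?_, ?_⟩ <;> norm_num
  have hS0 : 0 ≤ S := by simpa using hS ∅ (by simp)
  classical
  -- the weights
  let F : ℝ → ENNReal := fun y => if riemannZeta (⟨1 / 2, y⟩ : ℂ) = 0 then ENNReal.ofReal (Ac y ^ 2) else 0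
  have hF : ∑' y, F y ≤ ENNReal.ofReal S := by
    rw [ENNReal.tsum_eq_iSup_sum]
    refine iSup_le ?_
    intro Z
    have h1 : ∑ y ∈ Z, F y = ∑ y ∈ Z.filter (fun y => riemannZeta (⟨1 / 2, y⟩ : ℂ) = 0),
        ENNReal.ofReal (Ac y ^ 2) := by
      rw [Finset.sum_filter]
    rw [h1, ← ENNReal.ofReal_sum_of_nonneg (fun y _ => sq_nonneg _)]
    apply ENNReal.ofReal_le_ofReal
    have hinj : Function.Injective (fun y : ℝ => (⟨1 / 2, y⟩ : ℂ)) := by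
      intro x y hxy
      exact (Complex.ext_iff.mp hxy).2
    have h2 := hS ((Z.filter (fun y => riemannZeta (⟨1 / 2, y⟩ : ℂ) = 0)).map ⟨_, hinj⟩) (by
      intro ρ hρ
      rw [Finset.mem_map] at hρ
      obtain ⟨y, hy, rfl⟩ := hρ
      exact hNT y (Finset.mem_filter.mp hy).2)
    rw [Finset.sum_map] at h2
    refine le_trans (le_of_eq ?_) h2
    apply Finset.sum_congr rfl
    intro y _
    simp only [Ac, Function.Embedding.coeFn_mk]
    rw [div_pow, one_pow]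
  have hFpos : ∀ y : ℝ, riemannZeta (⟨1 / 2, y⟩ : ℂ) = 0 → F y ≠ 0 := by
    intro y hy
    have hd := (h1 _ (hNT y hy)).2
    have hne : (⟨1 / 2, y⟩ : ℂ) ≠ 0 := by
      intro h0
      have := (Complex.ext_iff.mp h0).1
      norm_num at this
    simp only [F, if_pos hy]
    have : 0 < Ac y := by
      unfold Ac
      apply one_div_pos.mpr
      exact norm_pos_iff.mpr (mul_ne_zero hne hd)
    have h3 : 0 < Ac y ^ 2 := by positivity
    exact (ENNReal.ofReal_pos.mpr h3).ne'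
  have hYc : {y : ℝ | riemannZeta (⟨1 / 2, y⟩ : ℂ) = 0}.Countable := by
    have h1 : F.support.Countable :=
      Summable.countable_support_ennreal (ne_top_of_le_ne_top ENNReal.ofReal_ne_top hF)
    exact h1.mono (fun y hy => hFpos y hy)
  -- the index type
  let T := {p : ℝ × ℝ // Cons p.1 p.2}
  have hfst : Function.Injective (fun p : T => p.1.1) := by
    rintro ⟨⟨a, b⟩, hp⟩ ⟨⟨a', b'⟩, hp'⟩ hh
    simp only at hh hp hp'
    subst hh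
    have := cons_fst hp hp'
    subst this
    rfl
  have hsnd : Function.Injective (fun p : T => p.1.2) := by
    rintro ⟨⟨a, b⟩, hp⟩ ⟨⟨a', b'⟩, hp'⟩ hh
    simp only at hh hp hp'
    subst hh
    have := cons_snd hp hp'
    subst this
    rfl
  have hTc : Countable T := by
    have : Countable {y : ℝ | riemannZeta (⟨1 / 2, y⟩ : ℂ) = 0} := hYc.to_subtype
    let g : T → {y : ℝ | riemannZeta (⟨1 / 2, y⟩ : ℂ) = 0} := fun p => ⟨p.1.1, p.2.2.1⟩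
    have hg : Function.Injective g := by
      intro p q hpq
      apply hfst
      exact congrArg Subtype.val hpq
    exact hg.countable
  have hae : (⋃ p : T, Ioo p.1.1 p.1.2) =ᵐ[volume] (univ : Set ℝ) := by
    rw [ae_eq_univ]
    apply measure_mono_null _ (hYc.measure_zero volume)
    intro t ht
    by_contra hne
    obtain ⟨a, b, hab, h1, h2⟩ := hcov t hne
    apply ht
    rw [mem_iUnion]
    exact ⟨⟨(a, b), hab⟩, h1, h2⟩
  -- the weights of the gaps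
  let w : T → ENNReal := fun p => ENNReal.ofReal (Ac p.1.1 ^ 2 + Ac p.1.2 ^ 2)
  have hwF : ∀ p : T, w p = F p.1.1 + F p.1.2 := by
    rintro ⟨⟨a, b⟩, hp⟩
    have hFa : F a = ENNReal.ofReal (Ac a ^ 2) := if_pos hp.2.1
    have hFb : F b = ENNReal.ofReal (Ac b ^ 2) := if_pos hp.2.2.1
    simp only [w]
    rw [hFa, hFb, ← ENNReal.ofReal_add (by positivity) (by positivity)]
  have hw : ∑' p : T, w p ≤ ENNReal.ofReal (2 * S) := by
    calc ∑' p : T, w p = ∑' p : T, F p.1.1 + ∑' p : T, F p.1.2 := by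
          rw [← ENNReal.tsum_add]
          exact tsum_congr hwF
      _ ≤ ENNReal.ofReal S + ENNReal.ofReal S := by
          gcongr
          · exact (ENNReal.tsum_comp_le_tsum_of_injective hfst F).trans hF
          · exact (ENNReal.tsum_comp_le_tsum_of_injective hsnd F).trans hF
      _ = ENNReal.ofReal (2 * S) := by
          rw [← ENNReal.ofReal_add hS0 hS0]; congr 1; ring
  set K : ℝ := 8 * Real.pi * Real.exp 1 * C1 ^ 2 * M with hK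
  have hKpos : 0 < K := by positivity
  -- the finite set of gaps
  obtain ⟨Z, hZ⟩ : ∃ Z : Finset T, ∑' p : {p : T // p ∉ Z}, w p ≤ ENNReal.ofReal (ε / (2 * K)) := by
    have h2 := ENNReal.tendsto_tsum_compl_atTop_zero
      (ne_top_of_le_ne_top ENNReal.ofReal_ne_top hw)
    have h3 : ∀ᶠ Z : Finset T in atTop, ∑' p : {p : T // p ∉ Z}, w p ≤
        ENNReal.ofReal (ε / (2 * K)) :=
      (h2.eventually (gt_mem_nhds (ENNReal.ofReal_pos.mpr (by positivity)))).mono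
        (fun _ h => h.le)
    exact h3.exists
  set ε' : ℝ := ε / (2 * (Z.card + 1)) with hε'
  have hε'0 : 0 < ε' := by positivity
  obtain ⟨d, hd, hdZ⟩ := exists_min Z (fun p δ0 => ∀ δ h : ℝ, 0 < δ → δ < δ0 → 0 < h → h < δ0 →
      ∫⁻ t in Set.Ioo p.1.1 p.1.2, ‖GG h 0 (⟨1 / 2 + δ, t⟩ : ℂ)‖ₑ ^ 2 ≤
        ENNReal.ofReal ((Real.pi / 2 * (Ac p.1.1 ^ 2 + Ac p.1.2 ^ 2) + ε') / δ))
    (by
      intro p _
      exact hGAP p.1.1 p.1.2 p.2 (h1 _ (hNT _ p.2.2.1)).2 (h1 _ (hNT _ p.2.2.2.1)).2 ε' hε'0)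
    (by
      intro p x y _ hxy hP δ h a1 a2 a3 a4
      exact hP δ h a1 (lt_of_lt_of_le a2 hxy) a3 (lt_of_lt_of_le a4 hxy))
  refine ⟨min d (1 / 2), lt_min hd (by norm_num), ?_⟩
  intro δ h hδ hδ0 hh hh0 hM
  have hδ2 : δ < 1 / 2 := lt_of_lt_of_le hδ0 (min_le_right _ _)
  have hδd : δ < d := lt_of_lt_of_le hδ0 (min_le_left _ _)
  have hhd : h < d := lt_of_lt_of_le hh0 (min_le_left _ _)
  have hh1 : h ≤ 1 := (lt_of_lt_of_le hh0 (min_le_right _ _)).le.trans (by norm_num)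
  set g : ℝ → ENNReal := fun t => ‖GG h 0 (⟨1 / 2 + δ, t⟩ : ℂ)‖ₑ ^ 2 with hg
  have hpiece : ∀ p : T, ∫⁻ t in Ioo p.1.1 p.1.2, g t ≤
      ENNReal.ofReal (Real.pi / 2 / δ) * w p +
        ((Z : Set T).indicator (fun _ => ENNReal.ofReal (ε' / δ)) p +
          ENNReal.ofReal (K / δ) * {p : T | p ∉ Z}.indicator w p) := by
    intro p
    by_cases hpZ : p ∈ Z
    · have h2 := hdZ p hpZ δ h hδ hδd hh hhd
      refine h2.trans ?_
      rw [indicator_of_mem (by exact_mod_cast hpZ), indicator_of_notMem (by simpa using hpZ),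
        mul_zero, add_zero]
      simp only [w]
      rw [← ENNReal.ofReal_mul (by positivity), ← ENNReal.ofReal_add (by positivity) (by positivity)]
      apply ENNReal.ofReal_le_ofReal
      apply le_of_eq
      field_simp
    · have h2 := piece hC1 p.1.1 p.1.2 p.2 δ h M
        (fun t ht1 ht2 => hpt p.1.1 p.1.2 t δ p.2 ht1 ht2 hδ hδ2 (h1 _ (hNT _ p.2.2.1)).2
          (h1 _ (hNT _ p.2.2.2.1)).2) hδ hδ2 hh hh1 hM0 hM
      refine h2.trans ?_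
      rw [indicator_of_notMem (by exact_mod_cast hpZ), indicator_of_mem (by simpa using hpZ),
        zero_add]
      refine le_trans (le_of_eq ?_) le_add_self
      simp only [w]
      rw [← ENNReal.ofReal_mul (by positivity)]
  have hsum1 : ∑' p : T, (Z : Set T).indicator (fun _ => ENNReal.ofReal (ε' / δ)) p =
      ENNReal.ofReal (Z.card * (ε' / δ)) := by
    rw [← tsum_subtype, Finset.tsum_subtype' Z (fun _ => ENNReal.ofReal (ε' / δ)),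
      Finset.sum_const, nsmul_eq_mul, ENNReal.ofReal_mul (by positivity), ENNReal.ofReal_natCast]
  have hsum2 : ∑' p : T, {p : T | p ∉ Z}.indicator w p ≤ ENNReal.ofReal (ε / (2 * K)) := by
    rw [← tsum_subtype]
    exact hZ
  calc ∫⁻ t : ℝ, g t = ∫⁻ t in (⋃ p : T, Ioo p.1.1 p.1.2), g t := by
        rw [setLIntegral_congr hae, setLIntegral_univ]
    _ ≤ ∑' p : T, ∫⁻ t in Ioo p.1.1 p.1.2, g t := lintegral_iUnion_le _ _
    _ ≤ ∑' p : T, (ENNReal.ofReal (Real.pi / 2 / δ) * w p +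
        ((Z : Set T).indicator (fun _ => ENNReal.ofReal (ε' / δ)) p +
          ENNReal.ofReal (K / δ) * {p : T | p ∉ Z}.indicator w p)) := ENNReal.tsum_le_tsum hpiece
    _ = ENNReal.ofReal (Real.pi / 2 / δ) * ∑' p : T, w p +
        (ENNReal.ofReal (Z.card * (ε' / δ)) +
          ENNReal.ofReal (K / δ) * ∑' p : T, {p : T | p ∉ Z}.indicator w p) := by
        rw [ENNReal.tsum_add, ENNReal.tsum_add, ENNReal.tsum_mul_left, ENNReal.tsum_mul_left,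
          hsum1]
    _ ≤ ENNReal.ofReal (Real.pi / 2 / δ) * ENNReal.ofReal (2 * S) +
        (ENNReal.ofReal (Z.card * (ε' / δ)) +
          ENNReal.ofReal (K / δ) * ENNReal.ofReal (ε / (2 * K))) := by
        gcongr
    _ = ENNReal.ofReal (Real.pi / 2 / δ * (2 * S) + (Z.card * (ε' / δ) +
          K / δ * (ε / (2 * K)))) := by
        rw [← ENNReal.ofReal_mul (by positivity), ← ENNReal.ofReal_mul (by positivity),
          ← ENNReal.ofReal_add (by positivity) (by positivity),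
          ← ENNReal.ofReal_add (by positivity) (by positivity)]
    _ ≤ ENNReal.ofReal ((Real.pi * S + ε) / δ) := by
        apply ENNReal.ofReal_le_ofReal
        have e1 : (Z.card : ℝ) * ε' ≤ ε / 2 := by
          rw [hε']
          have : (0 : ℝ) ≤ Z.card := Nat.cast_nonneg _
          rw [mul_div_assoc', div_le_div_iff₀ (by positivity) (by norm_num)]
          nlinarith
        have e2 : K / δ * (ε / (2 * K)) = ε / 2 / δ := by
          field_simp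
        have e3 : Real.pi / 2 / δ * (2 * S) + (Z.card * (ε' / δ) + K / δ * (ε / (2 * K))) =
            (Real.pi * S + (Z.card * ε' + ε / 2)) / δ := by
          rw [e2]; field_simp
        rw [e3]
        apply div_le_div_of_nonneg_right _ hδ.le
        linarith

end Pool.Agent.W899.WM
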