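import Mathlib

set_option autoImplicit false

open MeasureTheory

namespace Pool.Agent.W553.WM

lemma I0 (V : ℝ) (hV : 0 < V) : ∫ w in Set.Ioi (0 : ℝ), Real.exp (-(w / V)) = V := by
  have h := Real.integral_rpow_mul_exp_neg_mul_Ioi (a := 1) (r := V⁻¹) one_pos (inv_pos.2 hV)
  have e : ∫ w in Set.Ioi (0 : ℝ), Real.exp (-(w / V)) =
      ∫ t in Set.Ioi (0 : ℝ), t ^ ((1 : ℝ) - 1) * Real.exp (-(V⁻¹ * t)) := by
    refine setIntegral_congr_fun measurableSet_Ioi fun t _ => ?_
    simp only [sub_self, Real.rpow_zero, one_mul]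
    congr 2
    rw [div_eq_inv_mul]
  rw [e, h]
  simp

lemma I1 (V : ℝ) (hV : 0 < V) : ∫ w in Set.Ioi (0 : ℝ), w * Real.exp (-(w / V)) = V ^ 2 := by
  have h := Real.integral_rpow_mul_exp_neg_mul_Ioi (a := 2) (r := V⁻¹) two_pos (inv_pos.2 hV)
  have e : ∫ w in Set.Ioi (0 : ℝ), w * Real.exp (-(w / V)) =
      ∫ t in Set.Ioi (0 : ℝ), t ^ ((2 : ℝ) - 1) * Real.exp (-(V⁻¹ * t)) := by
    refine setIntegral_congr_fun measurableSet_Ioi fun t _ => ?_
    have : (2 : ℝ) - 1 = 1 := by norm_num
    simp only [this, Real.rpow_one]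
    congr 2
    rw [div_eq_inv_mul]
  rw [e, h]
  have hG : Real.Gamma 2 = 1 := Real.Gamma_two
  rw [hG]
  simp

lemma tail (V : ℝ) (hV : 0 < V) (v : ℝ) :
    ∫⁻ w in Set.Ioi v, ENNReal.ofReal (V⁻¹ * Real.exp (-(w / V))) =
      ENNReal.ofReal (Real.exp (-(v / V))) := by
  have hd : ∀ x : ℝ, HasDerivAt (fun w => -Real.exp (-(w / V))) (V⁻¹ * Real.exp (-(x / V))) x := by
    intro x
    have h1 : HasDerivAt (fun w : ℝ => -(w / V)) (-(1 / V)) x := ((hasDerivAt_id x).div_const V).neg
    have h2 := h1.exp.neg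
    refine h2.congr_deriv ?_
    rw [one_div]
    ring
  have hlim : Filter.Tendsto (fun w : ℝ => -Real.exp (-(w / V))) Filter.atTop (nhds 0) := by
    rw [← neg_zero]
    refine Filter.Tendsto.neg ?_
    refine Real.tendsto_exp_atBot.comp ?_
    refine Filter.tendsto_neg_atTop_atBot.comp ?_
    exact Filter.tendsto_id.atTop_div_const hV
  have hint : IntegrableOn (fun w => V⁻¹ * Real.exp (-(w / V))) (Set.Ioi v) :=
    integrableOn_Ioi_deriv_of_nonneg' (fun x _ => hd x) (fun x _ => by positivity) hlim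
  have hval : ∫ w in Set.Ioi v, V⁻¹ * Real.exp (-(w / V)) = Real.exp (-(v / V)) := by
    rw [integral_Ioi_of_hasDerivAt_of_tendsto' (fun x _ => hd x) hint hlim]
    ring
  rw [← hval, ofReal_integral_eq_lintegral_ofReal hint]
  exact Filter.Eventually.of_forall fun w => by positivity

lemma swap (f : ℝ → ℝ) (hf0 : ∀ v, 0 ≤ f v) (hfm : Measurable f)
    (hloc : ∀ V : ℝ, IntegrableOn f (Set.Ioc 0 V)) (V : ℝ) (hV : 0 < V) :
    ∫⁻ v in Set.Ioi 0, ENNReal.ofReal (f v * Real.exp (-(v / V))) =
      ∫⁻ w in Set.Ioi 0, ENNReal.ofReal (V⁻¹ * Real.exp (-(w / V)) * ∫ v in Set.Ioc 0 w, f v) := by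
  set F : ℝ → ENNReal := fun v => ENNReal.ofReal (f v) with hF
  set k : ℝ → ENNReal := fun w => ENNReal.ofReal (V⁻¹ * Real.exp (-(w / V))) with hk
  have hFm : Measurable F := hfm.ennreal_ofReal
  have hkm : Measurable k := by
    rw [hk]
    fun_prop
  let G : ℝ → ℝ → ENNReal := fun v w => if v ≤ w then F v * k w else 0
  have hG : Measurable (Function.uncurry G) := by
    refine Measurable.ite (measurableSet_le measurable_fst measurable_snd) ?_ measurable_const
    exact (hFm.comp measurable_fst).mul (hkm.comp measurable_snd)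
  have e1 : ∫⁻ v in Set.Ioi 0, ENNReal.ofReal (f v * Real.exp (-(v / V))) =
      ∫⁻ v in Set.Ioi 0, ∫⁻ w in Set.Ioi 0, G v w := by
    refine setLIntegral_congr_fun measurableSet_Ioi fun v hv => ?_
    have hv0 : (0 : ℝ) < v := hv
    have e2 : ∀ w, G v w = (Set.Ici v).indicator (fun w => F v * k w) w := by
      intro w
      by_cases h : v ≤ w
      · simp [G, h]
      · simp [G, h]
    simp_rw [e2]
    rw [lintegral_indicator measurableSet_Ici, Measure.restrict_restrict measurableSet_Ici]
    have e3 : Set.Ici v ∩ Set.Ioi 0 = Set.Ici v := by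
      ext x
      simp only [Set.mem_inter_iff, Set.mem_Ici, Set.mem_Ioi, and_iff_left_iff_imp]
      intro hx
      linarith
    rw [e3, lintegral_const_mul _ hkm, setLIntegral_congr Ioi_ae_eq_Ici.symm, tail V hV v,
      ENNReal.ofReal_mul (hf0 v)]
  have e4 : ∫⁻ w in Set.Ioi 0, ENNReal.ofReal (V⁻¹ * Real.exp (-(w / V)) *
      ∫ v in Set.Ioc 0 w, f v) = ∫⁻ w in Set.Ioi 0, ∫⁻ v in Set.Ioi 0, G v w := by
    refine setLIntegral_congr_fun measurableSet_Ioi fun w hw => ?_
    have e2 : ∀ v, G v w = (Set.Iic w).indicator (fun v => F v * k w) v := by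
      intro v
      by_cases h : v ≤ w
      · simp [G, h]
      · simp [G, h]
    simp_rw [e2]
    rw [lintegral_indicator measurableSet_Iic, Measure.restrict_restrict measurableSet_Iic]
    have e3 : Set.Iic w ∩ Set.Ioi 0 = Set.Ioc 0 w := by
      ext x
      simp only [Set.mem_inter_iff, Set.mem_Iic, Set.mem_Ioi, Set.mem_Ioc]
      tauto
    rw [e3, lintegral_mul_const _ hFm, ENNReal.ofReal_mul (by positivity),
      ofReal_integral_eq_lintegral_ofReal (hloc w) (Filter.Eventually.of_forall hf0), mul_comm]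
  rw [e1, e4]
  exact lintegral_lintegral_swap hG.aemeasurable

theorem taub (f : ℝ → ℝ) (hf0 : ∀ v, 0 ≤ f v) (hfm : Measurable f)
    (hloc : ∀ V : ℝ, IntegrableOn f (Set.Ioc 0 V)) (S : ℝ) (hS : 0 ≤ S)
    (hlow : ∀ ε : ℝ, 0 < ε → ∀ᶠ V : ℝ in Filter.atTop, (S - ε) * V ≤ ∫ v in Set.Ioc 0 V, f v)
    (hup : ∀ ε : ℝ, 0 < ε → ∀ᶠ V : ℝ in Filter.atTop,
      ∫⁻ v in Set.Ioi 0, ENNReal.ofReal (f v * Real.exp (-(v / V))) ≤
        ENNReal.ofReal ((S + ε) * V)) :
    Filter.Tendsto (fun V : ℝ => (∫ v in Set.Ioc 0 V, f v) / V) Filter.atTop (nhds S) := by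
  set Φ : ℝ → ℝ := fun V => ∫ v in Set.Ioc 0 V, f v with hΦ
  have hΦ0 : ∀ w, 0 ≤ Φ w := fun w => integral_nonneg hf0
  have hmono : ∀ a b : ℝ, a ≤ b → Φ a ≤ Φ b := by
    intro a b hab
    exact setIntegral_mono_set (hloc b) (Filter.Eventually.of_forall hf0)
      (Set.Ioc_subset_Ioc_right hab).eventuallyLE
  -- the upper bound
  have main : ∀ η : ℝ, 0 < η → ∀ᶠ V : ℝ in Filter.atTop, Φ V < (S + η) * V := by
    intro η hη
    set κ : ℝ := η / (2 * (S + 1)) with hκ
    have hκ0 : 0 < κ := by positivity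
    have hSκ : S * κ ≤ η / 2 := by
      rw [hκ]
      have : S * (η / (2 * (S + 1))) = (η / 2) * (S / (S + 1)) := by
        field_simp
      rw [this]
      have h1 : S / (S + 1) ≤ 1 := by
        rw [div_le_one (by positivity)]
        linarith
      nlinarith
    set c0 : ℝ := (η / 2) * (Real.exp (-1) - Real.exp (-(1 + κ))) with hc0
    have hc0pos : 0 < c0 := by
      have : Real.exp (-(1 + κ)) < Real.exp (-1) := Real.exp_lt_exp.2 (by linarith)
      have h2 : 0 < Real.exp (-1) - Real.exp (-(1 + κ)) := by linarith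
      positivity
    set ε : ℝ := c0 / 4 with hε
    have hε0 : 0 < ε := by positivity
    set c : ℝ := S - ε with hc
    obtain ⟨w1, hw1⟩ := Filter.eventually_atTop.1 (hlow ε hε0)
    set w0 : ℝ := max w1 0 with hw0
    have hw00 : 0 ≤ w0 := le_max_right _ _
    set K : ℝ := |c| * w0 with hK
    have hK0 : 0 ≤ K := by positivity
    have hlowAll : ∀ w, 0 < w → c * w - K ≤ Φ w := by
      intro w hw
      by_cases h : w0 ≤ w
      · have := hw1 w (le_trans (le_max_left _ _) h)
        have h2 : c * w ≤ Φ w := this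
        linarith
      · push Not at h
        have h1 : c * w ≤ |c| * w := mul_le_mul_of_nonneg_right (le_abs_self c) hw.le
        have h2 : |c| * w ≤ |c| * w0 := mul_le_mul_of_nonneg_left h.le (abs_nonneg c)
        have := hΦ0 w
        linarith
    have hbig : ∀ᶠ V : ℝ in Filter.atTop, K < (c0 / 2) * V := by
      have : Filter.Tendsto (fun V : ℝ => (c0 / 2) * V) Filter.atTop Filter.atTop :=
        Filter.Tendsto.const_mul_atTop (by positivity) Filter.tendsto_id
      exact this.eventually_gt_atTop K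
    filter_upwards [hup ε hε0, hbig, Filter.eventually_gt_atTop 0] with V hV1 hV2 hV0
    by_contra hcon
    push Not at hcon
    rw [swap f hf0 hfm hloc V hV0] at hV1
    -- the lower function
    let R0 : ℝ → ℝ := fun w => V⁻¹ * c * (w * Real.exp (-(w / V))) -
      V⁻¹ * K * Real.exp (-(w / V))
    let R1 : ℝ → ℝ := (Set.Ioc V ((1 + κ) * V)).indicator
      (fun w => (η / 2) * Real.exp (-(w / V)))
    have hi1 : IntegrableOn (fun w : ℝ => w * Real.exp (-(w / V))) (Set.Ioi 0) := by
      by_contra hni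
      have := I1 V hV0
      rw [integral_undef hni] at this
      have h2 : 0 < V ^ 2 := by positivity
      linarith
    have hi0 : IntegrableOn (fun w : ℝ => Real.exp (-(w / V))) (Set.Ioi 0) := by
      by_contra hni
      have := I0 V hV0
      rw [integral_undef hni] at this
      linarith
    have hR0i : IntegrableOn R0 (Set.Ioi 0) := (hi1.const_mul _).sub (hi0.const_mul _)
    have hR0v : ∫ w in Set.Ioi 0, R0 w = c * V - K := by
      have : ∫ w in Set.Ioi 0, R0 w = (∫ w in Set.Ioi 0, V⁻¹ * c * (w * Real.exp (-(w / V)))) -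
          ∫ w in Set.Ioi 0, V⁻¹ * K * Real.exp (-(w / V)) :=
        integral_sub (hi1.const_mul _) (hi0.const_mul _)
      rw [this, integral_const_mul, integral_const_mul, I1 V hV0, I0 V hV0]
      field_simp
    have hVκ : V ≤ (1 + κ) * V := by nlinarith
    have hsub : Set.Ioc V ((1 + κ) * V) ⊆ Set.Ioi 0 := fun x hx => lt_trans hV0 hx.1
    have hcont : Continuous (fun w : ℝ => (η / 2) * Real.exp (-(w / V))) := by fun_prop
    have hR1i : IntegrableOn R1 (Set.Ioi 0) := by
      refine IntegrableOn.indicator ?_ measurableSet_Ioc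
      exact hi0.const_mul _
    have hR1v : ∫ w in Set.Ioi 0, R1 w = c0 * V := by
      have e1 : ∫ w in Set.Ioi 0, R1 w =
          ∫ w in Set.Ioc V ((1 + κ) * V), (η / 2) * Real.exp (-(w / V)) := by
        rw [integral_indicator measurableSet_Ioc, Measure.restrict_restrict measurableSet_Ioc,
          Set.inter_eq_left.2 hsub]
      rw [e1, ← intervalIntegral.integral_of_le hVκ]
      have hd : ∀ x ∈ Set.uIcc V ((1 + κ) * V), HasDerivAt
          (fun w => -(V * ((η / 2) * Real.exp (-(w / V))))) ((η / 2) * Real.exp (-(x / V))) x := by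
        intro x _
        have h1 : HasDerivAt (fun w : ℝ => -(w / V)) (-(1 / V)) x :=
          ((hasDerivAt_id x).div_const V).neg
        have h2 := ((h1.exp.const_mul (η / 2)).const_mul V).neg
        refine h2.congr_deriv ?_
        field_simp
      rw [intervalIntegral.integral_eq_sub_of_hasDerivAt hd (hcont.intervalIntegrable _ _)]
      have e2 : V / V = 1 := div_self hV0.ne'
      have e3 : (1 + κ) * V / V = 1 + κ := by field_simp
      rw [e2, e3, hc0]
      ring
    have hle : ∀ w ∈ Set.Ioi (0 : ℝ), R0 w + R1 w ≤ V⁻¹ * Real.exp (-(w / V)) * Φ w := by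
      intro w hw
      have hw' : 0 < w := hw
      have hex : 0 < V⁻¹ * Real.exp (-(w / V)) := by positivity
      have eR0 : R0 w = V⁻¹ * Real.exp (-(w / V)) * (c * w - K) := by
        simp only [R0]
        ring
      by_cases hm : w ∈ Set.Ioc V ((1 + κ) * V)
      · have eR1 : R1 w = V⁻¹ * Real.exp (-(w / V)) * ((η / 2) * V) := by
          simp only [R1]
          rw [Set.indicator_of_mem hm]
          field_simp
        rw [eR0, eR1, ← mul_add]
        refine mul_le_mul_of_nonneg_left ?_ hex.le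
        have h1 : Φ V ≤ Φ w := hmono V w hm.1.le
        have h2 : c * w ≤ S * w := by
          rw [hc]
          nlinarith
        have h3 : S * w ≤ S * ((1 + κ) * V) := mul_le_mul_of_nonneg_left hm.2 hS
        have h4 : S * κ * V ≤ (η / 2) * V := mul_le_mul_of_nonneg_right hSκ hV0.le
        nlinarith
      · have eR1 : R1 w = 0 := by
          simp only [R1]
          rw [Set.indicator_of_notMem hm]
        rw [eR0, eR1, add_zero]
        exact mul_le_mul_of_nonneg_left (hlowAll w hw') hex.le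
    have hRi : IntegrableOn (fun w => R0 w + R1 w) (Set.Ioi 0) := hR0i.add hR1i
    have hRv : ∫ w in Set.Ioi 0, (R0 w + R1 w) = c * V - K + c0 * V := by
      rw [integral_add hR0i hR1i, hR0v, hR1v]
    have hpos : IntegrableOn (fun w => max (R0 w + R1 w) 0) (Set.Ioi 0) := hRi.pos_part
    have h5 : ENNReal.ofReal (c * V - K + c0 * V) ≤ ENNReal.ofReal ((S + ε) * V) := by
      calc ENNReal.ofReal (c * V - K + c0 * V)
          = ENNReal.ofReal (∫ w in Set.Ioi 0, (R0 w + R1 w)) := by rw [hRv]
        _ ≤ ENNReal.ofReal (∫ w in Set.Ioi 0, max (R0 w + R1 w) 0) :=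
            ENNReal.ofReal_le_ofReal (integral_mono hRi hpos fun w => le_max_left _ _)
        _ = ∫⁻ w in Set.Ioi 0, ENNReal.ofReal (max (R0 w + R1 w) 0) :=
            ofReal_integral_eq_lintegral_ofReal hpos
              (Filter.Eventually.of_forall fun w => le_max_right _ _)
        _ ≤ ∫⁻ w in Set.Ioi 0, ENNReal.ofReal (V⁻¹ * Real.exp (-(w / V)) * Φ w) := by
            refine setLIntegral_mono' measurableSet_Ioi fun w hw => ?_
            refine ENNReal.ofReal_le_ofReal (max_le (hle w hw) ?_)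
            have := hΦ0 w
            positivity
        _ ≤ _ := hV1
    have h6 : c * V - K + c0 * V ≤ (S + ε) * V :=
      (ENNReal.ofReal_le_ofReal_iff (by positivity)).1 h5
    have h7 : (c0 / 2) * V ≤ K := by
      have : c * V = S * V - c0 / 4 * V := by rw [hc, hε]; ring
      have h8 : (S + ε) * V = S * V + c0 / 4 * V := by rw [hε]; ring
      linarith
    linarith
  rw [Metric.tendsto_nhds]
  intro η hη
  filter_upwards [main η hη, hlow (η / 2) (by positivity), Filter.eventually_gt_atTop 0]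
    with V h1 h2 h3
  have h2' : (S - η / 2) * V ≤ Φ V := h2
  rw [Real.dist_eq, abs_lt]
  constructor
  · have : S - η / 2 ≤ Φ V / V := by rwa [le_div_iff₀ h3]
    linarith
  · have : Φ V / V < S + η := by rwa [div_lt_iff₀ h3]
    linarith

end Pool.Agent.W553.WM
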