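import Pool.Agent.W120.WM.Abel
import Pool.Agent.W120.WM.All2
import Pool.Agent.W120.WM.Taub
import Pool.Agent.W120.WM.Tan
import Pool.Agent.W120.WM.Gap
import Pool.Agent.W997.WM.PL2

/-! Project WM3: the exact limit. -/

set_option autoImplicit false

open MeasureTheory Filter Topology Set

namespace Pool.Agent.W120.WM

open Pool.Agent.H295R2 (JW JW_mono JW_nonneg JW_integrable IW_exp)

theorem xTAN : X_TAN := fun h1 S hS M ε hε =>
  Pool.Agent.W899.WM.tan uPT Pool.Agent.W752.WM.u_DBL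
    (fun a b h ha hb ε hε => Pool.Agent.W98.WM.gap a b h ha hb ε hε) h1 S hS M ε hε

theorem xPL : X_PL := fun δ h hδ hh h1 h2 => Pool.Agent.W997.WM.pl2 δ h hδ hh h1 h2

theorem limit (hZ : ZC) : Tendsto (fun V : ℝ => JW 0 V / V) atTop
    (𝓝 (∑' ρ : NT, 1 / ‖(ρ : ℂ) * deriv riemannZeta ρ‖ ^ 2)) := by
  obtain ⟨S, hS⟩ : ∃ S : ℝ, S = ∑' ρ : NT, 1 / ‖(ρ : ℂ) * deriv riemannZeta ρ‖ ^ 2 := ⟨_, rfl⟩
  have hS0 : 0 ≤ S := by
    rw [hS]
    exact tsum_nonneg fun ρ => by positivity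
  have hsum := ZC_sum hZ
  rw [← hS] at hsum ⊢
  refine Pool.Agent.W553.WM.taub ff ff_nonneg ff_meas ff_int S hS0 ?_ ?_
  · intro ε hε
    by_contra hcon
    rw [Filter.not_eventually] at hcon
    have h1 : ∃ᶠ V : ℝ in atTop, msq (Real.exp V ^ ((1 : ℝ) - 1)) (Real.exp V) ≤
        (S - ε) * Real.log (Real.exp V) := by
      refine (hcon.and_eventually (eventually_ge_atTop (0 : ℝ))).mono fun V hV => ?_
      obtain ⟨h2, h3⟩ := hV
      rw [sub_self, Real.rpow_zero, Real.log_exp, msq_eq one_pos (Real.one_le_exp h3),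
        Real.log_one, Real.log_exp, JW_ff]
      exact (not_le.1 h2).le
    have h2 := Real.tendsto_exp_atTop.frequently
      (p := fun x : ℝ => msq (x ^ ((1 : ℝ) - 1)) x ≤ (S - ε) * Real.log x) h1
    have h3 := (sparse_ZC one_pos le_rfl h2).2
    rw [← hS, div_one] at h3
    linarith
  · intro ε hε
    exact abel sharpT xTAN xPL (Pool.Agent.W897.WM.inv2 Pool.Agent.W150.WM.inv
      Pool.Agent.W565.WM.t_res) Pool.Agent.W143.WM.main hZ.1 S hsum ε hε

theorem msq_window {δ : ℝ} (hδ : 0 < δ) (hδ1 : δ ≤ 1) {x : ℝ} (hx : 1 ≤ x) :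
    msq (x ^ (1 - δ)) x = JW 0 (Real.log x) - JW 0 ((1 - δ) * Real.log x) := by
  have hx0 : 0 < x := by linarith
  have h1 : 1 ≤ x ^ (1 - δ) := Real.one_le_rpow hx (by linarith)
  have h2 : x ^ (1 - δ) ≤ x := by
    calc x ^ (1 - δ) ≤ x ^ (1 : ℝ) := Real.rpow_le_rpow_of_exponent_le hx (by linarith)
      _ = x := Real.rpow_one x
  have hl : 0 ≤ Real.log x := Real.log_nonneg hx
  have h3 : (1 - δ) * Real.log x ≤ Real.log x := by nlinarith
  have h4 : 0 ≤ (1 - δ) * Real.log x := mul_nonneg (by linarith) hl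
  rw [msq_eq (by linarith) h2, Real.log_rpow hx0, JW_add le_rfl h4 h3]
  ring

theorem final3 (δ : ℝ) (hδ : 0 < δ) (hδ1 : δ ≤ 1) :
    (ZC → Tendsto (fun x : ℝ => msq (x ^ (1 - δ)) x / Real.log x) atTop
      (𝓝 (δ * ∑' ρ : NT, 1 / ‖(ρ : ℂ) * deriv riemannZeta ρ‖ ^ 2))) ∧
    (¬ ZC → Tendsto (fun x : ℝ => msq (x ^ (1 - δ)) x / Real.log x) atTop atTop) := by
  constructor
  · intro hZ
    have h := limit hZ
    obtain ⟨S, hS⟩ : ∃ S : ℝ, S = ∑' ρ : NT, 1 / ‖(ρ : ℂ) * deriv riemannZeta ρ‖ ^ 2 :=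
      ⟨_, rfl⟩
    rw [← hS] at h ⊢
    have h1 : Tendsto (fun V : ℝ => JW 0 ((1 - δ) * V) / V) atTop (𝓝 ((1 - δ) * S)) := by
      rcases eq_or_lt_of_le hδ1 with h2 | h2
      · rw [h2]
        simp [JW]
      · have h3 : 0 < 1 - δ := by linarith
        have h4 := (h.comp (tendsto_id.const_mul_atTop h3)).const_mul (1 - δ)
        refine h4.congr fun V => ?_
        simp only [Function.comp, id]
        field_simp
    have h2 := (h.sub h1).comp Real.tendsto_log_atTop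
    have e : S - (1 - δ) * S = δ * S := by ring
    rw [e] at h2
    refine h2.congr' ?_
    filter_upwards [eventually_ge_atTop (1 : ℝ)] with x hx
    simp only [Function.comp]
    rw [msq_window hδ hδ1 hx, sub_div]
  · intro hZ
    refine tendsto_atTop.2 fun b => ?_
    by_contra hcon
    rw [Filter.not_eventually] at hcon
    refine hZ (sparse_ZC (C := b) hδ hδ1 ?_).1
    refine (hcon.and_eventually (eventually_gt_atTop (1 : ℝ))).mono fun x hx => ?_
    obtain ⟨h1, h2⟩ := hx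
    have hl : 0 < Real.log x := Real.log_pos h2
    rw [not_le, div_lt_iff₀ hl] at h1
    exact h1.le

end Pool.Agent.W120.WM
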