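import Pool.Agent.W120.WM.Defs

/-! Project WM: assembly of the final bound. -/

set_option autoImplicit false

open MeasureTheory Filter Topology Set

namespace Pool.Agent.W120.WM

theorem wt_le {h x : ℝ} (hh : 0 < h) (hx : 0 ≤ x) :
    Real.exp (-(h ^ 2 * x ^ 2)) * Real.log (3 + x) ≤ Real.log (3 + 1 / h) + 1 := by
  have h1 : (0 : ℝ) < 3 + 1 / h := by positivity
  have h2 : (0 : ℝ) < 1 + h * x := by positivity
  have h3 : Real.log (3 + x) ≤ Real.log (3 + 1 / h) + h * x := by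
    have e1 : 3 + x ≤ (3 + 1 / h) * (1 + h * x) := by
      have : (3 + 1 / h) * (1 + h * x) = 3 + x + 1 / h + 3 * (h * x) := by
        field_simp
        ring
      rw [this]
      have : 0 ≤ 1 / h + 3 * (h * x) := by positivity
      linarith
    calc Real.log (3 + x) ≤ Real.log ((3 + 1 / h) * (1 + h * x)) :=
          Real.log_le_log (by positivity) e1
      _ = Real.log (3 + 1 / h) + Real.log (1 + h * x) := Real.log_mul h1.ne' h2.ne'
      _ ≤ Real.log (3 + 1 / h) + h * x := by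
          have := Real.log_le_sub_one_of_pos h2
          linarith
  have h4 : Real.exp (-(h ^ 2 * x ^ 2)) ≤ 1 := Real.exp_le_one_iff.2 (by
    have : 0 ≤ h ^ 2 * x ^ 2 := by positivity
    linarith)
  have h5 : Real.exp (-(h ^ 2 * x ^ 2)) * (h * x) ≤ 1 := by
    rw [Real.exp_neg, inv_mul_le_iff₀ (Real.exp_pos _), mul_one]
    have h6 := Real.add_one_le_exp (h ^ 2 * x ^ 2)
    nlinarith [sq_nonneg (h * x - 1 / 2)]
  have h7 : 0 ≤ Real.log (3 + 1 / h) := Real.log_nonneg (by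
    have : 0 < 1 / h := by positivity
    linarith)
  have h8 : 0 < Real.exp (-(h ^ 2 * x ^ 2)) := Real.exp_pos _
  calc Real.exp (-(h ^ 2 * x ^ 2)) * Real.log (3 + x)
      ≤ Real.exp (-(h ^ 2 * x ^ 2)) * (Real.log (3 + 1 / h) + h * x) := by gcongr
    _ = Real.exp (-(h ^ 2 * x ^ 2)) * Real.log (3 + 1 / h) +
        Real.exp (-(h ^ 2 * x ^ 2)) * (h * x) := by ring
    _ ≤ 1 * Real.log (3 + 1 / h) + 1 := by gcongr
    _ = _ := by ring

/-- the coefficient of the zero `ρ` -/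
noncomputable def bc (h : ℝ) (ρ : ℂ) : ℂ :=
  Complex.exp ((h : ℂ) ^ 2 / 2 * ρ ^ 2) / (ρ * deriv riemannZeta ρ)

theorem bc_norm {h : ℝ} (hh : 0 < h) (hh1 : h ≤ 1) {ρ : ℂ} (hρ : ρ.re = 1 / 2) :
    ‖bc h ρ‖ ^ 2 ≤ 2 * Real.exp (-(h ^ 2 * |ρ.im| ^ 2)) *
      (1 / ‖ρ * deriv riemannZeta ρ‖ ^ 2) := by
  unfold bc
  rw [norm_div, div_pow, Complex.norm_exp]
  have e1 : ((h : ℂ) ^ 2 / 2 * ρ ^ 2).re = h ^ 2 / 2 * (1 / 4 - ρ.im ^ 2) := by
    have h1 : ((h : ℂ) ^ 2 / 2 * ρ ^ 2) = ((h ^ 2 / 2 : ℝ) : ℂ) * ρ ^ 2 := by push_cast; ring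
    rw [h1, Complex.re_ofReal_mul, sq ρ, Complex.mul_re, hρ]
    ring
  rw [e1, ← Real.exp_nat_mul]
  have e2 : Real.exp (((2 : ℕ) : ℝ) * (h ^ 2 / 2 * (1 / 4 - ρ.im ^ 2))) =
      Real.exp (h ^ 2 / 4) * Real.exp (-(h ^ 2 * |ρ.im| ^ 2)) := by
    rw [← Real.exp_add, sq_abs]
    congr 1
    push_cast
    ring
  have e3 : Real.exp (h ^ 2 / 4) ≤ 2 := by
    have h1 : h ^ 2 / 4 ≤ 1 / 4 := by nlinarith
    have h2 : Real.exp (h ^ 2 / 4) ≤ Real.exp (1 / 4) := Real.exp_le_exp.2 h1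
    have h3 : Real.exp (1 / 4 : ℝ) ^ 4 = Real.exp 1 := by
      rw [← Real.exp_nat_mul]
      norm_num
    have h4 := Real.exp_one_lt_d9
    have h5 : Real.exp (1 / 4 : ℝ) ≤ 2 := by
      by_contra hcon
      push Not at hcon
      have : (2 : ℝ) ^ 4 < Real.exp (1 / 4 : ℝ) ^ 4 := by gcongr
      rw [h3] at this
      linarith
    linarith
  rw [e2, div_eq_mul_one_div]
  gcongr

/-- the final bound with a finite set of zeros split off -/
def T_MAIN2 : Prop := ∃ K : ℝ, 0 < K ∧ ∀ (Z0 : Finset ℂ) (S : ℝ),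
  (∀ ρ ∈ NT, ρ.re = 1 / 2 ∧ deriv riemannZeta ρ ≠ 0) → (∀ ρ ∈ Z0, ρ ∈ NT) →
  (∀ Z : Finset ℂ, (∀ ρ ∈ Z, ρ ∈ NT ∧ ρ ∉ Z0) →
    ∑ ρ ∈ Z, 1 / ‖ρ * deriv riemannZeta ρ‖ ^ 2 ≤ S) →
  ∀ V : ℝ, 0 ≤ V →
    ∫ v in V..(V + 1), Mx (Real.exp v) ^ 2 * Real.exp (-v) ≤ K * (S * (1 + V) + 1 +
      ∑ ρ ∈ Z0, 1 / ‖ρ * deriv riemannZeta ρ‖ ^ 2 * Real.log (3 + |ρ.im|))

theorem main2 (hEF : T_EF) (hLB : T_LB) (hMS : T_MS) (hUNS : T_UNS) : T_MAIN2 := by
  classical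
  obtain ⟨B, hB, hLB⟩ := hLB
  obtain ⟨K, hK, hMS⟩ := hMS
  obtain ⟨C, hC, hUNS⟩ := hUNS
  refine ⟨32 * K + 2 * (C + 2 + B) ^ 2, by positivity, ?_⟩
  intro Z0 S h1 hZ0 hS V hV
  have hS0 : 0 ≤ S := by simpa using hS ∅ (by simp)
  obtain ⟨A, hA⟩ : ∃ A : ℝ, A = ∑ ρ ∈ Z0, 1 / ‖ρ * deriv riemannZeta ρ‖ ^ 2 *
    Real.log (3 + |ρ.im|) := ⟨_, rfl⟩
  have hlg : ∀ ρ : ℂ, 0 ≤ Real.log (3 + |ρ.im|) := fun ρ =>
    Real.log_nonneg (by linarith [abs_nonneg ρ.im])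
  have hA0 : 0 ≤ A := by
    rw [hA]
    exact Finset.sum_nonneg fun ρ _ => mul_nonneg (by positivity) (hlg ρ)
  obtain ⟨Z, hZ, hlim⟩ := hEF (fun ρ hρ => (h1 ρ hρ).2)
  obtain ⟨h, hh⟩ : ∃ h : ℝ, h = Real.exp (-(V + 1)) := ⟨_, rfl⟩
  have hpos : 0 < h := hh ▸ Real.exp_pos _
  have hle1 : h ≤ 1 := hh ▸ Real.exp_le_one_iff.2 (by linarith)
  set L : ℝ → ℂ := fun v => ((Sm h v : ℝ) : ℂ) + 2 -
        ((2 * Real.pi : ℝ) : ℂ)⁻¹ * ∫ t : ℝ, GG h v (⟨-1 / 2, t⟩ : ℂ) with hL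
  set Q : ℕ → ℝ → ℂ := fun k v => ∑ ρ ∈ Z k, bc h ρ * Complex.exp (Complex.I * ρ.im * v) with hQ
  set R : ℝ → ℂ := fun v => ((Real.exp (-(v / 2)) : ℝ) : ℂ) * L v with hR
  have hPQ : ∀ k v, ∑ ρ ∈ Z k, EE h v ρ / (ρ * deriv riemannZeta ρ) =
      ((Real.exp (v / 2) : ℝ) : ℂ) * Q k v := by
    intro k v
    rw [hQ]
    simp only
    rw [Finset.mul_sum]
    refine Finset.sum_congr rfl fun ρ hρ => ?_
    have hre := (h1 ρ (hZ k ρ hρ)).1
    unfold EE bc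
    have e1 : Complex.exp ((h : ℂ) ^ 2 / 2 * ρ ^ 2 + v * ρ) =
        Complex.exp ((h : ℂ) ^ 2 / 2 * ρ ^ 2) *
          (((Real.exp (v / 2) : ℝ) : ℂ) * Complex.exp (Complex.I * ρ.im * v)) := by
      rw [Complex.ofReal_exp, ← Complex.exp_add, ← Complex.exp_add]
      congr 1
      have : ρ = 1 / 2 + ρ.im * Complex.I := by
        apply Complex.ext
        · simp [hre]
        · simp
      have e2 : (v : ℂ) * ρ = v * (1 / 2 + ρ.im * Complex.I) := by rw [← this]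
      rw [e2]
      push_cast
      ring
    rw [e1]
    ring
  have hQR : ∀ v, Tendsto (fun k => Q k v) atTop (𝓝 (R v)) := by
    intro v
    have h2 := (hlim h v hpos hle1).const_mul (((Real.exp (-(v / 2)) : ℝ) : ℂ))
    refine h2.congr fun k => ?_
    rw [hPQ, ← mul_assoc, ← Complex.ofReal_mul, ← Real.exp_add]
    simp
  -- the mean square of Q
  have hD : ∀ k, ∫ v in V..(V + 1), ‖Q k v‖ ^ 2 ≤ K * (8 * S * (1 + V) + 2 * A) := by
    intro k
    refine (hMS (Z k) (bc h) V (fun ρ hρ => ⟨hZ k ρ hρ, (h1 ρ (hZ k ρ hρ)).1⟩)).trans ?_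
    have hlog : Real.log (3 + 1 / h) ≤ V + 3 := by
      have e1 : 1 / h = Real.exp (V + 1) := by
        rw [hh, Real.exp_neg, one_div, inv_inv]
      have e2 : 3 + Real.exp (V + 1) ≤ Real.exp (V + 3) := by
        have e3 : Real.exp (V + 3) = Real.exp (V + 1) * Real.exp 2 := by
          rw [← Real.exp_add]; ring_nf
        have e4 : (1 : ℝ) ≤ Real.exp (V + 1) := Real.one_le_exp (by linarith)
        have e5 : (4 : ℝ) ≤ Real.exp 2 := by
          have h6 := Real.exp_one_gt_d9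
          have h7 : Real.exp 2 = Real.exp 1 * Real.exp 1 := by rw [← Real.exp_add]; norm_num
          rw [h7]
          nlinarith
        rw [e3]
        nlinarith
      rw [e1]
      calc Real.log (3 + Real.exp (V + 1)) ≤ Real.log (Real.exp (V + 3)) :=
            Real.log_le_log (by positivity) e2
        _ = V + 3 := Real.log_exp _
    have hterm : ∀ ρ ∈ Z k, ‖bc h ρ‖ ^ 2 * Real.log (3 + |ρ.im|) ≤
        (8 * (1 + V)) * (1 / ‖ρ * deriv riemannZeta ρ‖ ^ 2) := by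
      intro ρ hρ
      have hre := (h1 ρ (hZ k ρ hρ)).1
      have hl0 : 0 ≤ Real.log (3 + |ρ.im|) := Real.log_nonneg (by linarith [abs_nonneg ρ.im])
      calc ‖bc h ρ‖ ^ 2 * Real.log (3 + |ρ.im|)
          ≤ (2 * Real.exp (-(h ^ 2 * |ρ.im| ^ 2)) * (1 / ‖ρ * deriv riemannZeta ρ‖ ^ 2)) *
            Real.log (3 + |ρ.im|) := by
            gcongr
            exact bc_norm hpos hle1 hre
        _ = (2 * (Real.exp (-(h ^ 2 * |ρ.im| ^ 2)) * Real.log (3 + |ρ.im|))) *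
            (1 / ‖ρ * deriv riemannZeta ρ‖ ^ 2) := by ring
        _ ≤ (2 * (V + 3 + 1)) * (1 / ‖ρ * deriv riemannZeta ρ‖ ^ 2) := by
            gcongr
            exact (wt_le hpos (abs_nonneg _)).trans (by linarith)
        _ ≤ (8 * (1 + V)) * (1 / ‖ρ * deriv riemannZeta ρ‖ ^ 2) :=
            mul_le_mul_of_nonneg_right (by linarith) (by positivity)
    have hterm2 : ∀ ρ ∈ Z k, ‖bc h ρ‖ ^ 2 * Real.log (3 + |ρ.im|) ≤
        2 * (1 / ‖ρ * deriv riemannZeta ρ‖ ^ 2 * Real.log (3 + |ρ.im|)) := by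
      intro ρ hρ
      have hre := (h1 ρ (hZ k ρ hρ)).1
      have hx : Real.exp (-(h ^ 2 * |ρ.im| ^ 2)) ≤ 1 := Real.exp_le_one_iff.2 (by
        have : 0 ≤ h ^ 2 * |ρ.im| ^ 2 := by positivity
        linarith)
      calc ‖bc h ρ‖ ^ 2 * Real.log (3 + |ρ.im|)
          ≤ (2 * Real.exp (-(h ^ 2 * |ρ.im| ^ 2)) * (1 / ‖ρ * deriv riemannZeta ρ‖ ^ 2)) *
            Real.log (3 + |ρ.im|) :=
            mul_le_mul_of_nonneg_right (bc_norm hpos hle1 hre) (hlg ρ)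
        _ ≤ (2 * 1 * (1 / ‖ρ * deriv riemannZeta ρ‖ ^ 2)) * Real.log (3 + |ρ.im|) := by
            refine mul_le_mul_of_nonneg_right ?_ (hlg ρ)
            gcongr
        _ = _ := by ring
    have hsplit := Finset.sum_filter_add_sum_filter_not (Z k) (fun ρ => ρ ∈ Z0)
      (fun ρ => ‖bc h ρ‖ ^ 2 * Real.log (3 + |ρ.im|))
    rw [← hsplit]
    have p1 : ∑ ρ ∈ (Z k).filter (fun ρ => ρ ∈ Z0), ‖bc h ρ‖ ^ 2 * Real.log (3 + |ρ.im|) ≤
        2 * A := by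
      calc ∑ ρ ∈ (Z k).filter (fun ρ => ρ ∈ Z0), ‖bc h ρ‖ ^ 2 * Real.log (3 + |ρ.im|)
          ≤ ∑ ρ ∈ (Z k).filter (fun ρ => ρ ∈ Z0),
            2 * (1 / ‖ρ * deriv riemannZeta ρ‖ ^ 2 * Real.log (3 + |ρ.im|)) :=
            Finset.sum_le_sum fun ρ hρ => hterm2 ρ (Finset.mem_filter.1 hρ).1
        _ ≤ ∑ ρ ∈ Z0, 2 * (1 / ‖ρ * deriv riemannZeta ρ‖ ^ 2 * Real.log (3 + |ρ.im|)) := by
            refine Finset.sum_le_sum_of_subset_of_nonneg
              (fun ρ hρ => (Finset.mem_filter.1 hρ).2) (fun ρ _ _ => ?_)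
            exact mul_nonneg (by norm_num) (mul_nonneg (by positivity) (hlg ρ))
        _ = 2 * A := by rw [← Finset.mul_sum, hA]
    have p2 : ∑ ρ ∈ (Z k).filter (fun ρ => ¬ ρ ∈ Z0), ‖bc h ρ‖ ^ 2 * Real.log (3 + |ρ.im|) ≤
        8 * S * (1 + V) := by
      calc ∑ ρ ∈ (Z k).filter (fun ρ => ¬ ρ ∈ Z0), ‖bc h ρ‖ ^ 2 * Real.log (3 + |ρ.im|)
          ≤ ∑ ρ ∈ (Z k).filter (fun ρ => ¬ ρ ∈ Z0),
            (8 * (1 + V)) * (1 / ‖ρ * deriv riemannZeta ρ‖ ^ 2) :=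
            Finset.sum_le_sum fun ρ hρ => hterm ρ (Finset.mem_filter.1 hρ).1
        _ = (8 * (1 + V)) * ∑ ρ ∈ (Z k).filter (fun ρ => ¬ ρ ∈ Z0),
            (1 / ‖ρ * deriv riemannZeta ρ‖ ^ 2) := by rw [← Finset.mul_sum]
        _ ≤ (8 * (1 + V)) * S := by
            refine mul_le_mul_of_nonneg_left (hS _ fun ρ hρ => ?_) (by positivity)
            exact ⟨hZ k ρ (Finset.mem_filter.1 hρ).1, (Finset.mem_filter.1 hρ).2⟩
        _ = 8 * S * (1 + V) := by ring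
    exact mul_le_mul_of_nonneg_left (by linarith) hK.le
  have hQc : ∀ k, Continuous (Q k) := by
    intro k
    rw [hQ]
    fun_prop
  -- Fatou
  have hfat : ∫⁻ v in Ioc V (V + 1), ENNReal.ofReal (‖R v‖ ^ 2) ≤
      ENNReal.ofReal (K * (8 * S * (1 + V) + 2 * A)) := by
    have e1 : ∀ v, ENNReal.ofReal (‖R v‖ ^ 2) =
        liminf (fun k => ENNReal.ofReal (‖Q k v‖ ^ 2)) atTop := by
      intro v
      refine (Tendsto.liminf_eq ?_).symm
      exact (ENNReal.continuous_ofReal.tendsto _).comp (((hQR v).norm).pow 2)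
    simp only [e1]
    refine (lintegral_liminf_le (fun k => ?_)).trans ?_
    · exact ENNReal.measurable_ofReal.comp (((hQc k).norm.pow 2).measurable)
    · refine liminf_le_of_le (by isBoundedDefault) ?_
      intro b hb
      obtain ⟨k, hk⟩ := hb.exists
      refine hk.trans ?_
      rw [← ofReal_integral_eq_lintegral_ofReal]
      · refine ENNReal.ofReal_le_ofReal ?_
        have := hD k
        rwa [intervalIntegral.integral_of_le (by linarith)] at this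
      · exact (((hQc k).norm.pow 2).integrableOn_Icc (a := V) (b := V + 1)).mono_set
          Ioc_subset_Icc_self
      · exact Eventually.of_forall fun v => by positivity
  have hpt : ∀ v ∈ Ioc V (V + 1), Mx (Real.exp v) ^ 2 * Real.exp (-v) ≤
      2 * ‖R v‖ ^ 2 + 2 * (C + 2 + B) ^ 2 := by
    intro v hv
    have hv0 : 0 ≤ v := by linarith [hv.1]
    have a1 : |Mx (Real.exp v) - Sm h v| ≤ C :=
      hUNS v h hv0 hpos (hh ▸ Real.exp_le_exp.2 (by linarith [hv.2]))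
    have a2 := (hLB h v hpos hle1).2
    have a3 : ‖((2 * Real.pi : ℝ) : ℂ)⁻¹ * ∫ t : ℝ, GG h v (⟨-1 / 2, t⟩ : ℂ)‖ ≤ B := by
      rw [norm_mul, norm_inv, Complex.norm_real, Real.norm_eq_abs,
        abs_of_pos (by positivity : (0 : ℝ) < 2 * Real.pi)]
      have a4 : (2 * Real.pi)⁻¹ ≤ 1 := by
        rw [inv_le_one₀ (by positivity)]
        linarith [Real.pi_gt_three]
      have a5 : Real.exp (-v / 2) ≤ 1 := Real.exp_le_one_iff.2 (by linarith)
      calc (2 * Real.pi)⁻¹ * ‖∫ t : ℝ, GG h v (⟨-1 / 2, t⟩ : ℂ)‖ ≤ 1 * (B * Real.exp (-v / 2)) := by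
            gcongr
        _ ≤ 1 * (B * 1) := by gcongr
        _ = B := by ring
    have a6 : |Mx (Real.exp v)| ≤ ‖L v‖ + (C + 2 + B) := by
      have b1 : ((Sm h v : ℝ) : ℂ) = L v - 2 +
          ((2 * Real.pi : ℝ) : ℂ)⁻¹ * ∫ t : ℝ, GG h v (⟨-1 / 2, t⟩ : ℂ) := by
        rw [hL]; ring
      have b2 : |Sm h v| ≤ ‖L v‖ + 2 + B := by
        have : |Sm h v| = ‖((Sm h v : ℝ) : ℂ)‖ := by
          rw [Complex.norm_real, Real.norm_eq_abs]
        rw [this, b1]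
        refine (norm_add_le _ _).trans ?_
        refine add_le_add ((norm_sub_le _ _).trans ?_) a3
        simp
      have b3 : |Mx (Real.exp v)| ≤ |Mx (Real.exp v) - Sm h v| + |Sm h v| := by
        have := abs_add_le (Mx (Real.exp v) - Sm h v) (Sm h v)
        simpa using this
      linarith
    have a7 : ‖R v‖ ^ 2 = ‖L v‖ ^ 2 * Real.exp (-v) := by
      rw [hR]
      simp only
      rw [norm_mul, Complex.norm_real, Real.norm_eq_abs, abs_of_pos (Real.exp_pos _), mul_pow,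
        ← Real.exp_nat_mul]
      have : ((2 : ℕ) : ℝ) * -(v / 2) = -v := by push_cast; ring
      rw [this]; ring
    rw [a7]
    have a8 : Mx (Real.exp v) ^ 2 ≤ 2 * ‖L v‖ ^ 2 + 2 * (C + 2 + B) ^ 2 := by
      rw [← sq_abs]
      have : |Mx (Real.exp v)| ^ 2 ≤ (‖L v‖ + (C + 2 + B)) ^ 2 := by gcongr
      nlinarith [sq_nonneg (‖L v‖ - (C + 2 + B))]
    have a9 : Real.exp (-v) ≤ 1 := Real.exp_le_one_iff.2 (by linarith)
    have a10 : 0 < Real.exp (-v) := Real.exp_pos _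
    calc Mx (Real.exp v) ^ 2 * Real.exp (-v)
        ≤ (2 * ‖L v‖ ^ 2 + 2 * (C + 2 + B) ^ 2) * Real.exp (-v) := by gcongr
      _ = 2 * (‖L v‖ ^ 2 * Real.exp (-v)) + 2 * (C + 2 + B) ^ 2 * Real.exp (-v) := by ring
      _ ≤ 2 * (‖L v‖ ^ 2 * Real.exp (-v)) + 2 * (C + 2 + B) ^ 2 * 1 := by gcongr
      _ = _ := by ring
  have hMm : Measurable Mx := by
    have : Mx = (fun n : ℕ => ∑ k ∈ Finset.Icc 1 n, ((ArithmeticFunction.moebius k : ℤ) : ℝ)) ∘
        (fun u : ℝ => ⌊u⌋₊) := rfl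
    rw [this]
    exact (measurable_from_nat).comp Nat.measurable_floor
  have hfm : Measurable (fun v : ℝ => Mx (Real.exp v) ^ 2 * Real.exp (-v)) :=
    ((hMm.comp Real.measurable_exp).pow_const 2).mul (by fun_prop)
  have hlin : ∫⁻ v in Ioc V (V + 1), ENNReal.ofReal (Mx (Real.exp v) ^ 2 * Real.exp (-v)) ≤
      ENNReal.ofReal (2 * (K * (8 * S * (1 + V) + 2 * A)) + 2 * (C + 2 + B) ^ 2) := by
    calc ∫⁻ v in Ioc V (V + 1), ENNReal.ofReal (Mx (Real.exp v) ^ 2 * Real.exp (-v))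
        ≤ ∫⁻ v in Ioc V (V + 1), (2 * ENNReal.ofReal (‖R v‖ ^ 2) +
            ENNReal.ofReal (2 * (C + 2 + B) ^ 2)) := by
          refine setLIntegral_mono' measurableSet_Ioc fun v hv => ?_
          refine (ENNReal.ofReal_le_ofReal (hpt v hv)).trans ?_
          rw [ENNReal.ofReal_add (by positivity) (by positivity),
            ENNReal.ofReal_mul (by norm_num : (0 : ℝ) ≤ 2)]
          simp
      _ = 2 * (∫⁻ v in Ioc V (V + 1), ENNReal.ofReal (‖R v‖ ^ 2)) +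
            ENNReal.ofReal (2 * (C + 2 + B) ^ 2) := by
          rw [lintegral_add_right _ measurable_const, lintegral_const_mul' _ _ (by simp),
            setLIntegral_const, Real.volume_Ioc]
          simp
      _ ≤ 2 * ENNReal.ofReal (K * (8 * S * (1 + V) + 2 * A)) + ENNReal.ofReal (2 * (C + 2 + B) ^ 2) := by
          gcongr
      _ = _ := by
          rw [ENNReal.ofReal_add (by positivity) (by positivity),
            ENNReal.ofReal_mul (by norm_num : (0 : ℝ) ≤ 2)]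
          simp
  rw [intervalIntegral.integral_of_le (by linarith),
    integral_eq_lintegral_of_nonneg_ae (Eventually.of_forall fun v => by positivity)
      hfm.aestronglyMeasurable]
  refine (ENNReal.toReal_le_of_le_ofReal (by positivity) hlin).trans ?_
  rw [← hA]
  have c1 : 0 ≤ (C + 2 + B) ^ 2 := sq_nonneg _
  have c2 : 0 ≤ S * (1 + V) := by positivity
  nlinarith [mul_nonneg c1 c2, mul_nonneg c1 hA0, mul_nonneg hK.le c2, mul_nonneg hK.le hA0]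

theorem main (h : T_MAIN2) : T_MAIN := by
  obtain ⟨K, hK, h⟩ := h
  refine ⟨K, hK, fun S h1 hS V hV => ?_⟩
  have hS0 : 0 ≤ S := by simpa using hS ∅ (by simp)
  refine (h ∅ S h1 (by simp) (fun Z hZ => hS Z fun ρ hρ => (hZ ρ hρ).1) V hV).trans ?_
  rw [Finset.sum_empty, add_zero, mul_assoc]
  refine mul_le_mul_of_nonneg_left ?_ hK.le
  nlinarith

end Pool.Agent.W120.WM
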